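import Pool.Agent.MP_9207e0_ag.Base

/-! The `p`-adic absolute values on the algebraic numbers. -/

set_option linter.unusedSectionVars false
set_option linter.unusedVariables false

namespace Pool.Agent.MP_9207e0_ag

lemma qbar_algebraic : Algebra.IsAlgebraic ℚ Qbar := by
  have h : (DivisionRing.toRatAlgebra : Algebra ℚ Qbar) = AlgebraicClosure.instAlgebra ℚ :=
    Subsingleton.elim _ _
  have k := AlgebraicClosure.isAlgebraic ℚ
  rw [← h] at k
  exact k

lemma qbar_galois : IsGalois ℚ Qbar := by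
  have := qbar_algebraic
  have : IsAlgClosure ℚ Qbar := ⟨inferInstance, this⟩
  infer_instance

attribute [local instance] qbar_algebraic qbar_galois

/-- A `p`-adic absolute value, with the compactness of bounded sets in number fields. -/
structure PAbs (p : ℕ) (v : AbsoluteValue Qbar ℝ) : Prop where
  na : IsNonarchimedean v
  lt : v p < 1
  cop : ∀ n : ℕ, ¬ p ∣ n → v n = 1
  pig : ∀ L : IntermediateField ℚ Qbar, FiniteDimensional ℚ L → ∀ (u w : ℕ → Qbar) (B ε : ℝ),
    (∀ n, u n ∈ L) → (∀ n, w n ∈ L) → (∀ n, v (u n) ≤ B) → (∀ n, v (w n) ≤ B) → 0 < ε →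
    ∃ n m, n < m ∧ v (u n - u m) < ε ∧ v (w n - w m) < ε

theorem exists_pabs (p : ℕ) (hp : p.Prime) : ∃ v, PAbs p v := by
  have : Fact p.Prime := ⟨hp⟩
  let ι : Qbar →ₐ[ℚ] PadicAlgCl p := IsAlgClosed.lift
  let v : AbsoluteValue Qbar ℝ :=
    (NormedField.toAbsoluteValue (PadicAlgCl p)).comp (f := ι.toRingHom) ι.toRingHom.injective
  have hv : ∀ z, v z = ‖ι z‖ := fun z => rfl
  have hn : ∀ n : ℕ, v n = ‖(n : ℚ_[p])‖ := by
    intro n
    rw [hv, map_natCast, ← PadicAlgCl.norm_extends, map_natCast]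
  refine ⟨v, ?_, ?_, ?_, ?_⟩
  · intro a b
    rw [hv, hv, hv, map_add]
    exact PadicAlgCl.isNonarchimedean p _ _
  · rw [hn]; exact Padic.norm_p_lt_one
  · intro n h
    rw [hn]
    exact Padic.norm_natCast_eq_one_iff.mpr ((Nat.Prime.coprime_iff_not_dvd hp).mpr h)
  · intro L hL u w B ε hu hw bu bw hε
    let b := Module.finBasis ℚ L
    let M : Submodule ℚ_[p] (PadicAlgCl p) :=
      Submodule.span ℚ_[p] (Set.range fun i => ι (b i))
    have hM : ∀ z ∈ L, ι z ∈ M := by
      intro z hz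
      have e := congrArg (fun t : L => ι t) (b.sum_repr ⟨z, hz⟩)
      simp only [IntermediateField.coe_sum, IntermediateField.coe_smul, map_sum] at e
      rw [← e]
      refine M.sum_mem fun i _ => ?_
      have e2 : ∀ (c : ℚ) (y : Qbar), ι (c • y) = (c : ℚ_[p]) • ι y := by
        intro c y
        rw [Rat.smul_def, map_mul, map_ratCast, Algebra.smul_def, map_ratCast]
      rw [e2]
      exact M.smul_mem _ (Submodule.subset_span ⟨i, rfl⟩)
    have : FiniteDimensional ℚ_[p] M := FiniteDimensional.span_of_finite _ (Set.finite_range _)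
    have : ProperSpace M := FiniteDimensional.proper ℚ_[p] M
    let s : ℕ → M × M := fun n => (⟨ι (u n), hM _ (hu n)⟩, ⟨ι (w n), hM _ (hw n)⟩)
    have hs : ∀ n, s n ∈ Metric.closedBall (0 : M × M) B := by
      intro n
      rw [mem_closedBall_zero_iff, Prod.norm_def, max_le_iff]
      exact ⟨bu n, bw n⟩
    obtain ⟨a, -, φ, hφ, ht⟩ := (isCompact_closedBall (0 : M × M) B).tendsto_subseq hs
    obtain ⟨N, hN⟩ := Metric.cauchySeq_iff.mp ht.cauchySeq ε hε
    have h1 := hN N le_rfl (N + 1) (Nat.le_succ N)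
    rw [Function.comp_apply, Function.comp_apply, Prod.dist_eq, max_lt_iff, dist_eq_norm,
      dist_eq_norm] at h1
    refine ⟨φ N, φ (N + 1), hφ (Nat.lt_succ_self N), ?_, ?_⟩
    · rw [hv, map_sub]; exact h1.1
    · rw [hv, map_sub]; exact h1.2

section NA

variable {v : AbsoluteValue Qbar ℝ} (na : IsNonarchimedean v)
include na

lemma na_add_le {a b : Qbar} {B : ℝ} (ha : v a ≤ B) (hb : v b ≤ B) : v (a + b) ≤ B :=
  (na a b).trans (max_le ha hb)

lemma na_add_lt {a b : Qbar} {B : ℝ} (ha : v a < B) (hb : v b < B) : v (a + b) < B :=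
  (na a b).trans_lt (max_lt ha hb)

lemma na_sub_le {a b : Qbar} {B : ℝ} (ha : v a ≤ B) (hb : v b ≤ B) : v (a - b) ≤ B := by
  rw [sub_eq_add_neg]
  exact na_add_le na ha (by rwa [v.map_neg])

lemma na_sub_lt {a b : Qbar} {B : ℝ} (ha : v a < B) (hb : v b < B) : v (a - b) < B := by
  rw [sub_eq_add_neg]
  exact na_add_lt na ha (by rwa [v.map_neg])

lemma na_add_eq {a b : Qbar} (h : v b < v a) : v (a + b) = v a := by
  refine le_antisymm (na_add_le na le_rfl h.le) ?_
  by_contra hc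
  have := na_sub_lt na (not_le.mp hc) h
  rw [add_sub_cancel_right] at this
  exact lt_irrefl _ this

lemma na_sub_eq {a b : Qbar} (h : v b < v a) : v (a - b) = v a := by
  rw [sub_eq_add_neg]
  exact na_add_eq na (by rwa [v.map_neg])

lemma na_nat (n : ℕ) : v n ≤ 1 := by
  induction n with
  | zero => simp
  | succ n ih => rw [Nat.cast_succ]; exact na_add_le na ih (by simp)

lemma na_int (n : ℤ) : v n ≤ 1 := by
  obtain ⟨k, rfl | rfl⟩ := n.eq_nat_or_neg
  · simpa using na_nat na k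
  · simpa using na_nat na k

lemma na_sum_le {ι : Type} (s : Finset ι) (f : ι → Qbar) {B : ℝ} (hB : 0 ≤ B)
    (h : ∀ i ∈ s, v (f i) ≤ B) : v (∑ i ∈ s, f i) ≤ B := by
  classical
  induction s using Finset.induction_on with
  | empty => simpa using hB
  | insert a s ha ih =>
    rw [Finset.sum_insert ha]
    exact na_add_le na (h a (Finset.mem_insert_self a s))
      (ih fun i hi => h i (Finset.mem_insert_of_mem hi))

lemma na_integral {z : Qbar} (hz : IsIntegral ℤ z) : v z ≤ 1 := by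
  by_contra hc
  have h1 : 1 < v z := not_le.mp hc
  obtain ⟨f, hf, e⟩ := hz
  rw [← Polynomial.aeval_def, hf.as_sum, map_add, map_pow, Polynomial.aeval_X, map_sum,
    add_eq_zero_iff_eq_neg] at e
  rcases Nat.eq_zero_or_pos f.natDegree with hd | hd
  · simp [hd] at e
  have h2 : v (z ^ f.natDegree) ≤ v z ^ (f.natDegree - 1) := by
    rw [e, v.map_neg]
    refine na_sum_le na _ _ (by positivity) fun i hi => ?_
    rw [map_mul, map_pow, Polynomial.aeval_X, Polynomial.aeval_C, v.map_mul, v.map_pow]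
    have hi' := Finset.mem_range.mp hi
    calc v (algebraMap ℤ Qbar (f.coeff i)) * v z ^ i ≤ 1 * v z ^ i := by
          gcongr
          exact na_int na _
      _ ≤ v z ^ (f.natDegree - 1) := by
          rw [one_mul]
          exact pow_le_pow_right₀ h1.le (by omega)
  rw [v.map_pow] at h2
  exact absurd h2 (not_le.mpr (pow_lt_pow_right₀ h1 (by omega)))

end NA

lemma exists_unit_nat {u : Qbar} (hu : u ≠ 0) : ∃ n : ℕ, n ≠ 0 ∧
    ∀ v : AbsoluteValue Qbar ℝ, IsNonarchimedean v → v n = 1 → v u = 1 := by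
  have key : ∀ z : Qbar, ∃ n : ℕ, n ≠ 0 ∧
      ∀ v : AbsoluteValue Qbar ℝ, IsNonarchimedean v → v z * v n ≤ 1 := by
    intro z
    have h1 : IsAlgebraic ℤ z :=
      (IsFractionRing.isAlgebraic_iff ℤ ℚ Qbar).mpr (Algebra.IsAlgebraic.isAlgebraic z)
    obtain ⟨y, hy, h2⟩ := h1.exists_integral_multiple
    refine ⟨y.natAbs, by simpa using hy, fun v na => ?_⟩
    have h3 := na_integral na h2
    rw [zsmul_eq_mul, v.map_mul, mul_comm] at h3
    have h4 : v (y.natAbs : Qbar) = v y := by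
      rcases Int.natAbs_eq y with h | h
      · conv_rhs => rw [h]
        simp
      · conv_rhs => rw [h]
        simp
    rwa [h4]
  obtain ⟨n, hn, h1⟩ := key u
  obtain ⟨m, hm, h2⟩ := key u⁻¹
  refine ⟨n * m, mul_ne_zero hn hm, fun v na h => ?_⟩
  rw [Nat.cast_mul, v.map_mul] at h
  have a1 := na_nat na n
  have a2 := na_nat na m
  have a3 := v.nonneg n
  have a4 := v.nonneg m
  have b1 : v n = 1 := by nlinarith
  have b2 : v m = 1 := by nlinarith
  have c1 := h1 v na
  have c2 := h2 v na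
  rw [b1, mul_one] at c1
  rw [b2, mul_one, map_inv₀, inv_le_one₀ (v.pos hu)] at c2
  exact le_antisymm c1 c2

theorem exists_good_abs (a b c d : Qbar) (ha : a ≠ 0) (hb : b ≠ 0) (hc : c ≠ 0) (hd : d ≠ 0) :
    ∃ (p : ℕ) (v : AbsoluteValue Qbar ℝ), p.Prime ∧ PAbs p v ∧ v 2 = 1 ∧ v a = 1 ∧ v b = 1 ∧
      v c = 1 ∧ v d = 1 := by
  obtain ⟨n1, k1, h1⟩ := exists_unit_nat ha
  obtain ⟨n2, k2, h2⟩ := exists_unit_nat hb
  obtain ⟨n3, k3, h3⟩ := exists_unit_nat hc
  obtain ⟨n4, k4, h4⟩ := exists_unit_nat hd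
  obtain ⟨p, hp1, hp⟩ := Nat.exists_infinite_primes (n1 + n2 + n3 + n4 + 3)
  obtain ⟨v, hv⟩ := exists_pabs p hp
  have key : ∀ n : ℕ, n ≠ 0 → n < p → v n = 1 := fun n h0 h =>
    hv.cop n fun hd => absurd (Nat.le_of_dvd (Nat.pos_of_ne_zero h0) hd) (not_le.mpr h)
  refine ⟨p, v, hp, hv, ?_, h1 v hv.na (key _ k1 (by omega)), h2 v hv.na (key _ k2 (by omega)),
    h3 v hv.na (key _ k3 (by omega)), h4 v hv.na (key _ k4 (by omega))⟩
  simpa using key 2 two_ne_zero (by omega)

lemma exists_aut {L : IntermediateField ℚ Qbar} {z : Qbar} (hz : z ∉ L) :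
    ∃ σ : Qbar →+* Qbar, (∀ w ∈ L, σ w = w) ∧ σ z ≠ z := by
  rw [← InfiniteGalois.fixedField_fixingSubgroup L, IntermediateField.mem_fixedField_iff] at hz
  push Not at hz
  obtain ⟨σ, h1, h2⟩ := hz
  exact ⟨σ.toRingEquiv.toRingHom, (IntermediateField.mem_fixingSubgroup_iff _ _).mp h1, h2⟩

end Pool.Agent.MP_9207e0_ag
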