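import Pool.Agent.MP_9207e0_ag.Defs

/-! Abbreviations for the field of algebraic numbers. -/

namespace Pool.Agent.MP_9207e0_ag

/-- The field of algebraic numbers. -/
abbrev Qbar : Type := AlgebraicClosure ℚ

/-- The coordinate ring of the affine Kummer surface. -/
abbrev KummerRing (l m : Qbar) : Type := MvPolynomial (Fin 4) Qbar ⧸ kummerIdeal l m

/-- Function fields of curves. -/
abbrev IsCurveField (F : Type) [Field F] [Algebra Qbar F] : Prop := IsCurveFieldOver Qbar F

/-- Places. -/
abbrev IsPlace {F : Type} [Field F] [Algebra Qbar F] (V : ValuationSubring F) : Prop :=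
  IsPlaceOver Qbar V

end Pool.Agent.MP_9207e0_ag
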