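import Mathlib

/-! A function that is affine in each variable away from the 2-torsion and even is a constant
plus a bilinear map. -/

set_option linter.unusedSectionVars false
set_option linter.unusedVariables false

namespace Pool.Agent.MP_9207e0_ag

/-- The group-theoretic properties of the points of an elliptic curve that are used. -/
structure Nice (H : Type) [AddCommGroup H] : Prop where
  div2 : ∀ x : H, ∃ y : H, 2 • y = x
  fin : {x : H | 2 • x = 0}.Finite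
  inf : Infinite H
  ex : ∃ t : H, t ≠ 0 ∧ 2 • t = 0

variable {H H' G : Type} [AddCommGroup H] [AddCommGroup H'] [AddCommGroup G]

/-- `g (c + e) + g (c - e)` does not depend on `e`. -/
def Aff (g : H → G) : Prop :=
  ∀ c e e' : H, c ≠ 0 → 2 • e ≠ 0 → 2 • (c + e) ≠ 0 → 2 • (c - e) ≠ 0 →
    2 • e' ≠ 0 → 2 • (c + e') ≠ 0 → 2 • (c - e') ≠ 0 →
    g (c + e) + g (c - e) = g (c + e') + g (c - e')

lemma Nice.fin_shift (hH : Nice H) (d : H) : {u : H | 2 • (u + d) = 0}.Finite := by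
  refine (hH.fin.image fun t => t - d).subset fun u hu => ⟨u + d, hu, by simp⟩

lemma Nice.generic (hH : Nice H) (d d' a b c e : H) :
    ∃ u : H, 2 • u ≠ 0 ∧ 2 • (u + d) ≠ 0 ∧ 2 • (u + d') ≠ 0 ∧ u ≠ a ∧ u ≠ b ∧ u ≠ c ∧ u ≠ e := by
  have := hH.inf
  have h : ({u : H | 2 • u = 0} ∪ {u : H | 2 • (u + d) = 0} ∪ {u : H | 2 • (u + d') = 0} ∪
      {a, b, c, e}).Finite :=
    ((hH.fin.union (hH.fin_shift d)).union (hH.fin_shift d')).union (Set.toFinite _)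
  obtain ⟨u, hu⟩ := h.exists_notMem
  simp only [Set.mem_union, Set.mem_ofPred_eq, Set.mem_insert_iff, Set.mem_singleton_iff,
    not_or] at hu
  exact ⟨u, hu.1.1.1, hu.1.1.2, hu.1.2, hu.2.1, hu.2.2.1, hu.2.2.2.1, hu.2.2.2.2⟩

lemma Aff.four (hH : Nice H) {g : H → G} (hg : Aff g) {b1 b2 b3 b4 : H} (h : b1 + b2 = b3 + b4)
    (h1 : 2 • b1 ≠ 0) (h2 : 2 • b2 ≠ 0) (h3 : 2 • b3 ≠ 0) (h4 : 2 • b4 ≠ 0) (h12 : b1 ≠ b2)
    (h34 : b3 ≠ b4) : g b1 + g b2 = g b3 + g b4 := by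
  have hc : ∃ c : H, c ≠ 0 ∧ 2 • c = b1 + b2 := by
    by_cases hs : b1 + b2 = 0
    · rw [hs]; exact hH.ex
    · obtain ⟨c, hc⟩ := hH.div2 (b1 + b2)
      refine ⟨c, ?_, hc⟩
      rintro rfl
      exact hs (by rw [← hc]; simp)
  obtain ⟨c, hc0, hc⟩ := hc
  rw [two_nsmul] at hc
  have e1 : c + (b1 - c) = b1 := by abel
  have e2 : c - (b1 - c) = b2 := by rw [← sub_add, sub_add_eq_add_sub, hc]; abel
  have e3 : c + (b3 - c) = b3 := by abel
  have e4 : c - (b3 - c) = b4 := by rw [← sub_add, sub_add_eq_add_sub, hc, h]; abel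
  have := hg c (b1 - c) (b3 - c) hc0 ?_ (by rwa [e1]) (by rwa [e2]) ?_ (by rwa [e3]) (by rwa [e4])
  · rwa [e1, e2, e3, e4] at this
  · intro h0
    apply h12
    rw [nsmul_sub, two_nsmul, two_nsmul, hc] at h0
    rw [← sub_eq_zero, ← h0]; abel
  · intro h0
    apply h34
    rw [nsmul_sub, two_nsmul, two_nsmul, hc, h] at h0
    rw [← sub_eq_zero, ← h0]; abel

lemma Aff.indep (hH : Nice H) {g : H → G} (hg : Aff g) {d u u' : H} (h1 : 2 • u ≠ 0)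
    (h2 : 2 • (u + d) ≠ 0) (h3 : 2 • u' ≠ 0) (h4 : 2 • (u' + d) ≠ 0) :
    g (u + d) - g u = g (u' + d) - g u' := by
  obtain ⟨w, w1, w2, -, w3, w4, w5, w6⟩ := hH.generic d d (u + d) (u - d) (u' + d) (u' - d)
  have k : ∀ v : H, 2 • v ≠ 0 → 2 • (v + d) ≠ 0 → w ≠ v + d → w ≠ v - d →
      g (v + d) - g v = g (w + d) - g w := by
    intro v v1 v2 v3 v4
    have := hg.four hH (b1 := v + d) (b2 := w) (b3 := w + d) (b4 := v) (by abel) v2 w1 w2 v1
      v3.symm (fun h => v4 (by rw [← h]; abel))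
    rw [sub_eq_sub_iff_add_eq_add, this]
  rw [k u h1 h2 w3 w4, k u' h3 h4 w5 w6]

lemma Aff.exists_hom (hH : Nice H) {g : H → G} (hg : Aff g) :
    ∃ ψ : H →+ G, ∀ b b' : H, 2 • b ≠ 0 → 2 • b' ≠ 0 → g b - g b' = ψ (b - b') := by
  have hu : ∀ d : H, ∃ u : H, 2 • u ≠ 0 ∧ 2 • (u + d) ≠ 0 := fun d => by
    obtain ⟨u, h1, h2, -⟩ := hH.generic d d 0 0 0 0
    exact ⟨u, h1, h2⟩
  choose u hu1 hu2 using hu
  have key : ∀ d v : H, 2 • v ≠ 0 → 2 • (v + d) ≠ 0 →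
      g (u d + d) - g (u d) = g (v + d) - g v := fun d v h1 h2 =>
    hg.indep hH (hu1 d) (hu2 d) h1 h2
  refine ⟨AddMonoidHom.mk' (fun d => g (u d + d) - g (u d)) ?_, ?_⟩
  · intro d d'
    obtain ⟨v, h1, h2, h3, -⟩ := hH.generic d (d + d') 0 0 0 0
    rw [key (d + d') v h1 h3, key d v h1 h2, key d' (v + d) h2 (by rwa [add_assoc]), add_assoc]
    abel
  · intro b b' hb hb'
    have := key (b - b') b' hb' (by rwa [add_sub_cancel])
    rw [add_sub_cancel] at this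
    exact this.symm

theorem exists_bilinear (hH : Nice H) (hH' : Nice H') (γ : H → H' → G)
    (h1 : ∀ a : H, 2 • a ≠ 0 → Aff (γ a)) (h2 : ∀ b : H', 2 • b ≠ 0 → Aff fun a => γ a b)
    (hs : ∀ (a : H) (b : H'), 2 • a ≠ 0 → 2 • b ≠ 0 → γ (-a) (-b) = γ a b) :
    ∃ (κ : G) (β : H →+ H' →+ G), ∀ (a : H) (b : H'), 2 • a ≠ 0 → 2 • b ≠ 0 →
      γ a b = κ + β a b := by
  have e1 : ∀ a : H, ∃ ψ : H' →+ G, 2 • a ≠ 0 →
      ∀ b b' : H', 2 • b ≠ 0 → 2 • b' ≠ 0 → γ a b - γ a b' = ψ (b - b') := by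
    intro a
    by_cases ha : 2 • a = 0
    · exact ⟨0, fun h => absurd ha h⟩
    · obtain ⟨ψ, hψ⟩ := (h1 a ha).exists_hom hH'
      exact ⟨ψ, fun _ => hψ⟩
  choose ψ hψ using e1
  have hdiff : ∀ d' : H', ∃ b b' : H', 2 • b ≠ 0 ∧ 2 • b' ≠ 0 ∧ b - b' = d' := fun d' => by
    obtain ⟨u, k1, k2, -⟩ := hH'.generic d' d' 0 0 0 0
    exact ⟨u + d', u, k2, k1, by abel⟩
  have hdiff0 : ∀ d : H, ∃ b b' : H, 2 • b ≠ 0 ∧ 2 • b' ≠ 0 ∧ b - b' = d := fun d => by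
    obtain ⟨u, k1, k2, -⟩ := hH.generic d d 0 0 0 0
    exact ⟨u + d, u, k2, k1, by abel⟩
  have hA : Aff ψ := by
    intro c e e' c0 k1 k2 k3 k4 k5 k6
    ext d'
    obtain ⟨b, b', hb, hb', rfl⟩ := hdiff d'
    have t1 := h2 b hb c e e' c0 k1 k2 k3 k4 k5 k6
    have t2 := h2 b' hb' c e e' c0 k1 k2 k3 k4 k5 k6
    simp only [AddMonoidHom.add_apply]
    rw [← hψ _ k2 b b' hb hb', ← hψ _ k3 b b' hb hb', ← hψ _ k5 b b' hb hb',
      ← hψ _ k6 b b' hb hb']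
    simp only at t1 t2
    rw [sub_add_sub_comm, sub_add_sub_comm, t1, t2]
  obtain ⟨β, hβ⟩ := hA.exists_hom hH
  obtain ⟨a0, ha0, -⟩ := hH.generic 0 0 0 0 0 0
  obtain ⟨b0, hb0, -⟩ := hH'.generic 0 0 0 0 0 0
  obtain ⟨χ, hχ⟩ := (h2 b0 hb0).exists_hom hH
  let α : H →+ G := χ - β.flip b0
  let α' : H' →+ G := ψ a0 - β a0
  let κ : G := γ a0 b0 - ψ a0 b0 - χ a0 + β a0 b0
  have main : ∀ (a : H) (b : H'), 2 • a ≠ 0 → 2 • b ≠ 0 →
      γ a b = κ + α a + α' b + β a b := by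
    intro a b ha hb
    have t1 := hψ a ha b b0 hb hb0
    have t2 := hχ a a0 ha ha0
    have t3 := DFunLike.congr_fun (hβ a a0 ha ha0) (b - b0)
    simp only [AddMonoidHom.sub_apply, map_sub] at t1 t2 t3
    simp only [κ, α, α', AddMonoidHom.sub_apply, AddMonoidHom.flip_apply]
    have t4 : γ a b = γ a b0 + (ψ a b - ψ a b0) := by rw [← t1]; abel
    have t5 : γ a b0 = γ a0 b0 + (χ a - χ a0) := by rw [← t2]; abel
    have t6 : ψ a b - ψ a b0 = (ψ a0 b - ψ a0 b0) + (β a b - β a0 b - (β a b0 - β a0 b0)) := by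
      rw [← t3]; abel
    rw [t4, t5, t6]; abel
  have sym : ∀ (a : H) (b : H'), 2 • a ≠ 0 → 2 • b ≠ 0 → α (2 • a) + α' (2 • b) = 0 := by
    intro a b ha hb
    have t1 := hs a b ha hb
    rw [main a b ha hb, main (-a) (-b) (by simpa using ha) (by simpa using hb)] at t1
    simp only [map_neg, AddMonoidHom.neg_apply, neg_neg] at t1
    rw [two_nsmul, two_nsmul, map_add, map_add, ← sub_eq_zero.mpr t1.symm]
    abel
  have hα : ∀ d, α d = 0 := by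
    intro d
    obtain ⟨y, rfl⟩ := hH.div2 d
    obtain ⟨a, a', ha, ha', rfl⟩ := hdiff0 y
    have t1 := sym a b0 ha hb0
    have t2 := sym a' b0 ha' hb0
    rw [nsmul_sub, map_sub, sub_eq_zero]
    exact add_right_cancel (t1.trans t2.symm)
  have hα' : ∀ d, α' d = 0 := by
    intro d
    obtain ⟨y, rfl⟩ := hH'.div2 d
    obtain ⟨a, a', ha, ha', rfl⟩ := hdiff y
    have t1 := sym a0 a ha0 ha
    have t2 := sym a0 a' ha0 ha'
    rw [nsmul_sub, map_sub, sub_eq_zero]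
    exact add_left_cancel (t1.trans t2.symm)
  refine ⟨κ, β, fun a b ha hb => ?_⟩
  rw [main a b ha hb, hα, hα', add_zero, add_zero]

end Pool.Agent.MP_9207e0_ag
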