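import Pool.Agent.MP_9207e0_ag.Places

/-! From rational functions on a curve to relations between classes of points. -/

set_option linter.unusedSectionVars false
set_option linter.unusedVariables false

namespace Pool.Agent.MP_9207e0_ag

open AlgebraicGeometry CategoryTheory

/-- The cubic `x (x - 1) (x - l)`. -/
def fl {F : Type} [Field F] (l x : F) : F := x * (x - 1) * (x - l)

variable {l m : Qbar}

/-- The coordinate functions. -/
noncomputable def kx (l m : Qbar) (i : Fin 4) : KummerRing l m :=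
  Ideal.Quotient.mk _ (MvPolynomial.X i)

/-- The point of the affine Kummer surface with given coordinates in `F`. -/
noncomputable def kumHom {F : Type} [Field F] [Algebra Qbar F] (x u r : F)
    (h1 : r ^ 2 = fl (algebraMap Qbar F l) x * fl (algebraMap Qbar F m) u) (h2 : r ≠ 0) :
    KummerRing l m →ₐ[Qbar] F :=
  Ideal.Quotient.liftₐ _ (MvPolynomial.aeval ![x, u, r, r⁻¹]) (by
    intro a ha
    rw [← RingHom.mem_ker]
    refine (Ideal.span_le.mpr ?_ : Ideal.span _ ≤ RingHom.ker _) ha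
    rintro _ (rfl | rfl)
    · simp [RingHom.mem_ker, h1, fl]
    · simp [RingHom.mem_ker, h2])

lemma kumHom_kx {F : Type} [Field F] [Algebra Qbar F] (x u r : F)
    (h1 : r ^ 2 = fl (algebraMap Qbar F l) x * fl (algebraMap Qbar F m) u) (h2 : r ≠ 0)
    (i : Fin 4) : kumHom x u r h1 h2 (kx l m i) = ![x, u, r, r⁻¹] i := by
  simp [kumHom, kx]

lemma hom_eq1 {F : Type} [Field F] [Algebra Qbar F] (P : KummerRing l m →ₐ[Qbar] F) :
    P (kx l m 2) ^ 2 =
      fl (algebraMap Qbar F l) (P (kx l m 0)) * fl (algebraMap Qbar F m) (P (kx l m 1)) := by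
  have h : (Ideal.Quotient.mk _ (MvPolynomial.X 2 ^ 2 -
        MvPolynomial.X 0 * (MvPolynomial.X 0 - 1) * (MvPolynomial.X 0 - MvPolynomial.C l) *
        (MvPolynomial.X 1 * (MvPolynomial.X 1 - 1) * (MvPolynomial.X 1 - MvPolynomial.C m))) :
        KummerRing l m) = 0 :=
    Ideal.Quotient.eq_zero_iff_mem.mpr (Ideal.subset_span (Or.inl rfl))
  have h2 := congrArg P h
  have e : ∀ c : Qbar, P (Ideal.Quotient.mk _ (MvPolynomial.C c)) = algebraMap Qbar F c :=
    fun c => P.commutes c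
  simp only [map_sub, map_mul, map_pow, map_one, map_zero, e] at h2
  simp only [fl, kx]
  exact sub_eq_zero.mp h2

lemma hom_eq2 {F : Type} [Field F] [Algebra Qbar F] (P : KummerRing l m →ₐ[Qbar] F) :
    P (kx l m 2) * P (kx l m 3) = 1 := by
  have h : (Ideal.Quotient.mk _ (MvPolynomial.X 2 * MvPolynomial.X 3 - 1) : KummerRing l m) = 0 :=
    Ideal.Quotient.eq_zero_iff_mem.mpr (Ideal.subset_span (Or.inr rfl))
  have h2 := congrArg P h
  simp only [map_sub, map_mul, map_one, map_zero] at h2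
  exact sub_eq_zero.mp h2

lemma hom_ne {F : Type} [Field F] [Algebra Qbar F] (P : KummerRing l m →ₐ[Qbar] F) :
    P (kx l m 2) ≠ 0 := left_ne_zero_of_mul_eq_one (hom_eq2 P)

lemma hom_eq_kumHom {F : Type} [Field F] [Algebra Qbar F] (P : KummerRing l m →ₐ[Qbar] F) :
    P = kumHom _ _ _ (hom_eq1 P) (hom_ne P) := by
  apply Ideal.Quotient.algHom_ext
  apply MvPolynomial.algHom_ext
  intro i
  change P (kx l m i) = kumHom _ _ _ (hom_eq1 P) (hom_ne P) (kx l m i)
  rw [kumHom_kx]
  fin_cases i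
  · rfl
  · rfl
  · rfl
  · exact eq_inv_of_mul_eq_one_right (hom_eq2 P)

lemma sp_hom {F : Type} [Field F] [Algebra Qbar F] {V : ValuationSubring F} (hV : IsPlace V)
    (φ : KummerRing l m →ₐ[Qbar] F) (P : KummerRing l m →ₐ[Qbar] Qbar)
    (h0 : Sp V (φ (kx l m 0)) (P (kx l m 0))) (h1 : Sp V (φ (kx l m 1)) (P (kx l m 1)))
    (h2 : Sp V (φ (kx l m 2)) (P (kx l m 2))) (z : KummerRing l m) : Sp V (φ z) (P z) := by
  have h3 : Sp V (φ (kx l m 3)) (P (kx l m 3)) := by
    rw [eq_inv_of_mul_eq_one_right (hom_eq2 φ), eq_inv_of_mul_eq_one_right (hom_eq2 P)]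
    exact h2.inv hV (hom_ne P)
  obtain ⟨p, rfl⟩ := Ideal.Quotient.mk_surjective z
  induction p using MvPolynomial.induction_on with
  | C c =>
    have e1 : φ (Ideal.Quotient.mk _ (MvPolynomial.C c)) = algebraMap Qbar F c := φ.commutes c
    have e2 : P (Ideal.Quotient.mk _ (MvPolynomial.C c)) = c := P.commutes c
    rw [e1, e2]; exact Sp.const V c
  | add p q hp hq => simp only [map_add]; exact hp.add hq
  | mul_X p i hp =>
    simp only [map_mul]
    refine hp.mul hV ?_
    fin_cases i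
    · exact h0
    · exact h1
    · exact h2
    · exact h3

lemma isCenter_of_sp {F : Type} [Field F] [Algebra Qbar F] {V : ValuationSubring F}
    (hV : IsPlace V) (φ : KummerRing l m →ₐ[Qbar] F) (P : KummerRing l m →ₐ[Qbar] Qbar)
    (h : ∀ z, Sp V (φ z) (P z)) {X : Scheme.{0}}
    (j : Spec (CommRingCat.of (KummerRing l m)) ⟶ X) :
    IsCenter (Spec.map (CommRingCat.ofHom φ.toRingHom) ≫ j) V (j (closedPt P)) := by
  let ψ : KummerRing l m →+* V := φ.toRingHom.codRestrict V.toSubring fun z => (h z).mem hV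
  refine ⟨Spec.map (CommRingCat.ofHom ψ) ≫ j, ?_, ?_⟩
  · rw [← Category.assoc, ← Spec.map_comp]
    rfl
  · rw [Scheme.Hom.comp_apply]
    congr 1
    apply PrimeSpectrum.ext
    ext z
    change ψ z ∈ IsLocalRing.maximalIdeal V ↔ z ∈ RingHom.ker P
    rw [← ValuationSubring.coe_mem_nonunits_iff, ValuationSubring.mem_nonunits_iff,
      RingHom.mem_ker]
    change V.valuation (φ z) < 1 ↔ P z = 0
    constructor
    · intro hz
      exact (h z).unique hV (Sp.zero_iff.mpr hz)
    · intro hz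
      have := h z
      rwa [hz, Sp.zero_iff] at this

lemma exists_center {F : Type} [Field F] [Algebra Qbar F] {X : Scheme.{0}}
    (s : X ⟶ Spec (CommRingCat.of Qbar)) [IsProper s] (ξ : Spec (CommRingCat.of F) ⟶ X)
    (hξ : ξ ≫ s = Spec.map (CommRingCat.ofHom (algebraMap Qbar F))) {V : ValuationSubring F}
    (hV : IsPlace V) : ∃ x, IsCenter ξ V x := by
  have hu : UniversallyClosed s := inferInstance
  rw [UniversallyClosed.eq_valuativeCriterion] at hu
  let ι : Qbar →+* V := (algebraMap Qbar F).codRestrict V.toSubring hV.2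
  have w : ξ ≫ s = Spec.map (CommRingCat.ofHom (algebraMap V F)) ≫
      Spec.map (CommRingCat.ofHom ι) := by
    rw [hξ, ← Spec.map_comp]
    rfl
  obtain ⟨η, h1, h2⟩ := (hu.1 { R := V, K := F, commSq := ⟨w⟩, .. }).exists_lift
  exact ⟨_, η, h1, rfl⟩

/-- The group of zero-cycles modulo rational equivalence. -/
abbrev Chow {X : Scheme.{0}} (s : X ⟶ Spec (CommRingCat.of Qbar)) : Type :=
  (X →₀ ℤ) ⧸ AddSubgroup.closure {D | PrincipalCycle s D}

open Classical in
/-- The class of the point with given coordinates. -/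
noncomputable def cl {X : Scheme.{0}} (s : X ⟶ Spec (CommRingCat.of Qbar))
    (j : Spec (CommRingCat.of (KummerRing l m)) ⟶ X) (x u r : Qbar) : Chow s :=
  if h : r ^ 2 = fl l x * fl m u ∧ r ≠ 0 then
    QuotientAddGroup.mk (Finsupp.single (j (closedPt (kumHom x u r h.1 h.2))) 1)
  else 0

lemma cl_hom {X : Scheme.{0}} (s : X ⟶ Spec (CommRingCat.of Qbar))
    (j : Spec (CommRingCat.of (KummerRing l m)) ⟶ X) (P : KummerRing l m →ₐ[Qbar] Qbar) :
    cl s j (coord P 0) (coord P 1) (coord P 2) =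
      QuotientAddGroup.mk (Finsupp.single (j (closedPt P)) 1) := by
  have h : coord P 2 ^ 2 = fl l (coord P 0) * fl m (coord P 1) ∧ coord P 2 ≠ 0 :=
    ⟨hom_eq1 P, hom_ne P⟩
  rw [cl, dif_pos h]
  conv_rhs => rw [hom_eq_kumHom P]
  rfl

lemma ratEquiv_of_cl {X : Scheme.{0}} (s : X ⟶ Spec (CommRingCat.of Qbar))
    (j : Spec (CommRingCat.of (KummerRing l m)) ⟶ X) (P Q : KummerRing l m →ₐ[Qbar] Qbar)
    (h : cl s j (coord P 0) (coord P 1) (coord P 2) =
      cl s j (coord Q 0) (coord Q 1) (coord Q 2)) :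
    RatEquiv s (j (closedPt P)) (j (closedPt Q)) := by
  rw [cl_hom, cl_hom] at h
  exact QuotientAddGroup.eq_iff_sub_mem.mp h

/-- The relations given by divisors of rational functions on curves. -/
def CurveRel (l m : Qbar) {G : Type} [AddCommGroup G] (γ : Qbar → Qbar → Qbar → G) : Prop :=
  ∀ (F : Type) [Field F] [Algebra Qbar F], IsCurveField F → ∀ (x u r h : F),
    r ^ 2 = fl (algebraMap Qbar F l) x * fl (algebraMap Qbar F m) u → r ≠ 0 → h ≠ 0 →
    ∀ (n : ℕ) (V : Fin n → ValuationSubring F), Function.Injective V → (∀ i, IsPlace (V i)) →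
    (∀ W, IsPlace W → W ∉ Set.range V → ordAt W h = 0) →
    ∀ a b c : Fin n → Qbar, (∀ i, Sp (V i) x (a i)) → (∀ i, Sp (V i) u (b i)) →
    (∀ i, Sp (V i) r (c i)) → (∀ i, c i ≠ 0) →
    ∑ i, ordAt (V i) h • γ (a i) (b i) (c i) = 0

lemma Sp.fl {F : Type} [Field F] [Algebra Qbar F] {V : ValuationSubring F} (hV : IsPlace V)
    {g k : F} {c d : Qbar} (hk : Sp V k d) (h : Sp V g c) : Sp V (fl k g) (fl d c) :=
  (h.mul hV (h.sub (Sp.one V))).mul hV (h.sub hk)

theorem curveRel_cl {X : Scheme.{0}} (s : X ⟶ Spec (CommRingCat.of Qbar)) [IsProper s]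
    (j : Spec (CommRingCat.of (KummerRing l m)) ⟶ X)
    (hj : j ≫ s = Spec.map (CommRingCat.ofHom (algebraMap Qbar (KummerRing l m)))) :
    CurveRel l m (cl s j) := by
  classical
  intro F _ _ hF x u r h e hr hh n V hinj hV hW a b c ha hb hc hc0
  have e' : ∀ i, c i ^ 2 = fl l (a i) * fl m (b i) := by
    intro i
    have h1 := (hc i).pow (hV i) 2
    have h2 := (Sp.fl (hV i) (Sp.const _ l) (ha i)).mul (hV i)
      (Sp.fl (hV i) (Sp.const _ m) (hb i))
    rw [← e] at h2
    exact h1.unique (hV i) h2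
  let φ := kumHom x u r e hr
  let ξ := Spec.map (CommRingCat.ofHom φ.toRingHom) ≫ j
  have hξ : ξ ≫ s = Spec.map (CommRingCat.ofHom (algebraMap Qbar F)) := by
    rw [Category.assoc, hj, ← Spec.map_comp]
    congr 1
    ext c
    exact φ.commutes c
  let P : Fin n → (KummerRing l m →ₐ[Qbar] Qbar) := fun i =>
    kumHom (a i) (b i) (c i) (e' i) (hc0 i)
  have hP : ∀ i, IsCenter ξ (V i) (j (closedPt (P i))) := by
    intro i
    refine isCenter_of_sp (hV i) φ (P i) (sp_hom (hV i) φ (P i) ?_ ?_ ?_) j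
    · simp only [φ, P, kumHom_kx]; exact ha i
    · simp only [φ, P, kumHom_kx]; exact hb i
    · simp only [φ, P, kumHom_kx]; exact hc i
  have hex : ∀ W : ValuationSubring F, ∃ y : X, (IsPlace W → IsCenter ξ W y) ∧
      ∀ i, V i = W → y = j (closedPt (P i)) := by
    intro W
    by_cases hr : W ∈ Set.range V
    · obtain ⟨i, rfl⟩ := hr
      exact ⟨_, fun _ => hP i, fun i' hi => by rw [hinj hi]⟩
    · by_cases hp : IsPlace W
      · obtain ⟨y, hy⟩ := exists_center s ξ hξ hp
        exact ⟨y, fun _ => hy, fun i hi => absurd ⟨i, hi⟩ hr⟩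
      · exact ⟨ξ (IsLocalRing.closedPoint F), fun h => absurd h hp,
          fun i hi => absurd ⟨i, hi⟩ hr⟩
  choose ce hce1 hce2 using hex
  have hD : PrincipalCycle s (∑ i, Finsupp.single (j (closedPt (P i))) (ordAt (V i) h)) := by
    refine ⟨F, inferInstance, inferInstance, hF, ξ, h, ce, hξ, hh, hce1, ?_⟩
    rw [finsum_mem_eq_sum_of_inter_support_eq
      (t := Finset.univ.map ⟨V, hinj⟩), Finset.sum_map]
    · refine Finset.sum_congr rfl fun i _ => ?_
      rw [← hce2 (V i) i rfl]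
      rfl
    · ext W
      simp only [Set.mem_inter_iff, Set.mem_ofPred_eq, Function.mem_support, Finset.coe_map,
        Finset.coe_univ, Set.image_univ, Function.Embedding.coeFn_mk]
      constructor
      · rintro ⟨h1, h2⟩
        refine ⟨?_, h2⟩
        by_contra h3
        exact h2 (by rw [hW W h1 h3, Finsupp.single_zero])
      · rintro ⟨⟨i, rfl⟩, h2⟩
        exact ⟨hV i, h2⟩
  have h0 : (QuotientAddGroup.mk (∑ i, Finsupp.single (j (closedPt (P i))) (ordAt (V i) h)) :
      Chow s) = 0 := (QuotientAddGroup.eq_zero_iff _).mpr (AddSubgroup.subset_closure hD)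
  rw [← h0, ← QuotientAddGroup.mk'_apply, map_sum]
  refine Finset.sum_congr rfl fun i _ => ?_
  rw [cl, dif_pos ⟨e' i, hc0 i⟩, ← QuotientAddGroup.mk'_apply, ← map_zsmul, Finsupp.smul_single,
    smul_eq_mul, mul_one]

end Pool.Agent.MP_9207e0_ag
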