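import Pool.Agent.MP_9207e0_ag.Center

/-! Relations coming from the projective line and from a Legendre curve. -/

set_option linter.unusedSectionVars false
set_option linter.unusedVariables false

namespace Pool.Agent.MP_9207e0_ag

open Polynomial

section General

variable {F : Type} [Field F] [Algebra Qbar F] {W : ValuationSubring F}

lemma val_quot_eq_one (hW : IsPlace W) {x : F} {a b : Qbar} (ha : ¬ Sp W x a) (hb : ¬ Sp W x b) :
    W.valuation ((x - algebraMap Qbar F a) / (x - algebraMap Qbar F b)) = 1 := by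
  unfold Sp at ha hb
  rw [map_div₀]
  rcases le_or_gt (W.valuation x) 1 with hx | hx
  · have h1 : W.valuation (x - algebraMap Qbar F a) = 1 :=
      le_antisymm (W.valuation.map_sub_le hx (hW.val_le a)) (not_lt.mp ha)
    have h2 : W.valuation (x - algebraMap Qbar F b) = 1 :=
      le_antisymm (W.valuation.map_sub_le hx (hW.val_le b)) (not_lt.mp hb)
    rw [h1, h2, div_one]
  · rw [W.valuation.map_sub_eq_of_lt_left ((hW.val_le a).trans_lt hx),
      W.valuation.map_sub_eq_of_lt_left ((hW.val_le b).trans_lt hx), div_self]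
    exact (zero_lt_one.trans hx).ne'

lemma ordAt_quot_zero (hW : IsPlace W) {x : F} {a b : Qbar} (hab : a ≠ b)
    (hu : IsUnif W (x - algebraMap Qbar F a)) (hx : Sp W x a) :
    ordAt W ((x - algebraMap Qbar F a) / (x - algebraMap Qbar F b)) = 1 := by
  rw [div_eq_mul_inv]
  refine (hu.mul ?_).ordAt
  rw [map_inv₀, (hx.sub (Sp.const W b)).val_eq hW (sub_ne_zero.mpr hab), inv_one]

lemma ordAt_quot_pole (hW : IsPlace W) {x : F} {a b : Qbar} (hab : a ≠ b)
    (hu : IsUnif W (x - algebraMap Qbar F b)) (hx : Sp W x b) :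
    ordAt W ((x - algebraMap Qbar F a) / (x - algebraMap Qbar F b)) = -1 := by
  rw [← inv_div, ordAt_inv, ordAt_quot_zero hW hab.symm hu hx]

end General

section Line

lemma fac_poly (s : Qbar) : Fac (Polynomial.aeval s : Qbar[X] →ₐ[Qbar] Qbar) (X - C s) := by
  refine ⟨X_sub_C_ne_zero s, by simp, fun g hg => ?_⟩
  obtain ⟨q, hq, hd⟩ := exists_eq_pow_rootMultiplicity_mul_and_not_dvd g hg s
  refine ⟨rootMultiplicity s g, q, 1, ?_, by simp, by rw [mul_one]; exact hq⟩
  rw [dvd_iff_isRoot] at hd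
  simpa using hd

lemma isCurveField_ratFunc : IsCurveField (RatFunc Qbar) := by
  refine ⟨RatFunc.X, RatFunc.transcendental_X, ?_⟩
  rw [RatFunc.adjoin_X]
  exact Module.Finite.of_surjective (Algebra.linearMap _ _) fun z => ⟨⟨z, trivial⟩, rfl⟩

lemma sp_poly {W : ValuationSubring (RatFunc Qbar)} (hW : IsPlace W) {s : Qbar}
    (h : Sp W RatFunc.X s) (g : Qbar[X]) :
    Sp W (algebraMap Qbar[X] (RatFunc Qbar) g) (Polynomial.aeval s g) := by
  have := h.aeval hW g
  rw [RatFunc.aeval_X_left_eq_algebraMap] at this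
  simpa using this

theorem line_rel {l m : Qbar} {G : Type} [AddCommGroup G] {γ : Qbar → Qbar → Qbar → G}
    (hγ : CurveRel l m γ) :
    ∃ V : Qbar → ValuationSubring (RatFunc Qbar),
      (∀ s, IsPlace (V s) ∧ Sp (V s) RatFunc.X s) ∧
      ∀ (s s' : Qbar) (x u r : RatFunc Qbar) (a b c a' b' c' : Qbar),
        r ^ 2 = fl (algebraMap _ _ l) x * fl (algebraMap _ _ m) u →
        Sp (V s) x a → Sp (V s) u b → Sp (V s) r c → c ≠ 0 →
        Sp (V s') x a' → Sp (V s') u b' → Sp (V s') r c' → c' ≠ 0 → γ a b c = γ a' b' c' := by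
  have hex := fun s => (fac_poly s).exists_place (F := RatFunc Qbar)
  choose V hV hs using hex
  have hX : ∀ s, Sp (V s) RatFunc.X s := fun s => by
    simpa [RatFunc.algebraMap_X] using hs s X
  have hU : ∀ s, IsUnif (V s) (RatFunc.X - algebraMap Qbar _ s) := fun s => by
    have := (fac_poly s).isUnif (hV s) (hs s)
    rwa [map_sub, RatFunc.algebraMap_X, RatFunc.algebraMap_C] at this
  refine ⟨V, fun s => ⟨hV s, hX s⟩, ?_⟩
  intro s s' x u r a b c a' b' c' e h1 h2 h3 h4 h1' h2' h3' h4'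
  by_cases hss : s = s'
  · subst hss
    rw [h1.unique (hV s) h1', h2.unique (hV s) h2', h3.unique (hV s) h3']
  have hne : V s ≠ V s' := fun h => hss ((hX s).unique (hV s) (h ▸ hX s'))
  have key := hγ (RatFunc Qbar) isCurveField_ratFunc x u r
    ((RatFunc.X - algebraMap Qbar _ s) / (RatFunc.X - algebraMap Qbar _ s')) e
    (h3.ne_zero (hV s) h4) (div_ne_zero (hU s).1 (hU s').1) 2 ![V s, V s']
    (by
      intro i j hij
      fin_cases i <;> fin_cases j
      · rfl
      · exact absurd hij hne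
      · exact absurd hij.symm hne
      · rfl)
    (by
      intro i
      fin_cases i
      · exact hV s
      · exact hV s')
    (by
      intro W hW hr
      refine ordAt_of_val_eq_one (val_quot_eq_one hW ?_ ?_)
      · intro h
        exact hr ⟨0, (fac_poly s).unique (hV s) (hs s) hW (sp_poly hW h)⟩
      · intro h
        exact hr ⟨1, (fac_poly s').unique (hV s') (hs s') hW (sp_poly hW h)⟩)
    ![a, a'] ![b, b'] ![c, c']
    (by intro i; fin_cases i; exacts [h1, h1']) (by intro i; fin_cases i; exacts [h2, h2'])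
    (by intro i; fin_cases i; exacts [h3, h3']) (by intro i; fin_cases i; exacts [h4, h4'])
  simp only [Fin.sum_univ_two, Matrix.cons_val_zero, Matrix.cons_val_one] at key
  rw [ordAt_quot_zero (hV s) hss (hU s) (hX s), ordAt_quot_pole (hV s') hss (hU s') (hX s'),
    one_smul, neg_smul, one_smul, ← sub_eq_add_neg, sub_eq_zero] at key
  exact key

end Line

section Ell

open WeierstrassCurve.Affine

variable (l : Qbar)

/-- The coordinate ring of the Legendre curve. -/
abbrev ER (l : Qbar) : Type := (legendre l).CoordinateRing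

/-- The function field of the Legendre curve. -/
abbrev EF (l : Qbar) : Type := (legendre l).FunctionField

/-- The function `y`. -/
noncomputable def ey : ER l := AdjoinRoot.root _

/-- The cubic as a polynomial. -/
noncomputable def fp : Qbar[X] := X * (X - 1) * (X - C l)

lemma fp_eval (x : Qbar) : (fp l).eval x = fl l x := by simp [fp, fl]

lemma poly_eq : (legendre l).polynomial = X ^ 2 - C (fp l) := by
  have e : (X ^ 3 + C (-(1 + l)) * X ^ 2 + C l * X + C 0 : Qbar[X]) = fp l := by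
    simp only [fp, map_neg, map_add, map_one, map_zero]
    ring
  simp only [polynomial, legendre, e]
  simp

lemma ey_sq : ey l ^ 2 = algebraMap Qbar[X] (ER l) (fp l) := by
  have h : eval₂ (algebraMap Qbar[X] (ER l)) (ey l) (X ^ 2 - C (fp l)) = 0 := by
    rw [← poly_eq]
    exact AdjoinRoot.eval₂_root (legendre l).polynomial
  simp only [eval₂_sub, eval₂_pow, eval₂_X, eval₂_C] at h
  exact sub_eq_zero.mp h

lemma er_repr (g : ER l) : ∃ A B : Qbar[X],
    g = algebraMap Qbar[X] (ER l) A + algebraMap Qbar[X] (ER l) B * ey l := by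
  obtain ⟨A, B, h⟩ := CoordinateRing.exists_smul_basis_eq g
  refine ⟨A, B, ?_⟩
  rw [← h, Algebra.smul_def, Algebra.smul_def, mul_one]
  rfl

lemma er_indep {A B : Qbar[X]}
    (h : algebraMap Qbar[X] (ER l) A + algebraMap Qbar[X] (ER l) B * ey l = 0) :
    A = 0 ∧ B = 0 := by
  apply CoordinateRing.smul_basis_eq_zero (W' := legendre l)
  rw [Algebra.smul_def, Algebra.smul_def, mul_one]
  exact h

lemma er_inj : Function.Injective (algebraMap Qbar[X] (ER l)) :=
  FaithfulSMul.algebraMap_injective _ _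

/-- Evaluation at a point of the curve. -/
noncomputable def eev {a b : Qbar} (h : b ^ 2 = fl l a) : ER l →ₐ[Qbar] Qbar :=
  AdjoinRoot.liftAlgHom _ (Polynomial.aeval a) b (by
    rw [poly_eq]
    simp [h, ← fp_eval])

lemma eev_poly {a b : Qbar} (h : b ^ 2 = fl l a) (A : Qbar[X]) :
    eev l h (algebraMap Qbar[X] (ER l) A) = A.eval a := by
  have := AdjoinRoot.liftAlgHom_of (legendre l).polynomial (Polynomial.aeval a) b (by
    rw [poly_eq]
    simp [h, ← fp_eval]) A
  rw [Polynomial.coe_aeval_eq_eval] at this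
  exact this

lemma eev_ey {a b : Qbar} (h : b ^ 2 = fl l a) : eev l h (ey l) = b :=
  AdjoinRoot.liftAlgHom_root _ _ _ _

lemma norm_ne_zero' {A B : Qbar[X]}
    (h : algebraMap Qbar[X] (ER l) A + algebraMap Qbar[X] (ER l) B * ey l ≠ 0) :
    A ^ 2 - B ^ 2 * fp l ≠ 0 := by
  intro h0
  have h1 : (algebraMap Qbar[X] (ER l) A + algebraMap Qbar[X] (ER l) B * ey l) *
      (algebraMap Qbar[X] (ER l) A + algebraMap Qbar[X] (ER l) (-B) * ey l) = 0 := by
    have := congrArg (algebraMap Qbar[X] (ER l)) h0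
    rw [map_sub, map_mul, map_pow, map_pow, map_zero, ← ey_sq] at this
    rw [map_neg]
    linear_combination this
  rcases mul_eq_zero.mp h1 with h2 | h2
  · exact h h2
  · obtain ⟨rfl, h3⟩ := er_indep l h2
    rw [neg_eq_zero] at h3
    subst h3
    simp at h

lemma fac_ell {a b : Qbar} (h : b ^ 2 = fl l a) (hb : b ≠ 0) :
    Fac (eev l h) (algebraMap Qbar[X] (ER l) (X - C a)) := by
  refine ⟨fun h0 => X_sub_C_ne_zero a (er_inj l (by rw [h0, map_zero])),
    by rw [eev_poly]; simp, fun g hg => ?_⟩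
  obtain ⟨A, B, rfl⟩ := er_repr l g
  induction hn : (A ^ 2 - B ^ 2 * fp l).natDegree using Nat.strong_induction_on
    generalizing A B with
  | _ n ih =>
  have hN := norm_ne_zero' l hg
  by_cases h1 : A.eval a + B.eval a * b = 0
  · by_cases h2 : A.eval a - B.eval a * b = 0
    · have hA : A.eval a = 0 := by linear_combination (1 / 2 : Qbar) * (h1 + h2)
      have hB : B.eval a = 0 := by
        have : B.eval a * b = 0 := by linear_combination (1 / 2 : Qbar) * (h1 - h2)
        exact (mul_eq_zero.mp this).resolve_right hb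
      obtain ⟨A', rfl⟩ := dvd_iff_isRoot.mpr hA
      obtain ⟨B', rfl⟩ := dvd_iff_isRoot.mpr hB
      have e : algebraMap Qbar[X] (ER l) ((X - C a) * A') +
          algebraMap Qbar[X] (ER l) ((X - C a) * B') * ey l =
          algebraMap Qbar[X] (ER l) (X - C a) *
          (algebraMap Qbar[X] (ER l) A' + algebraMap Qbar[X] (ER l) B' * ey l) := by
        rw [map_mul, map_mul]; ring
      have hg' : algebraMap Qbar[X] (ER l) A' + algebraMap Qbar[X] (ER l) B' * ey l ≠ 0 := by
        intro h0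
        rw [e, h0, mul_zero] at hg
        exact hg rfl
      have hN' := norm_ne_zero' l hg'
      have e2 : ((X - C a) * A') ^ 2 - ((X - C a) * B') ^ 2 * fp l =
          (X - C a) ^ 2 * (A' ^ 2 - B' ^ 2 * fp l) := by ring
      have hlt : (A' ^ 2 - B' ^ 2 * fp l).natDegree < n := by
        rw [← hn, e2, natDegree_mul (pow_ne_zero 2 (X_sub_C_ne_zero a)) hN', natDegree_pow,
          natDegree_X_sub_C]
        omega
      obtain ⟨k, u, v, hu, hv, e3⟩ := ih _ hlt A' B' hg' rfl
      refine ⟨k + 1, u, v, hu, hv, ?_⟩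
      rw [e, mul_assoc, e3]; ring
    · obtain ⟨q, hq, hd⟩ := exists_eq_pow_rootMultiplicity_mul_and_not_dvd _ hN a
      refine ⟨rootMultiplicity a (A ^ 2 - B ^ 2 * fp l), algebraMap Qbar[X] (ER l) q,
        algebraMap Qbar[X] (ER l) A - algebraMap Qbar[X] (ER l) B * ey l, ?_, ?_, ?_⟩
      · rw [eev_poly]
        rwa [dvd_iff_isRoot] at hd
      · rw [map_sub, map_mul, eev_poly, eev_poly, eev_ey]
        exact h2
      · rw [← map_pow, ← map_mul, ← hq, map_sub, map_mul, map_pow, map_pow, ← ey_sq]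
        ring
  · refine ⟨0, _, 1, ?_, by simp, by rw [mul_one, pow_zero, one_mul]⟩
    rw [map_add, map_mul, eev_poly, eev_poly, eev_ey]
    exact h1

/-- The function `x` in the function field. -/
noncomputable def gx : EF l := algebraMap (ER l) (EF l) (algebraMap Qbar[X] (ER l) X)

/-- The function `y` in the function field. -/
noncomputable def gy : EF l := algebraMap (ER l) (EF l) (ey l)

lemma aeval_gx (A : Qbar[X]) :
    Polynomial.aeval (gx l) A = algebraMap (ER l) (EF l) (algebraMap Qbar[X] (ER l) A) := by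
  have : (Polynomial.aeval (gx l) : Qbar[X] →ₐ[Qbar] EF l) =
      (IsScalarTower.toAlgHom Qbar (ER l) (EF l)).comp
        (IsScalarTower.toAlgHom Qbar Qbar[X] (ER l)) := by
    ext
    simp [gx]
  rw [this]
  rfl

lemma gy_sq : gy l ^ 2 = fl (algebraMap Qbar (EF l) l) (gx l) := by
  rw [gy, ← map_pow, ey_sq, ← aeval_gx]
  simp [fp, fl]

lemma sp_ell {W : ValuationSubring (EF l)} (hW : IsPlace W) {a b : Qbar} (h : b ^ 2 = fl l a)
    (hx : Sp W (gx l) a) (hy : Sp W (gy l) b) (g : ER l) :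
    Sp W (algebraMap (ER l) (EF l) g) (eev l h g) := by
  obtain ⟨A, B, rfl⟩ := er_repr l g
  rw [map_add, map_mul, map_add, map_mul, eev_poly, eev_poly, eev_ey, ← aeval_gx, ← aeval_gx]
  exact (hx.aeval hW A).add ((hx.aeval hW B).mul hW hy)

lemma isCurveField_ell : IsCurveField (EF l) := by
  have hinj : Function.Injective (Polynomial.aeval (gx l) : Qbar[X] →ₐ[Qbar] EF l) := by
    intro A B h
    rw [aeval_gx, aeval_gx] at h
    exact er_inj l (IsFractionRing.injective (ER l) (EF l) h)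
  refine ⟨gx l, transcendental_iff_injective.mpr hinj, ?_⟩
  set L := IntermediateField.adjoin Qbar {gx l} with hL
  have hm : ∀ A : Qbar[X], Polynomial.aeval (gx l) A ∈ L := fun A =>
    IntermediateField.algebra_adjoin_le_adjoin Qbar _ (Polynomial.aeval_mem_adjoin_singleton _ _)
  refine ⟨⟨{1, gy l}, ?_⟩⟩
  rw [eq_top_iff]
  intro z _
  obtain ⟨a, b, hb, rfl⟩ := IsFractionRing.div_surjective (ER l) z
  have hb0 : b ≠ 0 := nonZeroDivisors.ne_zero hb
  obtain ⟨A, B, rfl⟩ := er_repr l b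
  have hN := norm_ne_zero' l hb0
  obtain ⟨C, D, hCD⟩ := er_repr l (a * (algebraMap Qbar[X] (ER l) A -
    algebraMap Qbar[X] (ER l) B * ey l))
  have hN1 : Polynomial.aeval (gx l) (A ^ 2 - B ^ 2 * fp l) ≠ 0 := fun h0 =>
    hN (hinj (by rw [h0, map_zero]))
  have hb1 : algebraMap (ER l) (EF l) (algebraMap Qbar[X] (ER l) A +
      algebraMap Qbar[X] (ER l) B * ey l) ≠ 0 := by
    simpa only [ne_eq, FaithfulSMul.algebraMap_eq_zero_iff] using hb0
  rw [Finset.coe_pair, Submodule.mem_span_pair]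
  refine ⟨⟨_, L.div_mem (hm C) (hm (A ^ 2 - B ^ 2 * fp l))⟩,
    ⟨_, L.div_mem (hm D) (hm (A ^ 2 - B ^ 2 * fp l))⟩, ?_⟩
  change _ / _ * (1 : EF l) + _ / _ * gy l = _
  have e1 := congrArg (algebraMap (ER l) (EF l)) hCD
  have e2 := congrArg (algebraMap (ER l) (EF l)) (ey_sq l)
  rw [eq_div_iff hb1]
  field_simp
  simp only [aeval_gx, map_add, map_sub, map_mul, map_pow, gy] at e1 e2 ⊢
  rw [← e2]
  linear_combination (-(algebraMap (ER l) (EF l) (algebraMap Qbar[X] (ER l) A) +
    algebraMap (ER l) (EF l) (algebraMap Qbar[X] (ER l) B) * algebraMap (ER l) (EF l) (ey l))) * e1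

lemma exists_ell_place {a b : Qbar} (h : b ^ 2 = fl l a) (hb : b ≠ 0) :
    ∃ V : ValuationSubring (EF l), IsPlace V ∧ Sp V (gx l) a ∧ Sp V (gy l) b ∧
      IsUnif V (gx l - algebraMap Qbar _ a) ∧
      ∀ W : ValuationSubring (EF l), IsPlace W → Sp W (gx l) a → Sp W (gy l) b → V = W := by
  obtain ⟨V, hV, hs⟩ := (fac_ell l h hb).exists_place (F := EF l)
  refine ⟨V, hV, ?_, ?_, ?_, fun W hW hx hy => ?_⟩
  · have := hs (algebraMap Qbar[X] (ER l) X)
    rwa [eev_poly, eval_X] at this
  · have := hs (ey l)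
    rwa [eev_ey] at this
  · have := (fac_ell l h hb).isUnif hV hs
    rwa [← aeval_gx, map_sub, aeval_X, aeval_C] at this
  · exact (fac_ell l h hb).unique hV hs hW (sp_ell l hW h hx hy)

lemma sp_gy_or {W : ValuationSubring (EF l)} (hW : IsPlace W) {a b : Qbar} (h : b ^ 2 = fl l a)
    (hx : Sp W (gx l) a) : Sp W (gy l) b ∨ Sp W (gy l) (-b) := by
  have h1 := Sp.fl hW (Sp.const W l) hx
  rw [← gy_sq, ← h] at h1
  unfold Sp at h1 ⊢
  have e : gy l ^ 2 - algebraMap Qbar (EF l) (b ^ 2) =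
      (gy l - algebraMap Qbar (EF l) b) * (gy l - algebraMap Qbar (EF l) (-b)) := by
    rw [map_pow, map_neg]; ring
  rw [e, map_mul] at h1
  by_contra hc
  push Not at hc
  exact absurd (one_le_mul_of_one_le_of_one_le hc.1 hc.2) (not_le.mpr h1)

/-- The relation given by the function `(x - a) / (x - a')` on the Legendre curve `E_k`. -/
theorem ell_rel {l m : Qbar} {G : Type} [AddCommGroup G] {γ : Qbar → Qbar → Qbar → G}
    (hγ : CurveRel l m γ) (k : Qbar) (x u r : EF k)
    (e : r ^ 2 = fl (algebraMap _ _ l) x * fl (algebraMap _ _ m) u)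
    (fx fu fr : Qbar → Qbar → Qbar) (good : Qbar → Qbar → Prop)
    (hsp : ∀ (W : ValuationSubring (EF k)) (a b : Qbar), IsPlace W → good a b →
      Sp W (gx k) a → Sp W (gy k) b →
      Sp W x (fx a b) ∧ Sp W u (fu a b) ∧ Sp W r (fr a b) ∧ fr a b ≠ 0)
    {a b a' b' : Qbar} (h : b ^ 2 = fl k a) (hb : b ≠ 0) (h' : b' ^ 2 = fl k a') (hb' : b' ≠ 0)
    (haa : a ≠ a') (g1 : good a b) (g2 : good a (-b)) (g3 : good a' b') (g4 : good a' (-b')) :
    γ (fx a b) (fu a b) (fr a b) + γ (fx a (-b)) (fu a (-b)) (fr a (-b)) =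
      γ (fx a' b') (fu a' b') (fr a' b') + γ (fx a' (-b')) (fu a' (-b')) (fr a' (-b')) := by
  obtain ⟨V1, p1, x1, y1, u1, q1⟩ := exists_ell_place k h hb
  obtain ⟨V2, p2, x2, y2, u2, q2⟩ :=
    exists_ell_place k (b := -b) (by rw [neg_sq, h]) (neg_ne_zero.mpr hb)
  obtain ⟨V3, p3, x3, y3, u3, q3⟩ := exists_ell_place k h' hb'
  obtain ⟨V4, p4, x4, y4, u4, q4⟩ :=
    exists_ell_place k (b := -b') (by rw [neg_sq, h']) (neg_ne_zero.mpr hb')
  obtain ⟨s1, t1, r1, n1⟩ := hsp V1 _ _ p1 g1 x1 y1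
  obtain ⟨s2, t2, r2, n2⟩ := hsp V2 _ _ p2 g2 x2 y2
  obtain ⟨s3, t3, r3, n3⟩ := hsp V3 _ _ p3 g3 x3 y3
  obtain ⟨s4, t4, r4, n4⟩ := hsp V4 _ _ p4 g4 x4 y4
  have d12 : V1 ≠ V2 := fun hh => hb (by
    have := y1.unique p1 (hh ▸ y2)
    linear_combination (1 / 2 : Qbar) * this)
  have d34 : V3 ≠ V4 := fun hh => hb' (by
    have := y3.unique p3 (hh ▸ y4)
    linear_combination (1 / 2 : Qbar) * this)
  have d13 : V1 ≠ V3 := fun hh => haa (x1.unique p1 (hh ▸ x3))
  have d14 : V1 ≠ V4 := fun hh => haa (x1.unique p1 (hh ▸ x4))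
  have d23 : V2 ≠ V3 := fun hh => haa (x2.unique p2 (hh ▸ x3))
  have d24 : V2 ≠ V4 := fun hh => haa (x2.unique p2 (hh ▸ x4))
  have key := hγ (EF k) (isCurveField_ell k) x u r
    ((gx k - algebraMap Qbar _ a) / (gx k - algebraMap Qbar _ a')) e
    (r1.ne_zero p1 n1) (div_ne_zero u1.1 u3.1) 4 ![V1, V2, V3, V4]
    (by
      intro i j hij
      fin_cases i <;> fin_cases j <;>
        simp_all [d12.symm, d13.symm, d14.symm, d23.symm, d24.symm, d34.symm])
    (by intro i; fin_cases i; exacts [p1, p2, p3, p4])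
    (by
      intro W hW hr
      refine ordAt_of_val_eq_one (val_quot_eq_one hW ?_ ?_)
      · intro hh
        rcases sp_gy_or k hW h hh with h2 | h2
        · exact hr ⟨0, q1 W hW hh h2⟩
        · exact hr ⟨1, q2 W hW hh h2⟩
      · intro hh
        rcases sp_gy_or k hW h' hh with h2 | h2
        · exact hr ⟨2, q3 W hW hh h2⟩
        · exact hr ⟨3, q4 W hW hh h2⟩)
    ![fx a b, fx a (-b), fx a' b', fx a' (-b')] ![fu a b, fu a (-b), fu a' b', fu a' (-b')]
    ![fr a b, fr a (-b), fr a' b', fr a' (-b')]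
    (by intro i; fin_cases i; exacts [s1, s2, s3, s4])
    (by intro i; fin_cases i; exacts [t1, t2, t3, t4])
    (by intro i; fin_cases i; exacts [r1, r2, r3, r4])
    (by intro i; fin_cases i; exacts [n1, n2, n3, n4])
  simp only [Fin.sum_univ_four, Matrix.cons_val_zero, Matrix.cons_val_one, Matrix.cons_val] at key
  rw [ordAt_quot_zero p1 haa u1 x1, ordAt_quot_zero p2 haa u2 x2, ordAt_quot_pole p3 haa u3 x3,
    ordAt_quot_pole p4 haa u4 x4] at key
  simp only [one_smul, neg_smul] at key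
  rw [← sub_eq_zero, ← key]
  abel

end Ell

end Pool.Agent.MP_9207e0_ag
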