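import Mathlib

/-! Zero-cycles modulo rational equivalence on a scheme over an algebraically closed field,
and the affine part of the Kummer surface of a product of two Legendre curves. -/

namespace Pool.Agent.MP_9207e0_ag

open AlgebraicGeometry CategoryTheory

variable {K : Type} [Field K]

/-- The Legendre curve `y^2 = x (x - 1) (x - l)`. -/
def legendre (l : K) : WeierstrassCurve.Affine K := ⟨0, -(1 + l), 0, l, 0⟩

/-- The ideal of the affine surface `r^2 = x(x-1)(x-l) * u(u-1)(u-m)`, `r ≠ 0`, in the
coordinates `x, u, r, 1/r`. The surface is the quotient of `(E_l - E_l[2]) × (E_m - E_m[2])`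
by `-1`, with `r` the product of the two `y`-coordinates. -/
noncomputable def kummerIdeal (l m : K) : Ideal (MvPolynomial (Fin 4) K) :=
  Ideal.span
    {MvPolynomial.X 2 ^ 2 -
        MvPolynomial.X 0 * (MvPolynomial.X 0 - 1) * (MvPolynomial.X 0 - MvPolynomial.C l) *
        (MvPolynomial.X 1 * (MvPolynomial.X 1 - 1) * (MvPolynomial.X 1 - MvPolynomial.C m)),
      MvPolynomial.X 2 * MvPolynomial.X 3 - 1}

/-- The `i`-th coordinate of a rational point of an affine variety. -/
noncomputable def coord {I : Ideal (MvPolynomial (Fin 4) K)}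
    (P : (MvPolynomial (Fin 4) K ⧸ I) →ₐ[K] K) (i : Fin 4) : K :=
  P (Ideal.Quotient.mk I (MvPolynomial.X i))

/-- The closed point of `Spec R` given by a rational point. -/
noncomputable def closedPt {R : Type} [CommRing R] [Algebra K R] (P : R →ₐ[K] K) :
    Spec (CommRingCat.of R) :=
  (⟨RingHom.ker P, RingHom.ker_isPrime P⟩ : PrimeSpectrum R)

/-- `F` is the function field of a curve over `K`. -/
def IsCurveFieldOver (K F : Type) [Field K] [Field F] [Algebra K F] : Prop :=
  ∃ u : F, Transcendental K u ∧ FiniteDimensional (IntermediateField.adjoin K {u}) F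

/-- The places of `F` over `K`, i.e. the closed points of the smooth projective curve with
function field `F`. -/
def IsPlaceOver (K : Type) [Field K] {F : Type} [Field F] [Algebra K F]
    (V : ValuationSubring F) : Prop :=
  V ≠ ⊤ ∧ ∀ c : K, algebraMap K F c ∈ V

open Classical in
/-- The order of the zero of `h` at `V` (the length of `V / h V`), and `0` if `h` has a pole. -/
noncomputable def zeroOrd {F : Type} [Field F] (V : ValuationSubring F) (h : F) : ℕ :=
  if hh : h ∈ V then (Ring.ord V ⟨h, hh⟩).toNat else 0

/-- The order of `h` at `V`. -/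
noncomputable def ordAt {F : Type} [Field F] (V : ValuationSubring F) (h : F) : ℤ :=
  (zeroOrd V h : ℤ) - (zeroOrd V h⁻¹ : ℤ)

/-- The `F`-point `ξ` of `X` extends to `Spec V`, and the closed point goes to `x`. -/
def IsCenter {F : Type} [Field F] {X : Scheme.{0}} (ξ : Spec (CommRingCat.of F) ⟶ X)
    (V : ValuationSubring F) (x : X) : Prop :=
  ∃ η : Spec (CommRingCat.of V) ⟶ X,
    Spec.map (CommRingCat.ofHom (algebraMap V F)) ≫ η = ξ ∧ η (IsLocalRing.closedPoint V) = x

/-- The cycles `f_* div h`, for `f : C → X` a morphism over `K` from a smooth projective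
curve `C` (given by its function field `F`, the generic point `ξ` of `f` and its values `c V` at
the places) and `h` a nonzero rational function on `C`. -/
def PrincipalCycle {X : Scheme.{0}} (s : X ⟶ Spec (CommRingCat.of K)) (D : X →₀ ℤ) : Prop :=
  ∃ (F : Type) (_ : Field F) (_ : Algebra K F), IsCurveFieldOver K F ∧
    ∃ (ξ : Spec (CommRingCat.of F) ⟶ X) (h : F) (c : ValuationSubring F → X),
      ξ ≫ s = Spec.map (CommRingCat.ofHom (algebraMap K F)) ∧ h ≠ 0 ∧
      (∀ V, IsPlaceOver K V → IsCenter ξ V (c V)) ∧
      D = ∑ᶠ V ∈ {V : ValuationSubring F | IsPlaceOver K V}, Finsupp.single (c V) (ordAt V h)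

/-- The points `x` and `y` of `X` are rationally equivalent as zero-cycles. -/
def RatEquiv {X : Scheme.{0}} (s : X ⟶ Spec (CommRingCat.of K)) (x y : X) : Prop :=
  Finsupp.single x (1 : ℤ) - Finsupp.single y 1 ∈ AddSubgroup.closure {D | PrincipalCycle s D}

end Pool.Agent.MP_9207e0_ag
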