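import Pool.Agent.MP_9207e0_ag.Center
import Pool.Agent.MP_9207e0_ag.Bilinear

/-! The group of points of a Legendre curve. -/

set_option linter.unusedSectionVars false
set_option linter.unusedVariables false

namespace Pool.Agent.MP_9207e0_ag

open WeierstrassCurve.Affine

section General

variable {F : Type} [Field F] {l : F}

lemma leg_eq (x y : F) : (legendre l).Equation x y ↔ y ^ 2 = fl l x := by
  rw [equation_iff]
  simp only [legendre, fl]
  constructor <;> intro h <;> linear_combination h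

lemma leg_negY (x y : F) : (legendre l).negY x y = -y := by
  simp [legendre, negY]

lemma leg_ns [CharZero F] (h0 : l ≠ 0) (h1 : l ≠ 1) {x y : F} (h : y ^ 2 = fl l x) :
    (legendre l).Nonsingular x y := by
  refine (equation_iff_nonsingular_of_Δ_ne_zero ?_).mp ((leg_eq x y).mpr h)
  have : (legendre l).Δ = 16 * l ^ 2 * (l - 1) ^ 2 := by
    simp only [legendre, WeierstrassCurve.Δ, WeierstrassCurve.b₂, WeierstrassCurve.b₄,
      WeierstrassCurve.b₆, WeierstrassCurve.b₈]
    ring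
  rw [this]
  exact mul_ne_zero (mul_ne_zero (by norm_num) (pow_ne_zero 2 h0))
    (pow_ne_zero 2 (sub_ne_zero.mpr h1))

/-- The `x`-coordinate of the sum. -/
def sX (l x1 x2 L : F) : F := L ^ 2 + (1 + l) - x1 - x2

/-- The `y`-coordinate of the sum. -/
def sY (l x1 x2 y1 L : F) : F := -(L * (sX l x1 x2 L - x1) + y1)

lemma leg_addX (x1 x2 L : F) : (legendre l).addX x1 x2 L = sX l x1 x2 L := by
  simp only [legendre, addX, sX]; ring

lemma leg_addY (x1 x2 y1 L : F) : (legendre l).addY x1 x2 y1 L = sY l x1 x2 y1 L := by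
  rw [addY, leg_negY, negAddY, leg_addX, sY]

lemma chord_eq {x1 x2 y1 y2 : F} (h1 : y1 ^ 2 = fl l x1) (h2 : y2 ^ 2 = fl l x2) (hx : x1 ≠ x2) :
    sY l x1 x2 y1 ((y1 - y2) / (x1 - x2)) ^ 2 = fl l (sX l x1 x2 ((y1 - y2) / (x1 - x2))) := by
  classical
  have := equation_add ((leg_eq x1 y1).mpr h1) ((leg_eq x2 y2).mpr h2) fun h => hx h.1
  rwa [slope_of_X_ne hx, leg_addX, leg_addY, leg_eq] at this

variable [DecidableEq F]

lemma some_congr {x y x' y' : F} (h : (legendre l).Nonsingular x y) (hx : x = x') (hy : y = y') :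
    ∃ h', Point.some x y h = Point.some x' y' h' := by
  subst hx hy
  exact ⟨h, rfl⟩

lemma leg_neg {x y : F} (h : (legendre l).Nonsingular x y) :
    ∃ h', -Point.some x y h = Point.some x (-y) h' := by
  rw [Point.neg_some]
  exact some_congr _ rfl (leg_negY x y)

lemma add_X_ne {x1 x2 y1 y2 : F} (h1 : (legendre l).Nonsingular x1 y1)
    (h2 : (legendre l).Nonsingular x2 y2) (hx : x1 ≠ x2) :
    ∃ h, Point.some x1 y1 h1 + Point.some x2 y2 h2 =
      Point.some (sX l x1 x2 ((y1 - y2) / (x1 - x2))) (sY l x1 x2 y1 ((y1 - y2) / (x1 - x2))) h := by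
  rw [Point.add_of_X_ne hx]
  refine some_congr _ ?_ ?_
  · rw [slope_of_X_ne hx, leg_addX]
  · rw [slope_of_X_ne hx, leg_addY]

lemma add_self_ne [CharZero F] {x y : F} (h : (legendre l).Nonsingular x y) (hy : y ≠ 0) :
    ∃ h', Point.some x y h + Point.some x y h =
      Point.some (sX l x x ((3 * x ^ 2 - 2 * (1 + l) * x + l) / (2 * y)))
        (sY l x x y ((3 * x ^ 2 - 2 * (1 + l) * x + l) / (2 * y))) h' := by
  have hy' : y ≠ (legendre l).negY x y := by
    rw [leg_negY]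
    intro h0
    exact hy (by linear_combination (1 / 2 : F) * h0)
  have hs : (legendre l).slope x x y y = (3 * x ^ 2 - 2 * (1 + l) * x + l) / (2 * y) := by
    rw [slope_of_Y_ne rfl hy', leg_negY]
    simp only [legendre]
    congr 1 <;> ring
  rw [Point.add_self_of_Y_ne hy']
  refine some_congr _ ?_ ?_
  · rw [hs, leg_addX]
  · rw [hs, leg_addY]

lemma two_smul_some [CharZero F] {x y : F} (h : (legendre l).Nonsingular x y) :
    2 • Point.some x y h = 0 ↔ y = 0 := by
  rw [two_nsmul]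
  constructor
  · intro h0
    by_contra hy
    obtain ⟨h', e⟩ := add_self_ne h hy
    rw [e] at h0
    exact Point.some_ne_zero _ h0
  · intro hy
    exact Point.add_self_of_Y_eq (by rw [leg_negY, hy, neg_zero])

/-- The chord and tangent construction with the relations between roots and coefficients. -/
lemma add_vieta [CharZero F] {x1 x2 y1 y2 : F} (h1 : (legendre l).Nonsingular x1 y1)
    (h2 : (legendre l).Nonsingular x2 y2) (hxy : ¬(x1 = x2 ∧ y1 = -y2)) :
    ∃ (L m x3 : F) (h3 : (legendre l).Nonsingular x3 (-(L * x3 + m))),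
      Point.some x1 y1 h1 + Point.some x2 y2 h2 = Point.some x3 (-(L * x3 + m)) h3 ∧
      y1 = L * x1 + m ∧ y2 = L * x2 + m ∧ x1 + x2 + x3 = L ^ 2 + (1 + l) ∧
      x1 * x2 + x1 * x3 + x2 * x3 = l - 2 * L * m ∧ x1 * x2 * x3 = m ^ 2 := by
  have e1 := (leg_eq _ _).mp h1.1
  have e2 := (leg_eq _ _).mp h2.1
  unfold fl at e1 e2
  by_cases hx : x1 = x2
  · subst hx
    have hy : y1 = y2 := by
      have : (y1 - y2) * (y1 + y2) = 0 := by linear_combination e1 - e2
      rcases mul_eq_zero.mp this with h | h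
      · exact sub_eq_zero.mp h
      · exact absurd ⟨rfl, eq_neg_of_add_eq_zero_left h⟩ hxy
    subst hy
    have hy0 : y1 ≠ 0 := by
      rintro rfl
      exact hxy ⟨rfl, neg_zero.symm⟩
    obtain ⟨h', e⟩ := add_self_ne h1 hy0
    set L := (3 * x1 ^ 2 - 2 * (1 + l) * x1 + l) / (2 * y1) with hL
    have hL' : 2 * y1 * L = 3 * x1 ^ 2 - 2 * (1 + l) * x1 + l := by
      rw [hL]; field_simp
    obtain ⟨h'', e'⟩ := some_congr h' (x' := sX l x1 x1 L)
      (y' := -(L * sX l x1 x1 L + (y1 - L * x1))) rfl (by rw [sY]; ring)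
    refine ⟨L, y1 - L * x1, sX l x1 x1 L, h'', e.trans e', by ring, by ring, ?_, ?_, ?_⟩
    · rw [sX]; ring
    · rw [sX]; linear_combination hL'
    · rw [sX]; linear_combination x1 * hL' - e1
  · obtain ⟨h', e⟩ := add_X_ne h1 h2 hx
    set L := (y1 - y2) / (x1 - x2) with hL
    have hx' := sub_ne_zero.mpr hx
    have hL' : y2 = y1 - L * (x1 - x2) := by
      rw [hL]; field_simp; ring
    obtain ⟨h'', e'⟩ := some_congr h' (x' := sX l x1 x2 L)
      (y' := -(L * sX l x1 x2 L + (y1 - L * x1))) rfl (by rw [sY]; ring)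
    have k1 : x1 * x2 + x1 * sX l x1 x2 L + x2 * sX l x1 x2 L = l - 2 * L * (y1 - L * x1) := by
      apply mul_left_cancel₀ hx'
      rw [sX]
      rw [hL'] at e2
      linear_combination e1 - e2
    refine ⟨L, y1 - L * x1, sX l x1 x2 L, h'', e.trans e', by ring, by rw [hL']; ring, ?_, k1,
      ?_⟩
    · rw [sX]; ring
    · rw [sX] at k1 ⊢
      linear_combination x1 * k1 - e1

/-- A field endomorphism fixing `l` acts on the points. -/
noncomputable def act (σ : F →+* F) (hσ : σ l = l) : (legendre l).Point →+ (legendre l).Point where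
  toFun P := match P with
    | 0 => 0
    | .some x y h => .some (σ x) (σ y) (by
        have hW : (legendre l).map σ = legendre l := by
          simp [legendre, WeierstrassCurve.map, hσ]
        rw [← hW]
        exact (map_nonsingular _ σ.injective x y).mpr h)
  map_zero' := rfl
  map_add' := by
    have hW : (legendre l).map σ = legendre l := by
      simp [legendre, WeierstrassCurve.map, hσ]
    rintro (_ | ⟨x₁, y₁, h₁⟩) (_ | ⟨x₂, y₂, h₂⟩)
    any_goals rfl
    by_cases hxy : x₁ = x₂ ∧ y₁ = (legendre l).negY x₂ y₂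
    · rw [Point.add_of_Y_eq hxy.left hxy.right,
        Point.add_of_Y_eq (congr_arg _ hxy.left) <| by
          rw [hxy.right, leg_negY, leg_negY, map_neg]]
    · have hxy' : ¬(σ x₁ = σ x₂ ∧ σ y₁ = (legendre l).negY (σ x₂) (σ y₂)) := by
        rintro ⟨k1, k2⟩
        refine hxy ⟨σ.injective k1, σ.injective ?_⟩
        rw [k2, leg_negY, leg_negY, map_neg]
      have s := map_slope (W := legendre l) σ x₁ x₂ y₁ y₂
      have t := map_addX (W' := legendre l) σ x₁ x₂ ((legendre l).slope x₁ x₂ y₁ y₂)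
      have u := map_addY (W' := legendre l) σ x₁ y₁ x₂ ((legendre l).slope x₁ x₂ y₁ y₂)
      rw [hW] at s t u
      simp only [Point.add_some hxy, Point.add_some hxy', s, t, u]

lemma act_some (σ : F →+* F) (hσ : σ l = l) {x y : F} (h : (legendre l).Nonsingular x y) :
    ∃ h', act σ hσ (Point.some x y h) = Point.some (σ x) (σ y) h' := ⟨_, rfl⟩

end General

lemma fl_eq_zero {F : Type} [Field F] {l x : F} : fl l x = 0 ↔ x = 0 ∨ x = 1 ∨ x = l := by
  simp [fl, sub_eq_zero, or_assoc]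

lemma exists_sq (z : Qbar) : ∃ w : Qbar, w ^ 2 = z := IsAlgClosed.exists_pow_nat_eq z two_pos

section Alg

variable [DecidableEq Qbar] {l : Qbar}

lemma half_id (r1 r2 r3 p q : Qbar) (hp : p = r1 ^ 2 - r2 ^ 2) (hq : q = r1 ^ 2 - r3 ^ 2)
    (x y : Qbar) (hx : x = r1 ^ 2 + r1 * r2 + r1 * r3 + r2 * r3)
    (hy : y = (r1 + r2) * (r1 + r3) * (r2 + r3)) :
    y ^ 2 = x * (x - p) * (x - q) ∧
    3 * x ^ 2 - 2 * (p + q) * x + p * q = (r1 + r2 + r3) * (2 * y) ∧
    (r1 + r2 + r3) ^ 2 + (p + q) - x - x = r1 ^ 2 ∧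
    -((r1 + r2 + r3) * (r1 ^ 2 - x) + y) = r1 * r2 * r3 := by
  subst hp hq hx hy
  refine ⟨by ring, by ring, by ring, by ring⟩

lemma leg_div2 (h0 : l ≠ 0) (h1 : l ≠ 1) (P : (legendre l).Point) :
    ∃ Q : (legendre l).Point, 2 • Q = P := by
  rcases P with _ | ⟨x0, y0, h⟩
  · exact ⟨0, nsmul_zero 2⟩
  have e := (leg_eq _ _).mp h.1
  obtain ⟨r1, e1⟩ := exists_sq x0
  obtain ⟨r2, e2⟩ := exists_sq (x0 - 1)
  have : ∃ r3 : Qbar, r3 ^ 2 = x0 - l ∧ r1 * r2 * r3 = y0 := by
    obtain ⟨r3, e3⟩ := exists_sq (x0 - l)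
    have : (r1 * r2 * r3 - y0) * (r1 * r2 * (-r3) - y0) = 0 := by
      unfold fl at e
      rw [← e3, ← e2, ← e1] at e
      linear_combination e
    rcases mul_eq_zero.mp this with h | h
    · exact ⟨r3, e3, sub_eq_zero.mp h⟩
    · exact ⟨-r3, by rw [neg_sq, e3], sub_eq_zero.mp h⟩
  obtain ⟨r3, e3, e4⟩ := this
  obtain ⟨k1, k2, k3, k4⟩ := half_id r1 r2 r3 1 l (by rw [e1, e2]; ring) (by rw [e1, e3]; ring)
    _ _ rfl rfl
  set x := r1 ^ 2 + r1 * r2 + r1 * r3 + r2 * r3
  set y := (r1 + r2) * (r1 + r3) * (r2 + r3) with hy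
  have hy0 : y ≠ 0 := by
    rw [hy]
    refine mul_ne_zero (mul_ne_zero ?_ ?_) ?_
    · intro h
      have : (1 : Qbar) = 0 := by linear_combination (r1 - r2) * h - e1 + e2
      exact one_ne_zero this
    · intro h
      exact h0 (by linear_combination (r1 - r3) * h - e1 + e3)
    · intro h
      exact h1 (by linear_combination (r2 - r3) * h - e2 + e3)
  have hn : (legendre l).Nonsingular x y := leg_ns h0 h1 k1
  obtain ⟨h', e'⟩ := add_self_ne hn hy0
  have hL : (3 * x ^ 2 - 2 * (1 + l) * x + l) / (2 * y) = r1 + r2 + r3 := by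
    rw [div_eq_iff (mul_ne_zero two_ne_zero hy0), ← k2]; ring
  have hX : sX l x x (r1 + r2 + r3) = x0 := by rw [sX, k3, e1]
  refine ⟨Point.some x y hn, ?_⟩
  rw [two_nsmul, e']
  obtain ⟨h'', e''⟩ := some_congr h' (x' := x0) (y' := y0) (by rw [hL, hX])
    (by rw [hL, sY, hX, ← e4, ← k4, e1])
  exact e''

lemma fin_of_x {S : Set Qbar} (hS : S.Finite) :
    {P : (legendre l).Point | ∀ x y h, P = Point.some x y h → x ∈ S}.Finite := by
  have hx : ∀ x : Qbar, {P : (legendre l).Point | ∃ y h, P = Point.some x y h}.Finite := by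
    intro x
    by_cases he : ∃ y, (legendre l).Nonsingular x y
    · obtain ⟨y0, h0⟩ := he
      refine (Set.toFinite {Point.some x y0 h0, -Point.some x y0 h0}).subset ?_
      rintro _ ⟨y, h, rfl⟩
      exact Point.X_eq_iff.mp rfl
    · refine Set.finite_empty.subset ?_
      rintro _ ⟨y, h, rfl⟩
      exact he ⟨y, h⟩
  refine ((hS.biUnion fun x _ => hx x).insert 0).subset ?_
  rintro (_ | ⟨x, y, h⟩) hP
  · exact Or.inl rfl
  · exact Or.inr (Set.mem_biUnion (hP x y h rfl) ⟨y, h, rfl⟩)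

lemma leg_tors (h0 : l ≠ 0) (h1 : l ≠ 1) :
    ∃ τ : ℕ → (legendre l).Point, Function.Injective τ ∧ τ 0 ≠ 0 ∧ 2 • τ 0 = 0 ∧
      ∀ k, 2 ^ (k + 1) • τ k = 0 := by
  choose hf hhf using leg_div2 h0 h1
  have hn : (legendre l).Nonsingular 0 0 := leg_ns h0 h1 (by simp [fl])
  let τ : ℕ → (legendre l).Point := fun k => hf^[k] (Point.some 0 0 hn)
  have hs : ∀ k, 2 • τ (k + 1) = τ k := fun k => by
    simp only [τ, Function.iterate_succ_apply', hhf]
  have h2 : ∀ k, 2 ^ k • τ k = τ 0 := by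
    intro k
    induction k with
    | zero => simp
    | succ k ih => rw [pow_succ, mul_nsmul', hs, ih]
  have h3 : τ 0 ≠ 0 := Point.some_ne_zero hn
  have h4 : 2 • τ 0 = 0 := (two_smul_some hn).mpr rfl
  have h5 : ∀ k, 2 ^ (k + 1) • τ k = 0 := fun k => by
    rw [pow_succ', mul_nsmul', h2, h4]
  refine ⟨τ, ?_, h3, h4, h5⟩
  have key : ∀ i j, i < j → τ i ≠ τ j := by
    intro i j hij he
    obtain ⟨d, rfl⟩ := Nat.exists_eq_add_of_lt hij
    apply h3
    rw [← h2 (i + d + 1), ← he, show i + d + 1 = d + (i + 1) by ring, pow_add, mul_nsmul', h5,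
      nsmul_zero]
  intro i j he
  rcases lt_trichotomy i j with h | h | h
  · exact absurd he (key i j h)
  · exact h
  · exact absurd he.symm (key j i h)

lemma leg_nice (h0 : l ≠ 0) (h1 : l ≠ 1) : Nice (legendre l).Point := by
  obtain ⟨τ, t1, t2, t3, t4⟩ := leg_tors h0 h1
  refine ⟨leg_div2 h0 h1, ?_, Infinite.of_injective τ t1, τ 0, t2, t3⟩
  refine (fin_of_x (l := l) (Set.toFinite {0, 1, l})).subset ?_
  rintro _ hP x y h rfl
  have hy := (two_smul_some h).mp hP
  have e := (leg_eq _ _).mp h.1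
  rw [hy, zero_pow two_ne_zero, eq_comm, fl_eq_zero] at e
  exact e

lemma exists_tors (h0 : l ≠ 0) (h1 : l ≠ 1) {S : Set Qbar} (hS : S.Finite) :
    ∃ (x y : Qbar) (h : (legendre l).Nonsingular x y) (k : ℕ), x ∉ S ∧
      2 ^ k • Point.some x y h = 0 := by
  obtain ⟨τ, t1, -, -, t4⟩ := leg_tors h0 h1
  obtain ⟨k, hk⟩ := ((fin_of_x (l := l) hS).preimage t1.injOn).exists_notMem
  simp only [Set.mem_preimage, Set.mem_ofPred_eq, not_forall] at hk
  obtain ⟨x, y, h, e, hx⟩ := hk
  exact ⟨x, y, h, k + 1, hx, e ▸ t4 k⟩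

end Alg

end Pool.Agent.MP_9207e0_ag
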