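import Pool.Agent.MP_9207e0_ag.Absval
import Pool.Agent.MP_9207e0_ag.Points

/-! Points that are `p`-adically close to the origin. -/

set_option linter.unusedSectionVars false
set_option linter.unusedVariables false

namespace Pool.Agent.MP_9207e0_ag

open WeierstrassCurve.Affine

variable {v : AbsoluteValue Qbar ℝ} {l : Qbar}

lemma big_y (na : IsNonarchimedean v) (hl : v l ≤ 1) {x y : Qbar} (e : y ^ 2 = fl l x)
    (hx : 1 < v x) : v y ^ 2 = v x ^ 3 := by
  rw [← v.map_pow, e, fl, v.map_mul, v.map_mul, na_sub_eq na (by simpa using hx),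
    na_sub_eq na (hl.trans_lt hx)]
  ring

lemma add_core (na : IsNonarchimedean v) (hl : v l ≤ 1) {L m x1 x2 x3 : Qbar}
    (e1 : (L * x1 + m) ^ 2 = fl l x1) (e2 : (L * x2 + m) ^ 2 = fl l x2)
    (s1 : x1 + x2 + x3 = L ^ 2 + (1 + l)) (s2 : x1 * x2 + x1 * x3 + x2 * x3 = l - 2 * L * m)
    (s3 : x1 * x2 * x3 = m ^ 2) (h2 : 1 < v x2) (h12 : v x2 ≤ v x1) :
    1 < v x3 ∧ v (x1 / (L * x1 + m) + x2 / (L * x2 + m) + x3 / (L * x3 + m)) ≤
      v (x2 / (L * x2 + m)) ^ 3 := by
  have h1 : 1 < v x1 := h2.trans_le h12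
  have Y1 := big_y na hl e1 h1
  have Y2 := big_y na hl e2 h2
  have S3 : v x1 * v x2 * v x3 = v m ^ 2 := by rw [← v.map_mul, ← v.map_mul, s3, v.map_pow]
  have v2 : v 2 ≤ 1 := by simpa using na_nat na 2
  have pL := v.nonneg L
  have pm := v.nonneg m
  have p3 := v.nonneg x3
  have step1 : v L * v x2 ≤ v m := by
    by_contra hc
    have c2 : v m < v (L * x2) := by rw [v.map_mul]; exact not_le.mp hc
    have c1 : v m < v (L * x1) := by
      rw [v.map_mul] at c2 ⊢
      exact c2.trans_le (by gcongr)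
    rw [na_add_eq na c1, v.map_mul] at Y1
    rw [na_add_eq na c2, v.map_mul] at Y2
    rw [v.map_mul] at c2
    have A1 : v L ^ 2 = v x1 := by
      apply mul_right_cancel₀ (pow_ne_zero 2 (zero_lt_one.trans h1).ne')
      linear_combination Y1
    have A2 : v L ^ 2 = v x2 := by
      apply mul_right_cancel₀ (pow_ne_zero 2 (zero_lt_one.trans h2).ne')
      linear_combination Y2
    have X12 : v x1 = v x2 := A1.symm.trans A2
    have M2 : v m ^ 2 < v x2 ^ 3 := by
      rw [← Y2]
      exact pow_lt_pow_left₀ c2 pm two_ne_zero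
    have X3 : v x3 < v x2 := by
      rw [← S3, X12] at M2
      have : v x2 ^ 2 * v x3 < v x2 ^ 2 * v x2 := by linarith
      exact lt_of_mul_lt_mul_left this (by positivity)
    have pL' : 0 < v L := by
      rcases pL.eq_or_lt with h | h
      · rw [← h] at A2; linarith
      · exact h
    have k : x1 * x2 = l - 2 * L * m - x3 * (x1 + x2) := by linear_combination s2
    have k2 : v (x1 * x2) < v x2 ^ 2 := by
      rw [k]
      refine na_sub_lt na (na_sub_lt na (by nlinarith) ?_) ?_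
      · rw [v.map_mul, v.map_mul]
        calc v 2 * v L * v m ≤ 1 * v L * v m := by gcongr
          _ < 1 * v L * (v L * v x2) := by gcongr
          _ = v x2 ^ 2 := by rw [← A2]; ring
      · rw [v.map_mul]
        calc v x3 * v (x1 + x2) ≤ v x3 * v x2 := by
              gcongr
              exact na_add_le na X12.le le_rfl
          _ < v x2 * v x2 := by gcongr
          _ = v x2 ^ 2 := by ring
    rw [v.map_mul, X12] at k2
    linarith
  have M1 : v (L * x2 + m) ≤ v m := na_add_le na (by rwa [v.map_mul]) le_rfl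
  have py2 : 0 < v (L * x2 + m) := by
    rcases (v.nonneg (L * x2 + m)).eq_or_lt with h | h
    · rw [← h] at Y2
      have : 0 < v x2 ^ 3 := by positivity
      linarith
    · exact h
  have py1 : 0 < v (L * x1 + m) := by
    rcases (v.nonneg (L * x1 + m)).eq_or_lt with h | h
    · rw [← h] at Y1
      have : 0 < v x1 ^ 3 := by positivity
      linarith
    · exact h
  have pm' : 0 < v m := py2.trans_le M1
  have M2 : v (L * x1 + m) * v x2 ≤ v m * v x1 := by
    rw [← v.map_mul, add_mul]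
    refine na_add_le na ?_ ?_
    · rw [v.map_mul, v.map_mul]
      calc v L * v x1 * v x2 = (v L * v x2) * v x1 := by ring
        _ ≤ v m * v x1 := by gcongr
    · rw [v.map_mul]; gcongr
  have X3 : v x2 ≤ v x3 := by
    have t := pow_le_pow_left₀ (by positivity) M2 2
    rw [mul_pow, mul_pow, Y1, ← S3] at t
    have : v x1 ^ 3 * v x2 * v x2 ≤ v x1 ^ 3 * v x2 * v x3 := by linarith
    exact le_of_mul_le_mul_left this (by positivity)
  refine ⟨h2.trans_le X3, ?_⟩
  have AM : v L < v m := by nlinarith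
  have vl1 : v (1 + l) ≤ 1 := na_add_le na (by simp) hl
  have hD : v (m ^ 2 + (l * L ^ 2 + (1 + l) * L * m)) = v m ^ 2 := by
    rw [na_add_eq na, v.map_pow]
    rw [v.map_pow]
    refine na_add_lt na ?_ ?_
    · rw [v.map_mul, v.map_pow]
      calc v l * v L ^ 2 ≤ 1 * v L ^ 2 := by gcongr
        _ < v m ^ 2 := by rw [one_mul]; gcongr
    · rw [v.map_mul, v.map_mul]
      calc v (1 + l) * v L * v m ≤ 1 * v L * v m := by gcongr
        _ < 1 * v m * v m := by gcongr
        _ = v m ^ 2 := by ring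
  have hD0 : m ^ 2 + (l * L ^ 2 + (1 + l) * L * m) ≠ 0 := by
    intro h
    rw [h, v.map_zero] at hD
    exact (pow_pos pm' 2).ne hD
  have hm0 : m ≠ 0 := v.pos_iff.mp pm'
  have prod : (L * x1 + m) * (L * x2 + m) * (L * x3 + m) =
      m * (m ^ 2 + (l * L ^ 2 + (1 + l) * L * m)) := by
    linear_combination L ^ 3 * s3 + L ^ 2 * m * s2 + L * m ^ 2 * s1
  have n1 : L * x1 + m ≠ 0 := v.pos_iff.mp py1
  have n2 : L * x2 + m ≠ 0 := v.pos_iff.mp py2
  have n3 : L * x3 + m ≠ 0 := by
    intro h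
    rw [h, mul_zero] at prod
    exact mul_ne_zero hm0 hD0 prod.symm
  have sum : x1 / (L * x1 + m) + x2 / (L * x2 + m) + x3 / (L * x3 + m) =
      (2 * l * L + (1 + l) * m) / (m ^ 2 + (l * L ^ 2 + (1 + l) * L * m)) := by
    rw [div_add_div _ _ n1 n2, div_add_div _ _ (mul_ne_zero n1 n2) n3, prod,
      ← mul_div_mul_left (2 * l * L + (1 + l) * m) _ hm0]
    congr 1
    linear_combination 3 * L ^ 2 * s3 + 2 * L * m * s2 + m ^ 2 * s1
  have num : v (2 * l * L + (1 + l) * m) ≤ v m := by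
    refine na_add_le na ?_ ?_
    · rw [v.map_mul, v.map_mul]
      calc v 2 * v l * v L ≤ 1 * 1 * v m := by gcongr
        _ = v m := by ring
    · rw [v.map_mul]
      calc v (1 + l) * v m ≤ 1 * v m := by gcongr
        _ = v m := by ring
  rw [sum, map_div₀, map_div₀, hD, div_pow, ← Y2, div_le_div_iff₀ (by positivity) (by positivity)]
  calc v (2 * l * L + (1 + l) * m) * v (L * x2 + m) ^ 3
      = v (L * x2 + m) ^ 2 * (v (2 * l * L + (1 + l) * m) * v (L * x2 + m)) := by ring
    _ ≤ v (L * x2 + m) ^ 2 * (v m * v m) := by gcongr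
    _ = v (L * x2 + m) ^ 2 * v m ^ 2 := by ring

/-- The local parameter `x / y` at the origin. -/
noncomputable def zc : (legendre l).Point → Qbar
  | .zero => 0
  | .some x y _ => x / y

/-- The point reduces to the origin. -/
def Big (v : AbsoluteValue Qbar ℝ) (P : (legendre l).Point) : Prop :=
  ∀ x y h, P = Point.some x y h → 1 < v x

lemma zc_some {x y : Qbar} (h : (legendre l).Nonsingular x y) : zc (Point.some x y h) = x / y := rfl

lemma zc_zero : zc (0 : (legendre l).Point) = 0 := rfl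

lemma big_some {x y : Qbar} (h : (legendre l).Nonsingular x y) :
    Big v (Point.some x y h) ↔ 1 < v x := by
  constructor
  · exact fun hb => hb x y h rfl
  · intro hx x' y' h' e
    obtain ⟨rfl, -⟩ := Point.some.inj e
    exact hx

lemma big_zero : Big v (0 : (legendre l).Point) := fun _ _ h e =>
  absurd e.symm (Point.some_ne_zero h)

lemma big_z (na : IsNonarchimedean v) (hl : v l ≤ 1) {x y : Qbar} (e : y ^ 2 = fl l x)
    (hx : 1 < v x) : v (x / y) ^ 2 * v x = 1 := by
  rw [map_div₀, div_pow, big_y na hl e hx]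
  have : v x ≠ 0 := (zero_lt_one.trans hx).ne'
  field_simp

lemma Big.lt_one (na : IsNonarchimedean v) (hl : v l ≤ 1) {P : (legendre l).Point} (hP : Big v P) :
    v (zc P) < 1 := by
  rcases P with _ | ⟨x, y, h⟩
  · simp [zc]
  · have hx := (big_some h).mp hP
    have := big_z na hl ((leg_eq _ _).mp h.1) hx
    rw [zc_some]
    by_contra hc
    have h1 : 1 ≤ v (x / y) ^ 2 := one_le_pow₀ (not_lt.mp hc)
    nlinarith

variable [DecidableEq Qbar]

lemma Big.neg {P : (legendre l).Point} (hP : Big v P) : Big v (-P) ∧ zc (-P) = -zc P := by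
  rcases P with _ | ⟨x, y, h⟩
  · exact ⟨big_zero, neg_zero.symm⟩
  · obtain ⟨h', e⟩ := leg_neg h
    rw [e, big_some, zc_some, zc_some, div_neg]
    exact ⟨(big_some h).mp hP, rfl⟩

lemma Big.add (na : IsNonarchimedean v) (hl : v l ≤ 1) {P Q : (legendre l).Point} (hP : Big v P)
    (hQ : Big v Q) {ρ : ℝ} (h1 : v (zc P) ≤ ρ) (h2 : v (zc Q) ≤ ρ) :
    Big v (P + Q) ∧ v (zc (P + Q) - (zc P + zc Q)) ≤ ρ ^ 3 := by
  have hρ : 0 ≤ ρ := (v.nonneg _).trans h1
  rcases P with _ | ⟨x1, y1, k1⟩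
  · rw [← Point.zero_def, zero_add, zc_zero, zero_add, sub_self, v.map_zero]
    exact ⟨hQ, by positivity⟩
  rcases Q with _ | ⟨x2, y2, k2⟩
  · rw [← Point.zero_def, add_zero, zc_zero, add_zero, sub_self, v.map_zero]
    exact ⟨hP, by positivity⟩
  by_cases hxy : x1 = x2 ∧ y1 = -y2
  · rw [Point.add_of_Y_eq hxy.1 (by rw [leg_negY, hxy.2]), zc_zero, zc_some, zc_some, hxy.1, hxy.2,
      div_neg, neg_add_cancel, sub_self, v.map_zero]
    exact ⟨big_zero, by positivity⟩
  obtain ⟨L, m, x3, k3, e, rfl, rfl, s1, s2, s3⟩ := add_vieta k1 k2 hxy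
  rw [big_some] at hP hQ
  rw [zc_some] at h1 h2
  rw [e, big_some, zc_some, zc_some, zc_some, div_neg, ← neg_add', v.map_neg, add_comm]
  have e1 := (leg_eq _ _).mp k1.1
  have e2 := (leg_eq _ _).mp k2.1
  rcases le_total (v x2) (v x1) with h | h
  · obtain ⟨a1, a2⟩ := add_core na hl e1 e2 s1 s2 s3 hQ h
    exact ⟨a1, a2.trans (by gcongr)⟩
  · obtain ⟨a1, a2⟩ := add_core (x3 := x3) na hl e2 e1 (by linear_combination s1)
      (by linear_combination s2) (by linear_combination s3) hP h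
    rw [add_comm (x2 / _)] at a2
    exact ⟨a1, a2.trans (by gcongr)⟩

lemma Big.nsmul (na : IsNonarchimedean v) (hl : v l ≤ 1) {P : (legendre l).Point} (hP : Big v P)
    (k : ℕ) : Big v (k • P) ∧ v (zc (k • P) - k * zc P) ≤ v (zc P) ^ 3 := by
  have h1 := hP.lt_one na hl
  have h0 := v.nonneg (zc P)
  induction k with
  | zero =>
    rw [zero_nsmul, zc_zero]
    exact ⟨big_zero, by simp⟩
  | succ k ih =>
    have h2 : v (zc (k • P)) ≤ v (zc P) := by
      have : zc (k • P) = (zc (k • P) - k * zc P) + k * zc P := by ring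
      rw [this]
      refine na_add_le na (ih.2.trans (pow_le_of_le_one h0 h1.le (by norm_num))) ?_
      rw [v.map_mul]
      exact mul_le_of_le_one_left h0 (na_nat na k)
    obtain ⟨a1, a2⟩ := ih.1.add na hl hP h2 le_rfl
    rw [succ_nsmul]
    refine ⟨a1, ?_⟩
    have : zc (k • P + P) - ((k + 1 : ℕ) : Qbar) * zc P =
        (zc (k • P + P) - (zc (k • P) + zc P)) + (zc (k • P) - k * zc P) := by
      push_cast; ring
    rw [this]
    exact na_add_le na a2 ih.2

lemma Big.val_nsmul (na : IsNonarchimedean v) (hl : v l ≤ 1) {P : (legendre l).Point}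
    (hP : Big v P) (h0 : zc P ≠ 0) (k : ℕ) (hk : v (zc P) ^ 2 < v k) :
    v (zc (k • P)) = v k * v (zc P) := by
  have : zc (k • P) = k * zc P + (zc (k • P) - k * zc P) := by ring
  rw [this, na_add_eq na, v.map_mul]
  refine (hP.nsmul na hl k).2.trans_lt ?_
  rw [v.map_mul, pow_succ]
  exact mul_lt_mul_of_pos_right hk (v.pos h0)

lemma Big.nsmul_ne_zero {p : ℕ} (hp : p.Prime) (hv : PAbs p v) (hl : v l ≤ 1) (k : ℕ)
    (hk : k ≠ 0) {P : (legendre l).Point} (hP : Big v P) (h0 : zc P ≠ 0)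
    (h1 : v (zc P) ^ 2 < v p) : k • P ≠ 0 := by
  induction k using Nat.strong_induction_on generalizing P with
  | _ k ih =>
  have pz := v.pos h0
  by_cases hd : p ∣ k
  · obtain ⟨j, rfl⟩ := hd
    have hj : j ≠ 0 := right_ne_zero_of_mul hk
    have e := hP.val_nsmul hv.na hl h0 p h1
    have pp : 0 < v p := lt_of_le_of_lt (sq_nonneg _) h1
    rw [mul_nsmul]
    refine ih j (lt_mul_left (Nat.pos_of_ne_zero hj) hp.one_lt) hj (hP.nsmul hv.na hl p).1 ?_ ?_
    · rw [← v.pos_iff, e]; positivity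
    · refine lt_of_le_of_lt ?_ h1
      rw [e]
      gcongr
      exact mul_le_of_le_one_left pz.le hv.lt.le
  · have e := hP.val_nsmul hv.na hl h0 k (by rw [hv.cop k hd]; exact h1.trans hv.lt)
    intro hz
    rw [hz, zc_zero, v.map_zero, hv.cop k hd, one_mul] at e
    exact pz.ne e

lemma sub_not_torsion {p : ℕ} (hp : p.Prime) (hv : PAbs p v) (hl : v l ≤ 1)
    {P Q : (legendre l).Point} (hP : Big v P) (hQ : Big v Q) {t A B c : Qbar}
    (ht : 1 < v t * v p) (hA : v A = 1) (hB : v B = 1) (hAB : v (A - B) = 1) (hc : v c = 1)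
    (h1 : v (zc P ^ 2 * (t * A) - c) < 1) (h2 : v (zc Q ^ 2 * (t * B) - c) < 1) (k : ℕ)
    (hk : k ≠ 0) : k • (P - Q) ≠ 0 := by
  have na := hv.na
  have a1 : v (zc P) ^ 2 * v t = 1 := by
    have : v (c + (zc P ^ 2 * (t * A) - c)) = v c := na_add_eq na (by rwa [hc])
    rwa [add_sub_cancel, hc, v.map_mul, v.map_mul, v.map_pow, hA, mul_one] at this
  have a2 : v (zc Q) ^ 2 * v t = 1 := by
    have : v (c + (zc Q ^ 2 * (t * B) - c)) = v c := na_add_eq na (by rwa [hc])
    rwa [add_sub_cancel, hc, v.map_mul, v.map_mul, v.map_pow, hB, mul_one] at this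
  have t0 : v t ≠ 0 := right_ne_zero_of_mul_eq_one a1
  have pt : 0 < v t := (v.nonneg t).lt_of_ne' t0
  have a3 : v (zc Q) = v (zc P) := by
    rw [← pow_left_inj₀ (v.nonneg _) (v.nonneg _) two_ne_zero]
    exact mul_right_cancel₀ t0 (a2.trans a1.symm)
  have pz : 0 < v (zc P) := by
    rcases (v.nonneg (zc P)).eq_or_lt with h | h
    · rw [← h] at a1; simp at a1
    · exact h
  have a4 : v (zc P - zc Q) * v (zc P + zc Q) = v (zc P) ^ 2 := by
    have e : (zc P - zc Q) * (zc P + zc Q) * t * (A * B) =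
        -(c * (A - B)) + ((zc P ^ 2 * (t * A) - c) * B - (zc Q ^ 2 * (t * B) - c) * A) := by
      ring
    have e2 := congrArg v e
    rw [na_add_eq na] at e2
    · simp only [v.map_mul, v.map_neg, hA, hB, hAB, hc, mul_one] at e2
      exact mul_right_cancel₀ t0 (e2.trans a1.symm)
    · rw [v.map_neg, v.map_mul, hc, hAB, mul_one]
      refine na_sub_lt na ?_ ?_
      · rwa [v.map_mul, hB, mul_one]
      · rwa [v.map_mul, hA, mul_one]
  have a5 : v (zc P - zc Q) = v (zc P) := by
    have b1 : v (zc P - zc Q) ≤ v (zc P) := na_sub_le na le_rfl a3.le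
    have b2 : v (zc P + zc Q) ≤ v (zc P) := na_add_le na le_rfl a3.le
    refine le_antisymm b1 (le_of_mul_le_mul_right ?_ pz)
    rw [← sq, ← a4]
    gcongr
  obtain ⟨n1, n2⟩ := hQ.neg
  obtain ⟨d1, d2⟩ := hP.add na hl n1 le_rfl (by rw [n2, v.map_neg, a3])
  rw [← sub_eq_add_neg, n2, ← sub_eq_add_neg] at d2
  rw [← sub_eq_add_neg] at d1
  have a6 : v (zc (P - Q)) = v (zc P) := by
    have : zc (P - Q) = (zc P - zc Q) + (zc (P - Q) - (zc P - zc Q)) := by ring
    rw [this, na_add_eq na, a5]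
    rw [a5]
    exact d2.trans_lt (pow_lt_self_of_lt_one₀ pz (hP.lt_one na hl) (by norm_num))
  refine d1.nsmul_ne_zero hp hv hl k hk (by rw [← v.pos_iff, a6]; exact pz) ?_
  rw [a6]
  refine lt_of_mul_lt_mul_right ?_ pt.le
  rwa [a1, mul_comm]

lemma coords_mem {L : IntermediateField ℚ Qbar} (hl : l ∈ L) {P : (legendre l).Point}
    (hP : ∀ (σ : Qbar →+* Qbar) (hσ : ∀ w ∈ L, σ w = w), act σ (hσ l hl) P = P)
    {x y : Qbar} {h : (legendre l).Nonsingular x y} (e : P = Point.some x y h) :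
    x ∈ L ∧ y ∈ L := by
  subst e
  constructor
  · by_contra hc
    obtain ⟨σ, h1, h2⟩ := exists_aut hc
    obtain ⟨_, e⟩ := act_some σ (h1 l hl) h
    exact h2 (Point.some.inj (e.symm.trans (hP σ h1))).1
  · by_contra hc
    obtain ⟨σ, h1, h2⟩ := exists_aut hc
    obtain ⟨_, e⟩ := act_some σ (h1 l hl) h
    exact h2 (Point.some.inj (e.symm.trans (hP σ h1))).2

lemma act_fixed {L : IntermediateField ℚ Qbar} (hl : l ∈ L) {x y : Qbar}
    (h : (legendre l).Nonsingular x y) (hx : x ∈ L) (hy : y ∈ L) (σ : Qbar →+* Qbar)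
    (hσ : ∀ w ∈ L, σ w = w) : act σ (hσ l hl) (Point.some x y h) = Point.some x y h := by
  obtain ⟨h', e⟩ := act_some σ (hσ l hl) h
  obtain ⟨_, e'⟩ := some_congr h' (hσ x hx) (hσ y hy)
  rw [e, e']

lemma deriv_unit (na : IsNonarchimedean v) (hl : v l = 1) (hl1 : v (1 - l) = 1) {x : Qbar}
    (hx : v (fl l x) < 1) : v x ≤ 1 ∧ v (3 * x ^ 2 - 2 * (1 + l) * x + l) = 1 := by
  have h1 : v x ≤ 1 := by
    by_contra hc
    have h2 := not_le.mp hc
    rw [fl, v.map_mul, v.map_mul, na_sub_eq na (by simpa using h2),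
      na_sub_eq na (hl.trans_lt h2)] at hx
    nlinarith
  have h2 : v (x - 1) ≤ 1 := na_sub_le na h1 (by simp)
  have h3 : v (x - l) ≤ 1 := na_sub_le na h1 hl.le
  refine ⟨h1, ?_⟩
  have key : ∀ a b c : Qbar, v a < 1 → v b = 1 → v c = 1 → v (b * c + (a * b + a * c)) = 1 := by
    intro a b c ha hb hc
    rw [na_add_eq na, v.map_mul, hb, hc, mul_one]
    rw [v.map_mul, hb, hc, mul_one]
    refine na_add_lt na ?_ ?_
    · rwa [v.map_mul, hb, mul_one]
    · rwa [v.map_mul, hc, mul_one]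
  have hl2 : v (l - 1) = 1 := by rw [← v.map_neg, neg_sub, hl1]
  by_cases c1 : v x < 1
  · rw [← key x (x - 1) (x - l) c1 ?_ ?_]
    · congr 1; ring
    · rw [← v.map_neg, neg_sub, na_sub_eq na (by simpa using c1), v.map_one]
    · rw [← v.map_neg, neg_sub, na_sub_eq na (by rwa [hl]), hl]
  by_cases c2 : v (x - 1) < 1
  · rw [← key (x - 1) x (x - l) c2 (le_antisymm h1 (not_lt.mp c1)) ?_]
    · congr 1; ring
    · rw [show x - l = (1 - l) + (x - 1) by ring, na_add_eq na (by rwa [hl1]), hl1]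
  have d1 : v x = 1 := le_antisymm h1 (not_lt.mp c1)
  have d2 : v (x - 1) = 1 := le_antisymm h2 (not_lt.mp c2)
  rw [fl, v.map_mul, v.map_mul, d1, d2, one_mul, one_mul] at hx
  rw [← key (x - l) x (x - 1) hx d1 d2]
  congr 1; ring

lemma sX_big (na : IsNonarchimedean v) (hl : v l ≤ 1) {x1 x2 L : Qbar} {B : ℝ} (hB : 1 ≤ B)
    (h1 : v x1 ≤ B) (h2 : v x2 ≤ B) (hL : B < v L ^ 2) : B < v (sX l x1 x2 L) := by
  have : sX l x1 x2 L = L ^ 2 + (1 + l - x1 - x2) := by rw [sX]; ring
  rw [this, na_add_eq na, v.map_pow]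
  · exact hL
  · rw [v.map_pow]
    exact (na_sub_le na (na_sub_le na (na_add_le na (by simpa using hB) (hl.trans hB)) h1)
      h2).trans_lt hL

theorem exists_multiple {p : ℕ} (hv : PAbs p v) (h2 : v 2 = 1) (hl : v l = 1)
    (hl1 : v (1 - l) = 1) (P : (legendre l).Point) {B : ℝ} (hB : 1 ≤ B) :
    ∃ N : ℕ, N ≠ 0 ∧ ∀ x y h, N • P = Point.some x y h → B < v x := by
  have na := hv.na
  by_contra hc
  push Not at hc
  have hc' : ∀ n : ℕ, ∃ x y h, (n + 1) • P = Point.some x y h ∧ v x ≤ B := fun n =>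
    hc (n + 1) (Nat.succ_ne_zero n)
  choose x y h e hx using hc'
  have := qbar_algebraic
  let L := IntermediateField.adjoin ℚ {l, x 0, y 0}
  have hL : FiniteDimensional ℚ L := IntermediateField.finiteDimensional_adjoin fun z _ =>
    (Algebra.IsAlgebraic.isAlgebraic z).isIntegral
  have m1 : l ∈ L := IntermediateField.subset_adjoin _ _ (by simp)
  have m2 : x 0 ∈ L := IntermediateField.subset_adjoin _ _ (by simp)
  have m3 : y 0 ∈ L := IntermediateField.subset_adjoin _ _ (by simp)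
  have e0 : P = Point.some _ _ (h 0) := by simpa using e 0
  have hm : ∀ n, x n ∈ L ∧ y n ∈ L := fun n => coords_mem m1 (fun σ hσ => by
    rw [map_nsmul, e0, act_fixed m1 _ m2 m3 σ hσ]) (e n)
  have eq := fun n => (leg_eq _ _).mp (h n).1
  have pB : 0 < B := zero_lt_one.trans_le hB
  have hy : ∀ n, v (y n) ≤ B ^ 2 := by
    intro n
    have t : v (y n) ^ 2 ≤ B ^ 3 := by
      rw [← v.map_pow, eq n, fl, v.map_mul, v.map_mul]
      have t1 : v (x n - 1) ≤ B := na_sub_le na (hx n) (by simpa using hB)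
      have t2 : v (x n - l) ≤ B := na_sub_le na (hx n) (hl.trans_le hB)
      calc v (x n) * v (x n - 1) * v (x n - l) ≤ B * B * B := by
            gcongr
            exact hx n
        _ = B ^ 3 := by ring
    refine (pow_le_pow_iff_left₀ (v.nonneg _) (by positivity) two_ne_zero).mp (t.trans ?_)
    rw [← pow_mul]
    exact pow_le_pow_right₀ hB (by norm_num)
  have hy2 : ∀ n, 1 / B ≤ v (y n) := by
    intro n
    by_contra hc
    have c1 := not_le.mp hc
    have c2 : v (y n) < 1 := c1.trans_le (by rw [div_le_one pB]; exact hB)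
    have c3 : (2 * n + 1 + 1) • P = (n + 1) • P + (n + 1) • P := by
      rw [← add_nsmul]; congr 1; ring
    have y0 : y n ≠ 0 := by
      intro h0
      have := (two_smul_some (h n)).mpr h0
      rw [two_nsmul, ← e n, ← c3, e] at this
      exact Point.some_ne_zero _ this
    obtain ⟨h', e'⟩ := add_self_ne (h n) y0
    rw [← e n, ← c3, e] at e'
    have c4 := hx (2 * n + 1)
    rw [(Point.some.inj e').1] at c4
    refine absurd c4 (not_le.mpr (sX_big na hl.le hB (hx n) (hx n) ?_))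
    have c5 := (deriv_unit na hl hl1 (x := x n) (by
      rw [← eq n, v.map_pow]; exact pow_lt_one₀ (v.nonneg _) c2 two_ne_zero)).2
    have py := v.pos y0
    rw [map_div₀, c5, v.map_mul, h2, one_mul]
    have c6 : B < 1 / v (y n) := by
      rw [lt_div_iff₀ py]
      rw [lt_div_iff₀ pB] at c1
      linarith
    nlinarith
  obtain ⟨n, m, hnm, k1, k2⟩ := hv.pig L hL x y (B ^ 2) (1 / B ^ 2) (fun n => (hm n).1)
    (fun n => (hm n).2) (fun n => (hx n).trans (by nlinarith)) hy (by positivity)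
  obtain ⟨d, rfl⟩ := Nat.exists_eq_add_of_lt hnm
  have c3 : (d + 1) • P = (n + d + 1 + 1) • P + -((n + 1) • P) := by
    rw [show n + d + 1 + 1 = (d + 1) + (n + 1) by ring, add_nsmul P (d + 1)]
    abel
  have c0 : 1 / B ^ 2 ≤ 1 / B := by
    apply one_div_le_one_div_of_le pB
    nlinarith
  have ys : v (y (n + d + 1) - -y n) = v (y n) := by
    rw [show y (n + d + 1) - -y n = 2 * y n - (y n - y (n + d + 1)) by ring, na_sub_eq na,
      v.map_mul, h2, one_mul]
    rw [v.map_mul, h2, one_mul]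
    exact k2.trans_le (c0.trans (hy2 n))
  obtain ⟨h', e'⟩ := leg_neg (h n)
  rw [e, e, e, e'] at c3
  by_cases hxx : x (n + d + 1) = x n
  · rcases (Point.X_eq_iff (h₁ := h (n + d + 1)) (h₂ := h')).mp hxx with c | c
    · rw [(Point.some.inj c).2, sub_self, v.map_zero] at ys
      have := hy2 n
      rw [← ys] at this
      exact absurd this (not_le.mpr (by positivity))
    · rw [c, neg_add_cancel] at c3
      exact Point.some_ne_zero _ c3
  obtain ⟨h'', e''⟩ := add_X_ne (h (n + d + 1)) h' hxx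
  rw [e''] at c3
  have c4 := hx d
  rw [(Point.some.inj c3).1] at c4
  refine absurd c4 (not_le.mpr (sX_big na hl.le hB (hx _) (hx _) ?_))
  have px : 0 < v (x (n + d + 1) - x n) := v.pos (sub_ne_zero.mpr hxx)
  rw [← v.map_neg, neg_sub] at k1
  have c6 : B < v (y n) / v (x (n + d + 1) - x n) := by
    rw [lt_div_iff₀ px]
    calc B * v (x (n + d + 1) - x n) < B * (1 / B ^ 2) := by gcongr
      _ = 1 / B := by field_simp
      _ ≤ v (y n) := hy2 n
  rw [map_div₀, ys]
  nlinarith

end Pool.Agent.MP_9207e0_ag
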