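import Pool.Agent.MP_9207e0_ag.Curves
import Pool.Agent.MP_9207e0_ag.Points

/-! The class of the point over `(a, b)` is a constant plus a bilinear function of `(a, b)`. -/

set_option linter.unusedSectionVars false
set_option linter.unusedVariables false

namespace Pool.Agent.MP_9207e0_ag

open WeierstrassCurve.Affine

variable [DecidableEq Qbar] {l m : Qbar} {G : Type} [AddCommGroup G]

/-- The class of the point over a pair of points. -/
noncomputable def gam (γ : Qbar → Qbar → Qbar → G) : (legendre l).Point → (legendre m).Point → G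
  | .some x y _, .some u v _ => γ x u (y * v)
  | _, _ => 0

lemma gam_some (γ : Qbar → Qbar → Qbar → G) {x y u v : Qbar} (h : (legendre l).Nonsingular x y)
    (h' : (legendre m).Nonsingular u v) :
    gam γ (Point.some x y h) (Point.some u v h') = γ x u (y * v) := rfl

lemma CurveRel.swap {γ : Qbar → Qbar → Qbar → G} (hγ : CurveRel l m γ) :
    CurveRel m l fun u x r => γ x u r := by
  intro F _ _ hF u x r h e hr hh n V hinj hV hW a b c ha hb hc hc0
  exact hγ F hF x u r h (by rw [e, mul_comm]) hr hh n V hinj hV hW b a c hb ha hc hc0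

lemma gam_swap (γ : Qbar → Qbar → Qbar → G) (a : (legendre l).Point) (b : (legendre m).Point) :
    gam γ a b = gam (fun u x r => γ x u r) b a := by
  rcases a with _ | ⟨x, y, h⟩ <;> rcases b with _ | ⟨u, v, h'⟩
  any_goals rfl
  rw [gam_some, gam_some, mul_comm]

lemma Sp.sX {F : Type} [Field F] [Algebra Qbar F] {V : ValuationSubring F} (hV : IsPlace V)
    {k x1 x2 L : F} {k' x1' x2' L' : Qbar} (hk : Sp V k k') (h1 : Sp V x1 x1')
    (h2 : Sp V x2 x2') (hL : Sp V L L') : Sp V (sX k x1 x2 L) (sX k' x1' x2' L') :=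
  (((hL.pow hV 2).add ((Sp.one V).add hk)).sub h1).sub h2

lemma Sp.sY {F : Type} [Field F] [Algebra Qbar F] {V : ValuationSubring F} (hV : IsPlace V)
    {k x1 x2 y1 L : F} {k' x1' x2' y1' L' : Qbar} (hk : Sp V k k') (h1 : Sp V x1 x1')
    (h2 : Sp V x2 x2') (h3 : Sp V y1 y1') (hL : Sp V L L') :
    Sp V (sY k x1 x2 y1 L) (sY k' x1' x2' y1' L') :=
  ((hL.mul hV ((Sp.sX hV hk h1 h2 hL).sub h1)).add h3).neg

lemma map_fl {F : Type} [Field F] [Algebra Qbar F] (k x : Qbar) :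
    algebraMap Qbar F (fl k x) = fl (algebraMap Qbar F k) (algebraMap Qbar F x) := by
  simp [fl]

lemma x_ne_of_good {c1 c2 e1 e2 : Qbar} (hc : (legendre m).Nonsingular c1 c2)
    (he : (legendre m).Nonsingular e1 e2) (k1 : 2 • (Point.some c1 c2 hc + Point.some e1 e2 he) ≠ 0)
    (k2 : 2 • (Point.some c1 c2 hc - Point.some e1 e2 he) ≠ 0) : c1 ≠ e1 := by
  intro h
  rcases (Point.X_eq_iff (h₁ := hc) (h₂ := he)).mp h with h | h
  · exact k2 (by rw [h, sub_self, nsmul_zero])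
  · exact k1 (by rw [h, neg_add_cancel, nsmul_zero])

lemma aff_gam {γ : Qbar → Qbar → Qbar → G} (hγ : CurveRel l m γ) (a : (legendre l).Point)
    (ha : 2 • a ≠ 0) : Aff (gam (m := m) γ a) := by
  rcases a with _ | ⟨x, y, h⟩
  · exact absurd (nsmul_zero 2) ha
  have hy : y ≠ 0 := fun h0 => ha ((two_smul_some h).mpr h0)
  have exy := (leg_eq _ _).mp h.1
  rintro (_ | ⟨c1, c2, hc⟩) (_ | ⟨e1, e2, he⟩) (_ | ⟨e1', e2', he'⟩) c0 k1 k2 k3 k4 k5 k6
  any_goals first
    | exact absurd rfl c0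
    | exact absurd (nsmul_zero 2) k1
    | exact absurd (nsmul_zero 2) k4
  by_cases hee : e1 = e1'
  · rcases (Point.X_eq_iff (h₁ := he) (h₂ := he')).mp hee with h | h
    · rw [h]
    · rw [h, sub_neg_eq_add, ← sub_eq_add_neg, add_comm]
  have n1 := x_ne_of_good hc he k2 k3
  have n2 := x_ne_of_good hc he' k5 k6
  obtain ⟨hne, en⟩ := leg_neg he
  obtain ⟨hne', en'⟩ := leg_neg he'
  rw [sub_eq_add_neg, en] at k3
  rw [sub_eq_add_neg, en'] at k6
  rw [sub_eq_add_neg, sub_eq_add_neg, en, en']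
  obtain ⟨p1, a1⟩ := add_X_ne hc he n1
  obtain ⟨p2, a2⟩ := add_X_ne hc hne n1
  obtain ⟨p3, a3⟩ := add_X_ne hc he' n2
  obtain ⟨p4, a4⟩ := add_X_ne hc hne' n2
  rw [a1] at k2
  rw [a2] at k3
  rw [a3] at k5
  rw [a4] at k6
  rw [a1, a2, a3, a4, gam_some, gam_some, gam_some, gam_some]
  have ec := (leg_eq _ _).mp hc.1
  have hgx : algebraMap Qbar (EF m) c1 ≠ gx m := by
    obtain ⟨V, hV, hx, -⟩ := exists_ell_place m ((leg_eq _ _).mp he.1)
      fun h0 => k1 ((two_smul_some he).mpr h0)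
    exact sub_ne_zero.mp (((Sp.const V c1).sub hx).ne_zero hV (sub_ne_zero.mpr n1))
  refine ell_rel hγ m (algebraMap _ _ x)
    (sX (algebraMap _ _ m) (algebraMap _ _ c1) (gx m)
      ((algebraMap _ _ c2 - gy m) / (algebraMap _ _ c1 - gx m)))
    (algebraMap _ _ y * sY (algebraMap _ _ m) (algebraMap _ _ c1) (gx m) (algebraMap _ _ c2)
      ((algebraMap _ _ c2 - gy m) / (algebraMap _ _ c1 - gx m))) ?_
    (fun _ _ => x) (fun a b => sX m c1 a ((c2 - b) / (c1 - a)))
    (fun a b => y * sY m c1 a c2 ((c2 - b) / (c1 - a)))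
    (fun a b => c1 ≠ a ∧ sY m c1 a c2 ((c2 - b) / (c1 - a)) ≠ 0) ?_
    ((leg_eq _ _).mp he.1) (fun h0 => k1 ((two_smul_some he).mpr h0))
    ((leg_eq _ _).mp he'.1) (fun h0 => k4 ((two_smul_some he').mpr h0)) hee
    ⟨n1, fun h0 => k2 ((two_smul_some p1).mpr h0)⟩ ⟨n1, fun h0 => k3 ((two_smul_some p2).mpr h0)⟩
    ⟨n2, fun h0 => k5 ((two_smul_some p3).mpr h0)⟩ ⟨n2, fun h0 => k6 ((two_smul_some p4).mpr h0)⟩
  · rw [mul_pow, chord_eq (by rw [← map_pow, ec, map_fl]) (gy_sq m) hgx, ← map_pow, exy, map_fl]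
  · intro W a b hW hg hx hy'
    have hL := ((Sp.const W c2).sub hy').div hW ((Sp.const W c1).sub hx) (sub_ne_zero.mpr hg.1)
    exact ⟨Sp.const W x, Sp.sX hW (Sp.const W m) (Sp.const W c1) hx hL,
      (Sp.const W y).mul hW (Sp.sY hW (Sp.const W m) (Sp.const W c1) hx (Sp.const W c2) hL),
      mul_ne_zero hy hg.2⟩

theorem gam_bilinear (hl0 : l ≠ 0) (hl1 : l ≠ 1) (hm0 : m ≠ 0) (hm1 : m ≠ 1)
    {γ : Qbar → Qbar → Qbar → G} (hγ : CurveRel l m γ) :
    ∃ (κ : G) (β : (legendre l).Point →+ (legendre m).Point →+ G),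
      ∀ (x y u v : Qbar) (h : (legendre l).Nonsingular x y) (h' : (legendre m).Nonsingular u v),
        y ≠ 0 → v ≠ 0 → γ x u (y * v) = κ + β (Point.some x y h) (Point.some u v h') := by
  obtain ⟨κ, β, hβ⟩ := exists_bilinear (leg_nice hl0 hl1) (leg_nice hm0 hm1) (gam γ)
    (aff_gam hγ) (fun b hb => by
      simp only [gam_swap γ _ b]
      exact aff_gam hγ.swap b hb) (by
      rintro (_ | ⟨x, y, h⟩) (_ | ⟨u, v, h'⟩) ha hb
      any_goals first
        | exact absurd (nsmul_zero 2) ha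
        | exact absurd (nsmul_zero 2) hb
      obtain ⟨_, e1⟩ := leg_neg h
      obtain ⟨_, e2⟩ := leg_neg h'
      rw [e1, e2, gam_some, gam_some, neg_mul_neg])
  refine ⟨κ, β, fun x y u v h h' hy hv => ?_⟩
  rw [← hβ _ _ (fun h0 => hy ((two_smul_some h).mp h0)) (fun h0 => hv ((two_smul_some h').mp h0)),
    gam_some]

end Pool.Agent.MP_9207e0_ag
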