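import Pool.Agent.MP_9207e0_ag.Tree

/-! Points with the same Legendre coordinate on two isogenous curves pair to zero. -/

set_option linter.unusedSectionVars false
set_option linter.unusedVariables false

namespace Pool.Agent.MP_9207e0_ag

open WeierstrassCurve.Affine

/-- The Legendre parameter of a node. -/
noncomputable def lam (b0 : Qbar) (p : List Qbar) : Qbar := be b0 p ^ 2 / al b0 p ^ 2

section RR

variable {F : Type} [Field F] [Algebra Qbar F]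

/-- The third coordinate on the Kummer surface along the rational curve. -/
noncomputable def RR (b0 c0 : Qbar) (p q : List Qbar) (t w : F) : F :=
  pH b0 p (t * algebraMap Qbar F (al b0 p ^ 2)) * pH c0 q (t * algebraMap Qbar F (al c0 q ^ 2)) *
    (algebraMap Qbar F (al b0 p ^ 3 * al c0 q ^ 3) * (t * (t - 1) * w))

lemma cub_scale {b0 : Qbar} {p : List Qbar} (h : al b0 p ≠ 0) (t : F) :
    cub (algebraMap Qbar F (al b0 p ^ 2)) (algebraMap Qbar F (be b0 p ^ 2))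
      (t * algebraMap Qbar F (al b0 p ^ 2)) =
      algebraMap Qbar F (al b0 p) ^ 6 * (t * (t - 1) * (t - algebraMap Qbar F (lam b0 p))) := by
  have h' : algebraMap Qbar F (al b0 p) ≠ 0 := by simpa using h
  simp only [cub, lam, map_pow, map_div₀]
  field_simp

lemma RR_sq {b0 c0 : Qbar} {p q : List Qbar} (hp : Valid b0 p) (hq : Valid c0 q)
    (h1 : al b0 p ≠ 0) (h2 : al c0 q ≠ 0) {t w : F}
    (n1 : NoPole b0 p (t * algebraMap Qbar F (al b0 p ^ 2)))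
    (n2 : NoPole c0 q (t * algebraMap Qbar F (al c0 q ^ 2)))
    (hw : w ^ 2 = (t - algebraMap Qbar F (lam b0 p)) * (t - algebraMap Qbar F (lam c0 q))) :
    RR b0 c0 p q t w ^ 2 =
      fl (algebraMap Qbar F (b0 ^ 2)) (pX b0 p (t * algebraMap Qbar F (al b0 p ^ 2))) *
      fl (algebraMap Qbar F (c0 ^ 2)) (pX c0 q (t * algebraMap Qbar F (al c0 q ^ 2))) := by
  rw [push_curve hp n1, push_curve hq n2, cub_scale h1, cub_scale h2, RR]
  simp only [mul_pow, hw, map_mul, map_pow]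
  ring

end RR

variable {G : Type} [AddCommGroup G] {b0 c0 : Qbar}

/-- A point of the rational curve that is in general position. -/
def Cond (b0 c0 : Qbar) (p q : List Qbar) (t w : Qbar) : Prop :=
  Good b0 p (t * al b0 p ^ 2) ∧ Good c0 q (t * al c0 q ^ 2) ∧
    w ^ 2 = (t - lam b0 p) * (t - lam c0 q) ∧ 2 * (w - t) + lam b0 p + lam c0 q ≠ 0

lemma const_rel {γ : Qbar → Qbar → Qbar → G} (hγ : CurveRel (b0 ^ 2) (c0 ^ 2) γ)
    {p q : List Qbar} (hp : Valid b0 p) (hq : Valid c0 q) (h1 : al b0 p ≠ 0) (h2 : al c0 q ≠ 0)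
    {t w t' w' : Qbar} (k : Cond b0 c0 p q t w) (k' : Cond b0 c0 p q t' w') :
    γ (pX b0 p (t * al b0 p ^ 2)) (pX c0 q (t * al c0 q ^ 2)) (RR b0 c0 p q t w) =
      γ (pX b0 p (t' * al b0 p ^ 2)) (pX c0 q (t' * al c0 q ^ 2)) (RR b0 c0 p q t' w') := by
  obtain ⟨V, hV, hrel⟩ := line_rel hγ
  set L := algebraMap Qbar (RatFunc Qbar) (lam b0 p) with hL
  set M := algebraMap Qbar (RatFunc Qbar) (lam c0 q) with hM
  set T : RatFunc Qbar := (L * M - RatFunc.X ^ 2) / (2 * RatFunc.X + L + M) with hT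
  have key : ∀ t w : Qbar, Cond b0 c0 p q t w →
      (2 * RatFunc.X + L + M ≠ 0) ∧
      NoPole b0 p (T * algebraMap _ _ (al b0 p ^ 2)) ∧
      NoPole c0 q (T * algebraMap _ _ (al c0 q ^ 2)) ∧
      Sp (V (w - t)) (pX b0 p (T * algebraMap _ _ (al b0 p ^ 2))) (pX b0 p (t * al b0 p ^ 2)) ∧
      Sp (V (w - t)) (pX c0 q (T * algebraMap _ _ (al c0 q ^ 2))) (pX c0 q (t * al c0 q ^ 2)) ∧
      Sp (V (w - t)) (RR b0 c0 p q T (T + RatFunc.X)) (RR b0 c0 p q t w) ∧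
      RR b0 c0 p q t w ≠ 0 := by
    intro t w ⟨g1, g2, e, n⟩
    obtain ⟨hP, hX⟩ := hV (w - t)
    have s1 := (((Sp.ofNat _ 2).mul hP hX).add (Sp.const _ (lam b0 p))).add
      (Sp.const _ (lam c0 q))
    have s2 := (((Sp.const _ (lam b0 p)).mul hP (Sp.const _ (lam c0 q))).sub
      (hX.pow hP 2)).div hP s1 n
    have e2 : (lam b0 p * lam c0 q - (w - t) ^ 2) / (2 * (w - t) + lam b0 p + lam c0 q) = t := by
      rw [div_eq_iff n]
      linear_combination -e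
    rw [e2] at s2
    have s3 : Sp (V (w - t)) (T + RatFunc.X) w := by
      have := s2.add hX
      rwa [add_sub_cancel] at this
    obtain ⟨a1, a2, a3⟩ := sp_push hP (s2.mul hP (Sp.const _ (al b0 p ^ 2))) g1.1
    obtain ⟨d1, d2, d3⟩ := sp_push hP (s2.mul hP (Sp.const _ (al c0 q ^ 2))) g2.1
    refine ⟨s1.ne_zero hP n, a1, d1, a2, d2, ?_, ?_⟩
    · exact (a3.mul hP d3).mul hP ((Sp.const _ _).mul hP
        ((s2.mul hP (s2.sub (Sp.one _))).mul hP s3))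
    · intro h0
      have := RR_sq (F := Qbar) hp hq h1 h2 g1.1 g2.1 e
      rw [h0, zero_pow two_ne_zero] at this
      exact mul_ne_zero g1.2 g2.2 this.symm
  obtain ⟨n, a1, a2, a3, a4, a5, a6⟩ := key t w k
  obtain ⟨-, -, -, d3, d4, d5, d6⟩ := key t' w' k'
  refine hrel _ _ _ _ _ _ _ _ _ _ _ (RR_sq hp hq h1 h2 a1 a2 ?_) a3 a4 a5 a6 d3 d4 d5 d6
  have e : T * (2 * RatFunc.X + L + M) = L * M - RatFunc.X ^ 2 := div_mul_cancel₀ _ n
  linear_combination e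

lemma exists_cond {p q : List Qbar} {t w : Qbar} (g1 : Good b0 p (t * al b0 p ^ 2))
    (g2 : Good c0 q (t * al c0 q ^ 2)) (e : w ^ 2 = (t - lam b0 p) * (t - lam c0 q))
    (hw : w ≠ 0) : Cond b0 c0 p q t w ∨ Cond b0 c0 p q t (-w) := by
  by_cases h : 2 * (w - t) + lam b0 p + lam c0 q = 0
  · refine Or.inr ⟨g1, g2, by rw [neg_sq, e], fun h' => hw ?_⟩
    linear_combination (1 / 4 : Qbar) * (h - h')
  · exact Or.inl ⟨g1, g2, e, h⟩

variable [DecidableEq Qbar]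

/-- `P` is the image on the root curve of a point with Legendre coordinate `t` on the node. -/
def TreePt (b0 : Qbar) (p : List Qbar) (t : Qbar) (P : (legendre (b0 ^ 2)).Point) : Prop :=
  ∃ (y : Qbar) (h : (legendre (b0 ^ 2)).Nonsingular (pX b0 p (t * al b0 p ^ 2))
      (pH b0 p (t * al b0 p ^ 2) * y)),
    y ^ 2 = cub (al b0 p ^ 2) (be b0 p ^ 2) (t * al b0 p ^ 2) ∧ P = Point.some _ _ h

lemma exists_treePt (h0 : b0 ^ 2 ≠ 0) (h1 : b0 ^ 2 ≠ 1) {p : List Qbar} (hp : Valid b0 p)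
    {t y : Qbar} (g : NoPole b0 p (t * al b0 p ^ 2))
    (hy : y ^ 2 = cub (al b0 p ^ 2) (be b0 p ^ 2) (t * al b0 p ^ 2)) :
    (legendre (b0 ^ 2)).Nonsingular (pX b0 p (t * al b0 p ^ 2))
      (pH b0 p (t * al b0 p ^ 2) * y) := by
  refine leg_ns h0 h1 ?_
  rw [mul_pow, hy]
  exact (push_curve (F := Qbar) hp g).symm

section Main

variable {γ : Qbar → Qbar → Qbar → G} {κ : G}
  {β : (legendre (b0 ^ 2)).Point →+ (legendre (c0 ^ 2)).Point →+ G}

lemma gam_cond (hl0 : b0 ^ 2 ≠ 0) (hl1 : b0 ^ 2 ≠ 1) (hm0 : c0 ^ 2 ≠ 0) (hm1 : c0 ^ 2 ≠ 1)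
    (hβ : ∀ (x y u v : Qbar) (h : (legendre (b0 ^ 2)).Nonsingular x y)
      (h' : (legendre (c0 ^ 2)).Nonsingular u v),
        y ≠ 0 → v ≠ 0 → γ x u (y * v) = κ + β (Point.some x y h) (Point.some u v h'))
    {p q : List Qbar} (hp : Valid b0 p) (hq : Valid c0 q) {t : Qbar}
    (g1 : Good b0 p (t * al b0 p ^ 2)) (g2 : Good c0 q (t * al c0 q ^ 2))
    {P : (legendre (b0 ^ 2)).Point} {Q : (legendre (c0 ^ 2)).Point} (hP : TreePt b0 p t P)
    (hQ : TreePt c0 q t Q) :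
    ∃ w, Cond b0 c0 p q t w ∧ ∃ ε : ℤ, (ε = 1 ∨ ε = -1) ∧
      γ (pX b0 p (t * al b0 p ^ 2)) (pX c0 q (t * al c0 q ^ 2)) (RR b0 c0 p q t w) =
        κ + ε • β P Q := by
  obtain ⟨y, h, ey, rfl⟩ := hP
  obtain ⟨v, h', ev, rfl⟩ := hQ
  have a1 := (nondeg hl0 hl1 hp).1
  have a2 := (nondeg hm0 hm1 hq).1
  have f1 := (leg_eq _ _).mp h.1
  have f2 := (leg_eq _ _).mp h'.1
  have n1 : pH b0 p (t * al b0 p ^ 2) * y ≠ 0 := fun h0 => g1.2 (by rw [← f1, h0]; simp)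
  have n2 : pH c0 q (t * al c0 q ^ 2) * v ≠ 0 := fun h0 => g2.2 (by rw [← f2, h0]; simp)
  have hy := right_ne_zero_of_mul n1
  have hv := right_ne_zero_of_mul n2
  have c1 := cub_scale (F := Qbar) a1 t
  have c2 := cub_scale (F := Qbar) a2 t
  simp only [Algebra.algebraMap_self, RingHom.id_apply] at c1 c2
  rw [c1] at ey
  rw [c2] at ev
  have ht : t * (t - 1) ≠ 0 := fun h0 => hy (by
    rw [h0] at ey
    simpa using ey)
  have ht0 := left_ne_zero_of_mul ht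
  have ht1 := right_ne_zero_of_mul ht
  set w := y * v / (al b0 p ^ 3 * al c0 q ^ 3 * (t * (t - 1))) with hw
  have e : w ^ 2 = (t - lam b0 p) * (t - lam c0 q) := by
    rw [hw, div_pow, mul_pow, ey, ev]
    field_simp
  have hw0 : w ≠ 0 := by
    rw [hw]
    exact div_ne_zero (mul_ne_zero hy hv)
      (mul_ne_zero (mul_ne_zero (pow_ne_zero 3 a1) (pow_ne_zero 3 a2)) ht)
  have r1 : RR b0 c0 p q t w =
      pH b0 p (t * al b0 p ^ 2) * y * (pH c0 q (t * al c0 q ^ 2) * v) := by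
    simp only [RR, Algebra.algebraMap_self, RingHom.id_apply, hw]
    field_simp
  rcases exists_cond g1 g2 e hw0 with k | k
  · refine ⟨w, k, 1, Or.inl rfl, ?_⟩
    rw [r1, hβ _ _ _ _ h h' n1 n2, one_smul]
  · refine ⟨-w, k, -1, Or.inr rfl, ?_⟩
    obtain ⟨h'', e''⟩ := leg_neg h'
    have r2 : RR b0 c0 p q t (-w) =
        pH b0 p (t * al b0 p ^ 2) * y * -(pH c0 q (t * al c0 q ^ 2) * v) := by
      rw [mul_neg, ← r1]
      simp only [RR]
      ring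
    rw [r2, hβ _ _ _ _ h h'' n1 (neg_ne_zero.mpr n2), ← e'', map_neg, neg_smul, one_smul]

theorem isotropic (hl0 : b0 ^ 2 ≠ 0) (hl1 : b0 ^ 2 ≠ 1) (hm0 : c0 ^ 2 ≠ 0) (hm1 : c0 ^ 2 ≠ 1)
    (hγ : CurveRel (b0 ^ 2) (c0 ^ 2) γ)
    (hβ : ∀ (x y u v : Qbar) (h : (legendre (b0 ^ 2)).Nonsingular x y)
      (h' : (legendre (c0 ^ 2)).Nonsingular u v),
        y ≠ 0 → v ≠ 0 → γ x u (y * v) = κ + β (Point.some x y h) (Point.some u v h'))
    {p q : List Qbar} (hp : Valid b0 p) (hq : Valid c0 q) {t : Qbar}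
    (g1 : Good b0 p (t * al b0 p ^ 2)) (g2 : Good c0 q (t * al c0 q ^ 2))
    {P : (legendre (b0 ^ 2)).Point} {Q : (legendre (c0 ^ 2)).Point} (hP : TreePt b0 p t P)
    (hQ : TreePt c0 q t Q) : β P Q = 0 := by
  have a1 := (nondeg hl0 hl1 hp).1
  have a2 := (nondeg hm0 hm1 hq).1
  have b1 : al b0 p ^ 2 ≠ 0 := pow_ne_zero 2 a1
  have b2 : al c0 q ^ 2 ≠ 0 := pow_ne_zero 2 a2
  have hS : ((fun s => pX b0 p (s * al b0 p ^ 2)) ''
      ((fun s => s * al c0 q ^ 2) ⁻¹' {x | ¬ Good c0 q x}) ∪ {0, 1, b0 ^ 2}).Finite :=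
    (((finite_bad c0 q).preimage (mul_left_injective₀ b2).injOn).image _).union (Set.toFinite _)
  obtain ⟨x, y, h, k, hx, hk⟩ := exists_tors hl0 hl1 hS
  obtain ⟨z, z1, z2⟩ := push_surj hl0 hl1 hp x
  obtain ⟨t', rfl⟩ : ∃ t', z = t' * al b0 p ^ 2 := ⟨z / al b0 p ^ 2, by field_simp⟩
  have g1' : Good b0 p (t' * al b0 p ^ 2) := by
    refine ⟨z1, fun h0 => hx (Or.inr ?_)⟩
    rw [z2] at h0
    exact fl_eq_zero.mp h0
  have g2' : Good c0 q (t' * al c0 q ^ 2) := by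
    by_contra hc
    exact hx (Or.inl ⟨t', hc, z2⟩)
  obtain ⟨y1, e1⟩ := exists_sq (cub (al b0 p ^ 2) (be b0 p ^ 2) (t' * al b0 p ^ 2))
  obtain ⟨y2, e2⟩ := exists_sq (cub (al c0 q ^ 2) (be c0 q ^ 2) (t' * al c0 q ^ 2))
  have m1 := exists_treePt hl0 hl1 hp g1'.1 e1
  have m2 := exists_treePt hm0 hm1 hq g2'.1 e2
  obtain ⟨w, k1, ε, hε, r1⟩ := gam_cond hl0 hl1 hm0 hm1 hβ hp hq g1 g2 hP hQ
  obtain ⟨w', k2, ε', -, r2⟩ := gam_cond hl0 hl1 hm0 hm1 hβ hp hq g1' g2' ⟨y1, m1, e1, rfl⟩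
    ⟨y2, m2, e2, rfl⟩
  have ht : 2 ^ k • Point.some _ _ m1 = 0 := by
    rcases (Point.X_eq_iff (h₁ := m1) (h₂ := h)).mp z2 with e | e
    · rw [e, hk]
    · rw [e, neg_nsmul, hk, neg_zero]
  have hz : ∀ (R : (legendre (c0 ^ 2)).Point), β (Point.some _ _ m1) R = 0 := by
    intro R
    have : ∀ j : ℕ, ∃ R', 2 ^ j • R' = R := by
      intro j
      induction j with
      | zero => exact ⟨R, by simp⟩
      | succ j ih =>
        obtain ⟨R', hR⟩ := ih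
        obtain ⟨R'', hR'⟩ := leg_div2 hm0 hm1 R'
        exact ⟨R'', by rw [pow_succ 2 j, mul_nsmul', hR', hR]⟩
    obtain ⟨R', rfl⟩ := this k
    rw [map_nsmul, ← AddMonoidHom.nsmul_apply, ← map_nsmul, ht, map_zero, AddMonoidHom.zero_apply]
  rw [const_rel hγ hp hq a1 a2 k1 k2, r2, hz, smul_zero, add_right_inj] at r1
  rcases hε with rfl | rfl
  · simpa using r1.symm
  · simpa using r1.symm

end Main

end Pool.Agent.MP_9207e0_ag
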