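import Pool.Agent.MP_9207e0_ag.Rank

/-! Subgroups of infinite rank that pair to zero. -/

set_option linter.unusedSectionVars false
set_option linter.unusedVariables false

namespace Pool.Agent.MP_9207e0_ag

open WeierstrassCurve.Affine

variable [DecidableEq Qbar] {G : Type} [AddCommGroup G] {b0 c0 : Qbar}

lemma treePt_nil {x y : Qbar} (h : (legendre (b0 ^ 2)).Nonsingular x y) :
    TreePt b0 [] x (Point.some x y h) := by
  obtain ⟨h', e⟩ := some_congr h (x' := pX b0 [] (x * al b0 [] ^ 2))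
    (y' := pH b0 [] (x * al b0 [] ^ 2) * y) (by simp [pX, al_nil]) (by simp [pH])
  refine ⟨y, h', ?_, e⟩
  rw [(leg_eq _ _).mp h.1]
  simp [al_nil, be_nil, cub, fl]

lemma good_nil {x : Qbar} (h : fl (b0 ^ 2) x ≠ 0) : Good b0 [] (x * al b0 [] ^ 2) :=
  ⟨trivial, by simpa [pX, al_nil] using h⟩

theorem exists_isotropic (hl0 : b0 ^ 2 ≠ 0) (hl1 : b0 ^ 2 ≠ 1) (hm0 : c0 ^ 2 ≠ 0)
    (hm1 : c0 ^ 2 ≠ 1) (β : (legendre (b0 ^ 2)).Point →+ (legendre (c0 ^ 2)).Point →+ G)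
    (hiso : ∀ {p q : List Qbar} {t : Qbar}, Valid b0 p → Valid c0 q →
      Good b0 p (t * al b0 p ^ 2) → Good c0 q (t * al c0 q ^ 2) →
      ∀ {P Q}, TreePt b0 p t P → TreePt c0 q t Q → β P Q = 0)
    (a : (legendre (b0 ^ 2)).Point) :
    ∃ (A : AddSubgroup (legendre (b0 ^ 2)).Point) (B : AddSubgroup (legendre (c0 ^ 2)).Point),
      a ∈ A ∧ Cardinal.aleph0 ≤ Module.rank ℤ A ∧ Cardinal.aleph0 ≤ Module.rank ℤ B ∧
      ∀ P ∈ A, ∀ Q ∈ B, β P Q = 0 := by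
  obtain ⟨p, v, hp, hv, h2, u1, u2, u3, u4⟩ := exists_good_abs b0 (1 - b0 ^ 2) c0 (1 - c0 ^ 2)
    (fun h => hl0 (by simp [h])) (sub_ne_zero.mpr hl1.symm) (fun h => hm0 (by simp [h]))
    (sub_ne_zero.mpr hm1.symm)
  have pp : 0 < v p := v.pos (Nat.cast_ne_zero.mpr hp.ne_zero)
  have hB : 1 ≤ 1 / v p := by rw [le_div_iff₀ pp, one_mul]; exact hv.lt.le
  obtain ⟨N, hN, hNa⟩ := exists_multiple hv h2 (by rw [v.map_pow, u1, one_pow]) u2 a hB
  have ht : ∃ t : Qbar, 1 < v t * v p ∧ (N • a = 0 ∨ TreePt b0 [] t (N • a)) := by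
    rcases e : N • a with _ | ⟨x, y, h⟩
    · refine ⟨((p : Qbar) ^ 2)⁻¹, ?_, Or.inl rfl⟩
      rw [map_inv₀, v.map_pow, sq, mul_inv, mul_assoc, inv_mul_cancel₀ pp.ne', mul_one]
      exact one_lt_inv₀ pp |>.mpr hv.lt
    · exact ⟨x, (div_lt_iff₀ pp).mp (hNa x y h e), Or.inr (treePt_nil h)⟩
  obtain ⟨t, ht, hta⟩ := ht
  have ht1 : 1 < v t := ht.trans_le (mul_le_of_le_one_right (v.nonneg t) hv.lt.le)
  have iso : ∀ {r q : List Qbar}, Valid b0 r → Valid c0 q → ∀ {P Q}, TreePt b0 r t P →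
      TreePt c0 q t Q → β P Q = 0 := fun hr hq _ _ hP hQ =>
    hiso hr hq (good_of_big hv.na h2 u1 u2 hr ht1) (good_of_big hv.na h2 u3 u4 hq ht1) hP hQ
  refine ⟨AddSubgroup.closure (insert a {P | ∃ r, Valid b0 r ∧ TreePt b0 r t P}),
    AddSubgroup.closure {Q | ∃ q Q', Valid c0 q ∧ TreePt c0 q t Q' ∧ Q = N • Q'},
    AddSubgroup.subset_closure (Or.inl rfl), ?_, ?_, ?_⟩
  · refine aleph0_le_rank hp hv h2 u1 u2 ht _ 1 one_ne_zero fun q P h1 h2 => ?_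
    rw [one_nsmul]
    exact AddSubgroup.subset_closure (Or.inr ⟨q, h1, h2⟩)
  · exact aleph0_le_rank hp hv h2 u3 u4 ht _ N hN fun q P h1 h2 =>
      AddSubgroup.subset_closure ⟨q, P, h1, h2, rfl⟩
  · intro P hP Q hQ
    have k1 : ∀ P ∈ insert a {P | ∃ r, Valid b0 r ∧ TreePt b0 r t P}, β P Q = 0 := by
      intro P hP
      have : AddSubgroup.closure {Q | ∃ q Q', Valid c0 q ∧ TreePt c0 q t Q' ∧ Q = N • Q'} ≤
          (β P).ker := by
        rw [AddSubgroup.closure_le]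
        rintro _ ⟨q, Q', h1, h2, rfl⟩
        rw [SetLike.mem_coe, AddMonoidHom.mem_ker, map_nsmul]
        rcases hP with rfl | ⟨r, h3, h4⟩
        · rw [← AddMonoidHom.nsmul_apply, ← map_nsmul]
          rcases hta with h | h
          · rw [h, map_zero, AddMonoidHom.zero_apply]
          · exact iso (r := []) trivial h1 h h2
        · rw [iso h3 h1 h4 h2, nsmul_zero]
      exact this hQ
    have : AddSubgroup.closure (insert a {P | ∃ r, Valid b0 r ∧ TreePt b0 r t P}) ≤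
        (β.flip Q).ker := by
      rw [AddSubgroup.closure_le]
      exact fun P hP => k1 P hP
    exact this hP

/-- The bilinear part of the class of a point, with its known zeros. -/
theorem exists_beta (hl0 : b0 ^ 2 ≠ 0) (hl1 : b0 ^ 2 ≠ 1) (hm0 : c0 ^ 2 ≠ 0) (hm1 : c0 ^ 2 ≠ 1)
    {γ : Qbar → Qbar → Qbar → G} (hγ : CurveRel (b0 ^ 2) (c0 ^ 2) γ) :
    ∃ (κ : G) (β : (legendre (b0 ^ 2)).Point →+ (legendre (c0 ^ 2)).Point →+ G),
      (∀ (x y u w : Qbar) (h : (legendre (b0 ^ 2)).Nonsingular x y)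
        (h' : (legendre (c0 ^ 2)).Nonsingular u w), y * w ≠ 0 →
        γ x u (y * w) = κ + β (Point.some x y h) (Point.some u w h')) ∧
      (∀ {p q : List Qbar} {t : Qbar}, Valid b0 p → Valid c0 q →
        Good b0 p (t * al b0 p ^ 2) → Good c0 q (t * al c0 q ^ 2) →
        ∀ {P Q}, TreePt b0 p t P → TreePt c0 q t Q → β P Q = 0) ∧
      ∀ t r : Qbar, r ^ 2 = fl (b0 ^ 2) t * fl (c0 ^ 2) t → r ≠ 0 → γ t t r = κ := by
  obtain ⟨κ, β, hβ⟩ := gam_bilinear hl0 hl1 hm0 hm1 hγ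
  have hiso : ∀ {p q : List Qbar} {t : Qbar}, Valid b0 p → Valid c0 q →
      Good b0 p (t * al b0 p ^ 2) → Good c0 q (t * al c0 q ^ 2) →
      ∀ {P Q}, TreePt b0 p t P → TreePt c0 q t Q → β P Q = 0 :=
    fun hp hq g1 g2 _ _ hP hQ => isotropic hl0 hl1 hm0 hm1 hγ hβ hp hq g1 g2 hP hQ
  refine ⟨κ, β, fun x y u w h h' n =>
    hβ x y u w h h' (left_ne_zero_of_mul n) (right_ne_zero_of_mul n), hiso, ?_⟩
  intro t r e hr
  have n : fl (b0 ^ 2) t * fl (c0 ^ 2) t ≠ 0 := by rw [← e]; exact pow_ne_zero 2 hr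
  obtain ⟨y, hy⟩ := exists_sq (fl (b0 ^ 2) t)
  have y0 : y ≠ 0 := fun h => left_ne_zero_of_mul n (by rw [← hy, h]; simp)
  have hw : (r / y) ^ 2 = fl (c0 ^ 2) t := by
    rw [div_pow, e, hy, mul_div_cancel_left₀ _ (left_ne_zero_of_mul n)]
  have h1 := leg_ns hl0 hl1 hy
  have h2 := leg_ns hm0 hm1 hw
  have := hβ t y t (r / y) h1 h2 y0 (div_ne_zero hr y0)
  rwa [hiso (p := []) (q := []) trivial trivial (good_nil (left_ne_zero_of_mul n))
    (good_nil (right_ne_zero_of_mul n)) (treePt_nil h1) (treePt_nil h2), add_zero,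
    mul_div_cancel₀ _ y0] at this

end Pool.Agent.MP_9207e0_ag
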