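import Pool.Agent.MP_9207e0_ag.Base

/-! Specialization of functions at places, and the place attached to a smooth point. -/

set_option linter.unusedSectionVars false
set_option linter.unusedVariables false

namespace Pool.Agent.MP_9207e0_ag

section Sp

variable {F : Type} [Field F] [Algebra Qbar F]

/-- The function `g` is regular at `V` with value `c`. -/
def Sp (V : ValuationSubring F) (g : F) (c : Qbar) : Prop :=
  V.valuation (g - algebraMap Qbar F c) < 1

variable {V : ValuationSubring F}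

lemma IsPlace.val_le (hV : IsPlace V) (c : Qbar) : V.valuation (algebraMap Qbar F c) ≤ 1 :=
  (V.valuation_le_one_iff _).mpr (hV.2 c)

lemma IsPlace.val_eq (hV : IsPlace V) {c : Qbar} (hc : c ≠ 0) :
    V.valuation (algebraMap Qbar F c) = 1 := by
  have h1 := hV.val_le c
  have h2 := hV.val_le c⁻¹
  have h3 : V.valuation (algebraMap Qbar F c) * V.valuation (algebraMap Qbar F c⁻¹) = 1 := by
    rw [← map_mul, ← map_mul, mul_inv_cancel₀ hc, map_one, map_one]
  by_contra hne
  have h4 : V.valuation (algebraMap Qbar F c) < 1 := lt_of_le_of_ne h1 hne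
  have := mul_lt_one_of_lt_of_le h4 h2
  exact absurd h3 this.ne

lemma Sp.val_le (hV : IsPlace V) {g : F} {c : Qbar} (h : Sp V g c) : V.valuation g ≤ 1 := by
  have : g = (g - algebraMap Qbar F c) + algebraMap Qbar F c := by ring
  rw [this]
  exact V.valuation.map_add_le (le_of_lt h) (hV.val_le c)

lemma Sp.mem (hV : IsPlace V) {g : F} {c : Qbar} (h : Sp V g c) : g ∈ V :=
  (V.valuation_le_one_iff _).mp (h.val_le hV)

lemma Sp.val_eq (hV : IsPlace V) {g : F} {c : Qbar} (h : Sp V g c) (hc : c ≠ 0) :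
    V.valuation g = 1 := by
  have : g = algebraMap Qbar F c + (g - algebraMap Qbar F c) := by ring
  rw [this, V.valuation.map_add_eq_of_lt_left, hV.val_eq hc]
  rw [hV.val_eq hc]; exact h

lemma Sp.ne_zero (hV : IsPlace V) {g : F} {c : Qbar} (h : Sp V g c) (hc : c ≠ 0) : g ≠ 0 := by
  intro h0
  have := h.val_eq hV hc
  rw [h0, map_zero] at this
  exact zero_ne_one this

lemma Sp.zero_iff {g : F} : Sp V g 0 ↔ V.valuation g < 1 := by
  simp [Sp]

lemma Sp.const (V : ValuationSubring F) (c : Qbar) : Sp V (algebraMap Qbar F c) c := by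
  simp [Sp]

lemma Sp.one (V : ValuationSubring F) : Sp V (1 : F) 1 := by
  simp [Sp]

lemma Sp.ofNat (V : ValuationSubring F) (n : ℕ) [n.AtLeastTwo] :
    Sp V (OfNat.ofNat n : F) (OfNat.ofNat n) := by
  have := Sp.const V (OfNat.ofNat n : Qbar)
  rwa [map_ofNat] at this

lemma Sp.add {g g' : F} {c c' : Qbar} (h : Sp V g c) (h' : Sp V g' c') :
    Sp V (g + g') (c + c') := by
  unfold Sp at *
  have : g + g' - algebraMap Qbar F (c + c') =
      (g - algebraMap Qbar F c) + (g' - algebraMap Qbar F c') := by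
    rw [map_add]; ring
  rw [this]
  exact V.valuation.map_add_lt h h'

lemma Sp.neg {g : F} {c : Qbar} (h : Sp V g c) : Sp V (-g) (-c) := by
  unfold Sp at *
  have : -g - algebraMap Qbar F (-c) = -(g - algebraMap Qbar F c) := by
    rw [map_neg]; ring
  rw [this, Valuation.map_neg]
  exact h

lemma Sp.sub {g g' : F} {c c' : Qbar} (h : Sp V g c) (h' : Sp V g' c') :
    Sp V (g - g') (c - c') := by
  rw [sub_eq_add_neg, sub_eq_add_neg]
  exact h.add h'.neg

lemma Sp.mul (hV : IsPlace V) {g g' : F} {c c' : Qbar} (h : Sp V g c) (h' : Sp V g' c') :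
    Sp V (g * g') (c * c') := by
  have h1 := h'.val_le hV
  unfold Sp at *
  have : g * g' - algebraMap Qbar F (c * c') =
      (g - algebraMap Qbar F c) * g' + (g' - algebraMap Qbar F c') * algebraMap Qbar F c := by
    rw [map_mul]; ring
  rw [this]
  refine V.valuation.map_add_lt ?_ ?_
  · rw [map_mul]; exact mul_lt_one_of_lt_of_le h h1
  · rw [map_mul]; exact mul_lt_one_of_lt_of_le h' (hV.val_le c)

lemma Sp.pow (hV : IsPlace V) {g : F} {c : Qbar} (h : Sp V g c) (n : ℕ) :
    Sp V (g ^ n) (c ^ n) := by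
  induction n with
  | zero => simpa using Sp.one V
  | succ n ih => rw [pow_succ, pow_succ]; exact ih.mul hV h

lemma Sp.inv (hV : IsPlace V) {g : F} {c : Qbar} (h : Sp V g c) (hc : c ≠ 0) :
    Sp V g⁻¹ c⁻¹ := by
  have h1 := h.val_eq hV hc
  have h2 := h.ne_zero hV hc
  have h3 : algebraMap Qbar F c ≠ 0 := by simpa using hc
  unfold Sp at *
  have : g⁻¹ - algebraMap Qbar F c⁻¹ =
      -(g - algebraMap Qbar F c) * (g⁻¹ * algebraMap Qbar F c⁻¹) := by
    rw [map_inv₀]; field_simp; ring
  rw [this, map_mul, map_mul, Valuation.map_neg, map_inv₀, h1, hV.val_eq (inv_ne_zero hc)]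
  simpa using h

lemma Sp.div (hV : IsPlace V) {g g' : F} {c c' : Qbar} (h : Sp V g c) (h' : Sp V g' c')
    (hc : c' ≠ 0) : Sp V (g / g') (c / c') := by
  rw [div_eq_mul_inv, div_eq_mul_inv]
  exact h.mul hV (h'.inv hV hc)

lemma Sp.unique (hV : IsPlace V) {g : F} {c c' : Qbar} (h : Sp V g c) (h' : Sp V g c') :
    c = c' := by
  by_contra hne
  have h1 := (h.sub h').ne_zero hV (sub_ne_zero.mpr hne)
  exact h1 (sub_self g)

lemma Sp.aeval (hV : IsPlace V) {g : F} {c : Qbar} (h : Sp V g c) (p : Polynomial Qbar) :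
    Sp V (Polynomial.aeval g p) (p.eval c) := by
  induction p using Polynomial.induction_on' with
  | add p q hp hq => rw [map_add, Polynomial.eval_add]; exact hp.add hq
  | monomial n a =>
    rw [Polynomial.aeval_monomial, Polynomial.eval_monomial]
    exact (Sp.const V a).mul hV (h.pow hV n)

lemma ordAt_of_val_eq_one {h : F} (hh : V.valuation h = 1) : ordAt V h = 0 := by
  have h0 : h ≠ 0 := by
    rintro rfl
    simp at hh
  have h1 : h ∈ V := (V.valuation_le_one_iff _).mp hh.le
  have h2 : h⁻¹ ∈ V := (V.valuation_le_one_iff _).mp (by rw [map_inv₀, hh, inv_one])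
  have u1 : IsUnit (⟨h, h1⟩ : V) :=
    IsUnit.of_mul_eq_one ⟨h⁻¹, h2⟩ (Subtype.ext (mul_inv_cancel₀ h0))
  have u2 : IsUnit (⟨h⁻¹, h2⟩ : V) :=
    IsUnit.of_mul_eq_one ⟨h, h1⟩ (Subtype.ext (inv_mul_cancel₀ h0))
  simp [ordAt, zeroOrd, h1, h2, Ring.ord_of_isUnit u1, Ring.ord_of_isUnit u2]

lemma ordAt_inv (h : F) : ordAt V h⁻¹ = -ordAt V h := by
  simp [ordAt]

/-- `h` generates the maximal ideal of `V`. -/
def IsUnif (V : ValuationSubring F) (h : F) : Prop :=
  h ≠ 0 ∧ V.valuation h < 1 ∧ ∀ z : F, V.valuation z < 1 → V.valuation z ≤ V.valuation h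

lemma IsUnif.mul {h u : F} (hh : IsUnif V h) (hu : V.valuation u = 1) : IsUnif V (h * u) := by
  have hu0 : u ≠ 0 := by
    rintro rfl
    simp at hu
  refine ⟨mul_ne_zero hh.1 hu0, ?_, ?_⟩
  · rw [map_mul, hu, mul_one]; exact hh.2.1
  · intro z hz
    rw [map_mul, hu, mul_one]; exact hh.2.2 z hz

lemma IsUnif.ordAt {h : F} (hh : IsUnif V h) : ordAt V h = 1 := by
  obtain ⟨h0, h1, h2⟩ := hh
  have m1 : h ∈ V := (V.valuation_le_one_iff _).mp h1.le
  have hv0 : V.valuation h ≠ 0 := by simpa using h0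
  have m2 : h⁻¹ ∉ V := by
    intro hm
    have := (V.valuation_le_one_iff _).mpr hm
    rw [map_inv₀, inv_le_one₀ (zero_lt_iff.mpr hv0)] at this
    exact absurd h1 (not_lt.mpr this)
  have hsp : Ideal.span {(⟨h, m1⟩ : V)} = IsLocalRing.maximalIdeal V := by
    apply le_antisymm
    · rw [Ideal.span_singleton_le_iff_mem, ← ValuationSubring.coe_mem_nonunits_iff,
        ValuationSubring.mem_nonunits_iff]
      exact h1
    · intro z hz
      rw [← ValuationSubring.coe_mem_nonunits_iff, ValuationSubring.mem_nonunits_iff] at hz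
      have h3 := h2 _ hz
      have m3 : (z : F) / h ∈ V := by
        rw [← V.valuation_le_one_iff, map_div₀, div_le_one₀ (zero_lt_iff.mpr hv0)]
        exact h3
      rw [Ideal.mem_span_singleton']
      exact ⟨⟨_, m3⟩, Subtype.ext (div_mul_cancel₀ _ h0)⟩
  have hlen : Ring.ord V ⟨h, m1⟩ = 1 := by
    unfold Ring.ord
    rw [hsp]
    have : IsSimpleModule V (V ⧸ IsLocalRing.maximalIdeal V) := by
      rw [isSimpleModule_iff_isCoatom]
      exact Ideal.isMaximal_def.mp inferInstance
    exact Module.length_eq_one V _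
  simp [MP_9207e0_ag.ordAt, zeroOrd, m1, m2, hlen]

end Sp

section Local

variable {R F : Type} [CommRing R] [IsDomain R] [Algebra Qbar R] [Field F] [Algebra Qbar F]
  [Algebra R F] [IsScalarTower Qbar R F] [IsFractionRing R F]

/-- Every nonzero element is a power of `w` up to functions not vanishing at the point. -/
def Fac (ev : R →ₐ[Qbar] Qbar) (w : R) : Prop :=
  w ≠ 0 ∧ ev w = 0 ∧ ∀ g : R, g ≠ 0 → ∃ (n : ℕ) (u v : R), ev u ≠ 0 ∧ ev v ≠ 0 ∧ g * v = w ^ n * u

lemma Fac.val {ev : R →ₐ[Qbar] Qbar} {w : R} (hf : Fac ev w) {V : ValuationSubring F}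
    (hV : IsPlace V) (hs : ∀ g : R, Sp V (algebraMap R F g) (ev g)) {z : F} (hz : z ≠ 0) :
    ∃ n : ℤ, ∀ W : ValuationSubring F, IsPlace W → (∀ g : R, Sp W (algebraMap R F g) (ev g)) →
      W.valuation z = W.valuation (algebraMap R F w) ^ n := by
  obtain ⟨a, b, hb, rfl⟩ := IsFractionRing.div_surjective R z
  have hb0 : b ≠ 0 := nonZeroDivisors.ne_zero hb
  have ha0 : a ≠ 0 := by
    rintro rfl
    simp at hz
  obtain ⟨n, u, v, hu, hv, e⟩ := hf.2.2 a ha0
  obtain ⟨n', u', v', hu', hv', e'⟩ := hf.2.2 b hb0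
  refine ⟨(n : ℤ) - n', fun W hW hs' => ?_⟩
  have hw0 : W.valuation (algebraMap R F w) ≠ 0 := by
    simpa using hf.1
  have e1 := congrArg (fun t => W.valuation (algebraMap R F t)) e
  have e2 := congrArg (fun t => W.valuation (algebraMap R F t)) e'
  simp only [map_mul, map_pow, (hs' u).val_eq hW hu, (hs' v).val_eq hW hv,
    (hs' u').val_eq hW hu', (hs' v').val_eq hW hv', mul_one] at e1 e2
  rw [map_div₀, e1, e2, zpow_sub₀ hw0, zpow_natCast, zpow_natCast]

lemma Fac.val_lt {ev : R →ₐ[Qbar] Qbar} {w : R} (hf : Fac ev w) {V : ValuationSubring F}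
    (hs : ∀ g : R, Sp V (algebraMap R F g) (ev g)) : V.valuation (algebraMap R F w) < 1 := by
  have := hs w
  rwa [hf.2.1, Sp.zero_iff] at this

lemma Fac.unique {ev : R →ₐ[Qbar] Qbar} {w : R} (hf : Fac ev w) {V W : ValuationSubring F}
    (hV : IsPlace V) (hs : ∀ g : R, Sp V (algebraMap R F g) (ev g))
    (hW : IsPlace W) (hs' : ∀ g : R, Sp W (algebraMap R F g) (ev g)) : V = W := by
  ext z
  by_cases hz : z = 0
  · simp [hz]
  obtain ⟨n, hn⟩ := hf.val hV hs hz
  have k : ∀ U : ValuationSubring F, IsPlace U → (∀ g : R, Sp U (algebraMap R F g) (ev g)) →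
      (z ∈ U ↔ 0 ≤ n) := by
    intro U hU hsU
    have hw0 : U.valuation (algebraMap R F w) ≠ 0 := by
      simpa using hf.1
    rw [← U.valuation_le_one_iff, hn U hU hsU,
      zpow_le_one_iff_right_of_lt_one₀ (zero_lt_iff.mpr hw0) (hf.val_lt hsU)]
  rw [k V hV hs, k W hW hs']

lemma Fac.isUnif {ev : R →ₐ[Qbar] Qbar} {w : R} (hf : Fac ev w) {V : ValuationSubring F}
    (hV : IsPlace V) (hs : ∀ g : R, Sp V (algebraMap R F g) (ev g)) :
    IsUnif V (algebraMap R F w) := by
  have hw0 : V.valuation (algebraMap R F w) ≠ 0 := by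
    simpa using hf.1
  refine ⟨by simpa using hf.1, hf.val_lt hs, fun z hz => ?_⟩
  by_cases hz0 : z = 0
  · simp [hz0]
  obtain ⟨n, hn⟩ := hf.val hV hs hz0
  rw [hn V hV hs] at hz ⊢
  rw [zpow_lt_one_iff_right_of_lt_one₀ (zero_lt_iff.mpr hw0) (hf.val_lt hs)] at hz
  conv_rhs => rw [← zpow_one (V.valuation (algebraMap R F w))]
  exact zpow_le_zpow_right_of_le_one₀ (zero_lt_iff.mpr hw0) (hf.val_lt hs).le (by omega)

lemma Fac.exists_place {ev : R →ₐ[Qbar] Qbar} {w : R} (hf : Fac ev w) :
    ∃ V : ValuationSubring F, IsPlace V ∧ ∀ g : R, Sp V (algebraMap R F g) (ev g) := by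
  have inj := IsFractionRing.injective R F
  let S : Subring F :=
    { carrier := {z | ∃ u v : R, ev v ≠ 0 ∧ z * algebraMap R F v = algebraMap R F u}
      mul_mem' := by
        rintro a b ⟨u, v, hv, e⟩ ⟨u', v', hv', e'⟩
        refine ⟨u * u', v * v', by simp [hv, hv'], ?_⟩
        rw [map_mul, map_mul, ← e, ← e']; ring
      one_mem' := ⟨1, 1, by simp, by simp⟩
      add_mem' := by
        rintro a b ⟨u, v, hv, e⟩ ⟨u', v', hv', e'⟩
        refine ⟨u * v' + u' * v, v * v', by simp [hv, hv'], ?_⟩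
        rw [map_add, map_mul, map_mul, map_mul, ← e, ← e']; ring
      zero_mem' := ⟨0, 1, by simp, by simp⟩
      neg_mem' := by
        rintro a ⟨u, v, hv, e⟩
        exact ⟨-u, v, hv, by rw [map_neg, ← e]; ring⟩ }
  have hS : ∀ z : F, z ∈ S ∨ z⁻¹ ∈ S := by
    intro z
    by_cases hz : z = 0
    · left; rw [hz]; exact S.zero_mem
    obtain ⟨a, b, hb, rfl⟩ := IsFractionRing.div_surjective R z
    have hb0 : b ≠ 0 := nonZeroDivisors.ne_zero hb
    have ha0 : a ≠ 0 := by
      rintro rfl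
      simp at hz
    obtain ⟨n, u, v, hu, hv, e⟩ := hf.2.2 a ha0
    obtain ⟨n', u', v', hu', hv', e'⟩ := hf.2.2 b hb0
    have ha1 : algebraMap R F a ≠ 0 := by simpa using ha0
    have hb1 : algebraMap R F b ≠ 0 := by simpa using hb0
    have hw1 : algebraMap R F w ≠ 0 := by simpa using hf.1
    have e1 := congrArg (algebraMap R F) e
    have e2 := congrArg (algebraMap R F) e'
    simp only [map_mul, map_pow] at e1 e2
    rcases le_total n' n with hn | hn
    · obtain ⟨k, rfl⟩ := Nat.exists_eq_add_of_le hn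
      left
      refine ⟨w ^ k * u * v', v * u', by simp [hv, hu'], ?_⟩
      simp only [map_mul, map_pow]
      rw [div_mul_eq_mul_div, div_eq_iff hb1]
      apply mul_left_cancel₀ (pow_ne_zero n' hw1)
      linear_combination (algebraMap R F w ^ n' * algebraMap R F u') * e1 -
        (algebraMap R F w ^ n' * algebraMap R F w ^ k * algebraMap R F u) * e2
    · obtain ⟨k, rfl⟩ := Nat.exists_eq_add_of_le hn
      right
      refine ⟨w ^ k * u' * v, v' * u, by simp [hv', hu], ?_⟩
      simp only [map_mul, map_pow]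
      rw [inv_div, div_mul_eq_mul_div, div_eq_iff ha1]
      apply mul_left_cancel₀ (pow_ne_zero n hw1)
      linear_combination (algebraMap R F w ^ n * algebraMap R F u) * e2 -
        (algebraMap R F w ^ n * algebraMap R F w ^ k * algebraMap R F u') * e1
  let V : ValuationSubring F := { S with mem_or_inv_mem' := hS }
  have hmem : ∀ z : F, z ∈ V ↔ ∃ u v : R, ev v ≠ 0 ∧ z * algebraMap R F v = algebraMap R F u :=
    fun z => Iff.rfl
  have key : ∀ g : R, ev g = 0 → V.valuation (algebraMap R F g) < 1 := by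
    intro g hg
    rw [← ValuationSubring.mem_nonunits_iff, ValuationSubring.mem_nonunits_iff_or]
    by_cases hg0 : algebraMap R F g = 0
    · exact Or.inl hg0
    right
    rw [hmem]
    rintro ⟨u, v, hv, e⟩
    apply hv
    have : v = g * u := by
      apply inj
      rw [map_mul, ← e]; field_simp
    rw [this, map_mul, hg, zero_mul]
  refine ⟨V, ⟨?_, fun c => ?_⟩, fun g => ?_⟩
  · intro htop
    have h1 := key w hf.2.1
    rw [← ValuationSubring.mem_nonunits_iff, ValuationSubring.mem_nonunits_iff_or] at h1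
    rcases h1 with h1 | h1
    · exact hf.1 (by simpa using h1)
    · exact h1 (by rw [htop]; exact ValuationSubring.mem_top _)
  · rw [hmem]
    exact ⟨algebraMap Qbar R c, 1, by simp, by
      rw [map_one, mul_one, ← IsScalarTower.algebraMap_apply]⟩
  · have := key (g - algebraMap Qbar R (ev g)) (by simp)
    rwa [map_sub, ← IsScalarTower.algebraMap_apply] at this

end Local

end Pool.Agent.MP_9207e0_ag
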