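import Pool.Agent.MP_9207e0_ag.Gamma

/-! The tree of 2-isogenies given by the arithmetic-geometric mean. -/

set_option linter.unusedSectionVars false
set_option linter.unusedVariables false

namespace Pool.Agent.MP_9207e0_ag

open WeierstrassCurve.Affine

/-- The second parameter of a node. -/
noncomputable def be (b0 : Qbar) : List Qbar → Qbar
  | [] => b0
  | b :: _ => b

/-- The first parameter of a node. -/
noncomputable def al (b0 : Qbar) : List Qbar → Qbar
  | [] => 1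
  | _ :: p => al b0 p + be b0 p

lemma be_nil (b0 : Qbar) : be b0 [] = b0 := rfl

lemma be_cons (b0 b : Qbar) (p : List Qbar) : be b0 (b :: p) = b := rfl

lemma al_nil (b0 : Qbar) : al b0 [] = 1 := rfl

lemma al_cons (b0 b : Qbar) (p : List Qbar) : al b0 (b :: p) = al b0 p + be b0 p := rfl

/-- A path in the tree. -/
def Valid (b0 : Qbar) : List Qbar → Prop
  | [] => True
  | b :: p => b ^ 2 = 4 * al b0 p * be b0 p ∧ Valid b0 p

section Push

variable {F : Type} [Field F]

/-- The `x`-coordinate of the 2-isogeny. -/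
def xi (a b x : F) : F := x * (x - b) / (4 * (x - a))

/-- The multiplier of the `y`-coordinate of the 2-isogeny. -/
def th (a b x : F) : F := (a * (a - b) - (x - a) ^ 2) / (8 * (x - a) ^ 2)

/-- The cubic of a node. -/
def cub (a b x : F) : F := x * (x - a) * (x - b)

lemma cub_xi [CharZero F] (α β x : F) (hx : x ≠ (α + β) ^ 2) :
    cub (α ^ 2) (β ^ 2) (xi ((α + β) ^ 2) (4 * α * β) x) =
      th ((α + β) ^ 2) (4 * α * β) x ^ 2 * cub ((α + β) ^ 2) (4 * α * β) x := by
  have := sub_ne_zero.mpr hx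
  simp only [cub, xi, th]
  field_simp
  ring

variable [Algebra Qbar F]

/-- The `x`-coordinate of the composite isogeny. -/
noncomputable def pX (b0 : Qbar) : List Qbar → F → F
  | [], x => x
  | b :: p, x => pX b0 p
      (xi (algebraMap Qbar F (al b0 (b :: p) ^ 2)) (algebraMap Qbar F (b ^ 2)) x)

/-- The multiplier of the `y`-coordinate of the composite isogeny. -/
noncomputable def pH (b0 : Qbar) : List Qbar → F → F
  | [], _ => 1
  | b :: p, x => pH b0 p
      (xi (algebraMap Qbar F (al b0 (b :: p) ^ 2)) (algebraMap Qbar F (b ^ 2)) x) *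
      th (algebraMap Qbar F (al b0 (b :: p) ^ 2)) (algebraMap Qbar F (b ^ 2)) x

/-- The point is not in the kernel of the composite isogeny. -/
def NoPole (b0 : Qbar) : List Qbar → F → Prop
  | [], _ => True
  | b :: p, x => x ≠ algebraMap Qbar F (al b0 (b :: p) ^ 2) ∧ NoPole b0 p
      (xi (algebraMap Qbar F (al b0 (b :: p) ^ 2)) (algebraMap Qbar F (b ^ 2)) x)

lemma push_curve {b0 : Qbar} {p : List Qbar} (hp : Valid b0 p) {x : F} (hx : NoPole b0 p x) :
    fl (algebraMap Qbar F (b0 ^ 2)) (pX b0 p x) = pH b0 p x ^ 2 *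
      cub (algebraMap Qbar F (al b0 p ^ 2)) (algebraMap Qbar F (be b0 p ^ 2)) x := by
  have : CharZero F := (algebraMap Qbar F).charZero_iff (algebraMap Qbar F).injective |>.mp
    inferInstance
  induction p generalizing x with
  | nil => simp [pX, pH, al, be, cub, fl]
  | cons b p ih =>
    obtain ⟨h1, h2⟩ := hp
    obtain ⟨k1, k2⟩ := hx
    rw [pX, pH, ih h2 k2]
    simp only [al_cons, be_cons, h1, map_pow, map_add, map_mul, map_ofNat] at k1 ⊢
    rw [cub_xi _ _ _ k1]
    ring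

lemma sp_push {V : ValuationSubring F} (hV : IsPlace V) {b0 : Qbar} {p : List Qbar} {g : F}
    {c : Qbar} (h : Sp V g c) (hc : NoPole b0 p c) :
    NoPole b0 p g ∧ Sp V (pX b0 p g) (pX b0 p c) ∧ Sp V (pH b0 p g) (pH b0 p c) := by
  induction p generalizing g c with
  | nil => exact ⟨trivial, h, Sp.one V⟩
  | cons b p ih =>
    obtain ⟨k1, k2⟩ := hc
    have k3 : c - al b0 (b :: p) ^ 2 ≠ 0 := sub_ne_zero.mpr k1
    have s1 := h.sub (Sp.const V (al b0 (b :: p) ^ 2))
    have s2 : Sp V (xi (algebraMap Qbar F (al b0 (b :: p) ^ 2)) (algebraMap Qbar F (b ^ 2)) g)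
        (xi (al b0 (b :: p) ^ 2) (b ^ 2) c) :=
      (h.mul hV (h.sub (Sp.const V _))).div hV ((Sp.ofNat V 4).mul hV s1)
        (mul_ne_zero (by norm_num) k3)
    have s3 : Sp V (th (algebraMap Qbar F (al b0 (b :: p) ^ 2)) (algebraMap Qbar F (b ^ 2)) g)
        (th (al b0 (b :: p) ^ 2) (b ^ 2) c) :=
      (((Sp.const V _).mul hV ((Sp.const V _).sub (Sp.const V _))).sub (s1.pow hV 2)).div hV
        ((Sp.ofNat V 8).mul hV (s1.pow hV 2)) (mul_ne_zero (by norm_num) (pow_ne_zero 2 k3))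
    obtain ⟨i1, i2, i3⟩ := ih s2 k2
    exact ⟨⟨sub_ne_zero.mp (s1.ne_zero hV k3), i1⟩, i2, i3.mul hV s3⟩

end Push

lemma nondeg {b0 : Qbar} (h0 : b0 ^ 2 ≠ 0) (h1 : b0 ^ 2 ≠ 1) {p : List Qbar} (hp : Valid b0 p) :
    al b0 p ≠ 0 ∧ be b0 p ≠ 0 ∧ al b0 p ^ 2 ≠ be b0 p ^ 2 := by
  induction p with
  | nil => exact ⟨one_ne_zero, fun h => h0 (by rw [show b0 = 0 from h]; simp),
      fun h => h1 (by simpa [al, be] using h.symm)⟩
  | cons b p ih =>
    obtain ⟨k1, k2⟩ := hp
    obtain ⟨i1, i2, i3⟩ := ih k2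
    refine ⟨fun h => i3 ?_, fun h => ?_, fun h => i3 ?_⟩
    · rw [al_cons] at h
      linear_combination (al b0 p - be b0 p) * h
    · rw [be_cons] at h
      rw [h] at k1
      exact mul_ne_zero (mul_ne_zero (show (4 : Qbar) ≠ 0 by norm_num) i1) i2 (by rw [← k1]; simp)
    · rw [al_cons, be_cons] at h
      have : (al b0 p - be b0 p) ^ 2 = 0 := by linear_combination h + k1
      rw [sub_eq_zero.mp (pow_eq_zero_iff two_ne_zero |>.mp this)]

/-- The image of the point is neither zero nor of order two. -/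
def Good (b0 : Qbar) (p : List Qbar) (x : Qbar) : Prop :=
  NoPole b0 p x ∧ fl (b0 ^ 2) (pX b0 p x) ≠ 0

lemma finite_xi (a b c : Qbar) : {x : Qbar | x ≠ a ∧ xi a b x = c}.Finite := by
  classical
  have hq : (Polynomial.X ^ 2 + (-Polynomial.C (b + 4 * c) * Polynomial.X +
      Polynomial.C (4 * c * a)) : Polynomial Qbar) ≠ 0 := by
    refine Polynomial.Monic.ne_zero ?_
    monicity!
  refine (Polynomial.roots (Polynomial.X ^ 2 + (-Polynomial.C (b + 4 * c) * Polynomial.X +
      Polynomial.C (4 * c * a)))).toFinset.finite_toSet.subset fun x hx => ?_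
  obtain ⟨h1, h2⟩ := hx
  have h3 := sub_ne_zero.mpr h1
  rw [xi, div_eq_iff (mul_ne_zero (by norm_num) h3)] at h2
  simp only [Finset.mem_coe, Multiset.mem_toFinset, Polynomial.mem_roots hq, Polynomial.IsRoot,
    Polynomial.eval_add, Polynomial.eval_pow, Polynomial.eval_X, Polynomial.eval_mul,
    Polynomial.eval_neg, Polynomial.eval_C]
  linear_combination h2

lemma finite_bad (b0 : Qbar) (p : List Qbar) : {x : Qbar | ¬ Good b0 p x}.Finite := by
  induction p with
  | nil =>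
    refine (Set.toFinite {0, 1, b0 ^ 2}).subset fun x hx => ?_
    have : fl (b0 ^ 2) x = 0 := by simpa [Good, NoPole, pX] using hx
    exact fl_eq_zero.mp this
  | cons b p ih =>
    refine ((ih.biUnion fun c _ => finite_xi (al b0 (b :: p) ^ 2) (b ^ 2) c).insert
      (al b0 (b :: p) ^ 2)).subset fun x hx => ?_
    by_cases h1 : x = al b0 (b :: p) ^ 2
    · exact Or.inl h1
    · refine Or.inr (Set.mem_biUnion (x := xi (al b0 (b :: p) ^ 2) (b ^ 2) x) ?_ ⟨h1, rfl⟩)
      intro hg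
      exact hx ⟨⟨h1, hg.1⟩, hg.2⟩

lemma push_surj {b0 : Qbar} (h0 : b0 ^ 2 ≠ 0) (h1 : b0 ^ 2 ≠ 1) {p : List Qbar} (hp : Valid b0 p)
    (c : Qbar) : ∃ x : Qbar, NoPole b0 p x ∧ pX b0 p x = c := by
  induction p with
  | nil => exact ⟨c, trivial, rfl⟩
  | cons b p ih =>
    obtain ⟨z, z1, z2⟩ := ih hp.2
    obtain ⟨n1, -, n3⟩ := nondeg h0 h1 hp
    set a := al b0 (b :: p) ^ 2 with ha
    have n4 : a ≠ b ^ 2 := n3
    obtain ⟨d, hd⟩ := exists_sq ((b ^ 2 + 4 * z) ^ 2 - 16 * z * a)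
    have e : ((b ^ 2 + 4 * z + d) / 2) * ((b ^ 2 + 4 * z + d) / 2 - b ^ 2) =
        z * (4 * ((b ^ 2 + 4 * z + d) / 2 - a)) := by
      linear_combination (1 / 4 : Qbar) * hd
    have n5 : (b ^ 2 + 4 * z + d) / 2 ≠ a := by
      intro h
      rw [h, sub_self, mul_zero, mul_zero] at e
      exact mul_ne_zero (pow_ne_zero 2 n1) (sub_ne_zero.mpr n4) e
    have e2 : xi a (b ^ 2) ((b ^ 2 + 4 * z + d) / 2) = z := by
      rw [xi, div_eq_iff (mul_ne_zero (by norm_num) (sub_ne_zero.mpr n5)), e]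
    refine ⟨(b ^ 2 + 4 * z + d) / 2, ⟨n5, ?_⟩, ?_⟩
    · change NoPole b0 p (xi a (b ^ 2) _)
      rwa [e2]
    · change pX b0 p (xi a (b ^ 2) _) = c
      rwa [e2]

end Pool.Agent.MP_9207e0_ag
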