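import Pool.Agent.MP_9207e0_ag.Absval
import Pool.Agent.MP_9207e0_ag.Tree

/-! The tree of 2-isogenies is not defined over a number field. -/

set_option linter.unusedSectionVars false
set_option linter.unusedVariables false

namespace Pool.Agent.MP_9207e0_ag

variable {b0 : Qbar}

/-- The ratio of the two parameters of a node. -/
noncomputable def rho (b0 : Qbar) (p : List Qbar) : Qbar := be b0 p / al b0 p

lemma valid_neg {b : Qbar} {p : List Qbar} (h : Valid b0 (b :: p)) : Valid b0 (-b :: p) :=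
  ⟨by rw [neg_sq]; exact h.1, h.2⟩

lemma rho_neg (b : Qbar) (p : List Qbar) : rho b0 (-b :: p) = -rho b0 (b :: p) := by
  simp only [rho, be_cons, al_cons, neg_div]

/-- A child of a node. -/
noncomputable def nxt (b0 : Qbar) (p : List Qbar) : List Qbar :=
  Classical.choose (exists_sq (4 * al b0 p * be b0 p)) :: p

lemma valid_nxt {p : List Qbar} (h : Valid b0 p) : Valid b0 (nxt b0 p) :=
  ⟨Classical.choose_spec (exists_sq (4 * al b0 p * be b0 p)), h⟩

lemma rho_cons (h0 : b0 ^ 2 ≠ 0) (h1 : b0 ^ 2 ≠ 1) {b : Qbar} {p : List Qbar}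
    (h : Valid b0 (b :: p)) :
    1 + rho b0 p ≠ 0 ∧ rho b0 (b :: p) ^ 2 * (1 + rho b0 p) ^ 2 = 4 * rho b0 p := by
  have a1 := (nondeg h0 h1 h.2).1
  have a2 := (nondeg h0 h1 h).1
  rw [al_cons] at a2
  have e : 1 + rho b0 p = (al b0 p + be b0 p) / al b0 p := by
    rw [rho]; field_simp
  refine ⟨by rw [e]; exact div_ne_zero a2 a1, ?_⟩
  rw [e]
  simp only [rho, be_cons, al_cons, div_pow, h.1]
  field_simp

lemma rho_ne (h0 : b0 ^ 2 ≠ 0) (h1 : b0 ^ 2 ≠ 1) {p : List Qbar} (h : Valid b0 p) :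
    rho b0 p ≠ 0 := div_ne_zero (nondeg h0 h1 h).2.1 (nondeg h0 h1 h).1

variable {v : AbsoluteValue Qbar ℝ}

lemma rho_val (h0 : b0 ^ 2 ≠ 0) (h1 : b0 ^ 2 ≠ 1) {b : Qbar} {p : List Qbar}
    (h : Valid b0 (b :: p)) :
    v (rho b0 (b :: p)) ^ 2 * v (1 + rho b0 p) ^ 2 = v 2 ^ 2 * v (rho b0 p) := by
  rw [← v.map_pow, ← v.map_pow, ← v.map_mul, (rho_cons h0 h1 h).2, v.map_mul, ← v.map_pow]
  norm_num

lemma exists_rho_ne (h0 : b0 ^ 2 ≠ 0) (h1 : b0 ^ 2 ≠ 1) (h2 : v 2 < 1) :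
    ∃ p, Valid b0 p ∧ v (rho b0 p) ≠ 1 := by
  by_contra hc
  push Not at hc
  have k : ∀ p, Valid b0 p → v (1 + rho b0 p) = v 2 := by
    intro p hp
    have : v (rho b0 (nxt b0 p)) ^ 2 * v (1 + rho b0 p) ^ 2 = v 2 ^ 2 * v (rho b0 p) :=
      rho_val (v := v) h0 h1 (valid_nxt hp)
    rw [hc _ (valid_nxt hp), hc p hp, one_pow, one_mul, mul_one] at this
    exact (pow_left_inj₀ (v.nonneg _) (v.nonneg _) two_ne_zero).mp this
  have k' : ∀ b p, Valid b0 (b :: p) → v (1 - rho b0 (b :: p)) = v 2 := by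
    intro b p hp
    have := k _ (valid_neg hp)
    rwa [rho_neg, ← sub_eq_add_neg] at this
  have c1 : Valid b0 (nxt b0 []) := valid_nxt trivial
  have c2 := valid_nxt c1
  have e : rho b0 (nxt b0 (nxt b0 [])) ^ 2 * (1 + rho b0 (nxt b0 [])) ^ 2 =
      4 * rho b0 (nxt b0 []) := (rho_cons h0 h1 c2).2
  have e2 : (1 - rho b0 (nxt b0 (nxt b0 []))) * (1 + rho b0 (nxt b0 (nxt b0 []))) *
      (1 + rho b0 (nxt b0 [])) ^ 2 = (1 - rho b0 (nxt b0 [])) ^ 2 := by
    linear_combination -e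
  have e3 := congrArg v e2
  rw [v.map_mul, v.map_mul, v.map_pow, v.map_pow, k _ c1, k _ c2] at e3
  have t1 : v (1 - rho b0 (nxt b0 [])) = v 2 := k' _ _ c1
  have t2 : v (1 - rho b0 (nxt b0 (nxt b0 []))) = v 2 := k' _ _ c2
  rw [t1, t2] at e3
  have p2 : 0 < v 2 := v.pos two_ne_zero
  have : v 2 * v 2 = 1 := mul_right_cancel₀ (pow_pos p2 2).ne' (by rw [e3, one_mul])
  nlinarith

lemma rho_small (na : IsNonarchimedean v) (h0 : b0 ^ 2 ≠ 0) (h1 : b0 ^ 2 ≠ 1) (h2 : v 2 < 1)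
    {b : Qbar} {p : List Qbar} (h : Valid b0 (b :: p)) (hp : v (rho b0 p) ≠ 1) :
    v (rho b0 (b :: p)) < 1 := by
  have e := rho_val (v := v) h0 h1 h
  have p2 : 0 < v 2 := v.pos two_ne_zero
  have q2 : v 2 ^ 2 < 1 := pow_lt_one₀ p2.le h2 two_ne_zero
  refine (pow_lt_one_iff_of_nonneg (v.nonneg _) two_ne_zero).mp ?_
  rcases lt_or_gt_of_ne hp with c | c
  · rw [na_add_eq na (by simpa using c), v.map_one, one_pow, mul_one] at e
    rw [e]
    exact mul_lt_one_of_nonneg_of_lt_one_left (by positivity) q2 c.le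
  · rw [add_comm, na_add_eq na (by simpa using c)] at e
    by_contra hc
    have := not_lt.mp hc
    nlinarith

lemma ratio_step (na : IsNonarchimedean v) {r r' x x' y y' : Qbar} (h2 : v 2 < 1)
    (hx : v x < 1) (hx' : v x' < 1) (n : x' ≠ 0) (n' : y' ≠ 0) (hr : r = x / x')
    (hr' : r' = y / y') (e : y ^ 2 * (1 + x) ^ 2 = 4 * x) (e' : y' ^ 2 * (1 + x') ^ 2 = 4 * x')
    (h3 : v 2 ≤ v (r - 1)) : v (r' - 1) ^ 2 = v (r - 1) := by
  have p2 : 0 < v 2 := v.pos two_ne_zero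
  have u1 : v (1 + x) = 1 := by rw [na_add_eq na (by simpa using hx), v.map_one]
  have u2 : v (1 + x') = 1 := by rw [na_add_eq na (by simpa using hx'), v.map_one]
  have hx1 : x = r * x' := by rw [hr]; field_simp
  have hy1 : y = r' * y' := by rw [hr']; field_simp
  have k : r' ^ 2 * (1 + x) ^ 2 = r * (1 + x') ^ 2 := by
    apply mul_left_cancel₀ (pow_ne_zero 2 n')
    rw [hy1] at e
    linear_combination e - r * e' + 4 * hx1
  have k2 : (r' - 1) * (r' + 1) * (1 + x) ^ 2 =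
      (r - 1) * (1 + x') ^ 2 + (1 - r) * x' * (2 + x + x') := by
    linear_combination k - (2 + x + x') * hx1
  have k3 : v (r' - 1) * v (r' + 1) = v (r - 1) := by
    have := congrArg v k2
    rw [na_add_eq na] at this
    · simpa only [v.map_mul, v.map_pow, u1, u2, one_pow, mul_one] using this
    · rw [v.map_mul, v.map_mul, v.map_mul, v.map_pow, u2, one_pow, mul_one, ← v.map_neg,
        neg_sub, mul_assoc]
      refine mul_lt_of_lt_one_right (p2.trans_le h3) ?_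
      exact mul_lt_one_of_nonneg_of_lt_one_left (v.nonneg _) hx'
        (na_add_le na (na_add_le na h2.le hx.le) hx'.le)
  by_cases c : v 2 < v (r' - 1)
  · rw [← k3, show r' + 1 = (r' - 1) + 2 by ring, na_add_eq na c, sq]
  · have c1 := not_lt.mp c
    have c2 : v (r' + 1) ≤ v 2 := by
      rw [show r' + 1 = (r' - 1) + 2 by ring]
      exact na_add_le na c1 le_rfl
    have : v (r - 1) ≤ v 2 * v 2 := by
      rw [← k3]; gcongr
    nlinarith

theorem tree_escape (h0 : b0 ^ 2 ≠ 0) (h1 : b0 ^ 2 ≠ 1) {L : IntermediateField ℚ Qbar}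
    (hL : FiniteDimensional ℚ L) (hb : b0 ∈ L) :
    ∃ (b : Qbar) (p : List Qbar), Valid b0 (b :: p) ∧ (∀ c ∈ p, c ∈ L) ∧ b ∉ L := by
  by_contra hc
  push Not at hc
  have all : ∀ p, Valid b0 p → (∀ c ∈ p, c ∈ L) ∧ al b0 p ∈ L ∧ be b0 p ∈ L := by
    intro p
    induction p with
    | nil => exact fun _ => ⟨by simp, L.one_mem, hb⟩
    | cons b p ih =>
      intro h
      obtain ⟨i1, i2, i3⟩ := ih h.2
      have := hc b p h i1
      exact ⟨by simpa using ⟨this, i1⟩, L.add_mem i2 i3, this⟩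
  have hrho : ∀ p, Valid b0 p → rho b0 p ∈ L := fun p hp =>
    L.div_mem (all p hp).2.2 (all p hp).2.1
  obtain ⟨v, hv⟩ := exists_pabs 2 Nat.prime_two
  have na := hv.na
  have h2 : v 2 < 1 := by simpa using hv.lt
  have p2 : 0 < v 2 := v.pos two_ne_zero
  obtain ⟨p0, v0, r0⟩ := exists_rho_ne h0 h1 h2
  obtain ⟨b, hb⟩ := exists_sq (4 * al b0 p0 * be b0 p0)
  have v1 : Valid b0 (b :: p0) := ⟨hb, v0⟩
  have path : ∀ q, Valid b0 q → v (rho b0 q) < 1 → ∀ k,
      Valid b0 ((nxt b0)^[k] q) ∧ v (rho b0 ((nxt b0)^[k] q)) < 1 := by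
    intro q q1 q2 k
    induction k with
    | zero => exact ⟨q1, q2⟩
    | succ k ih =>
      rw [Function.iterate_succ_apply']
      exact ⟨valid_nxt ih.1, rho_small na h0 h1 h2 (valid_nxt ih.1) ih.2.ne⟩
  have s1 := path _ v1 (rho_small na h0 h1 h2 v1 r0)
  have s2 := path _ (valid_neg v1) (rho_small na h0 h1 h2 (valid_neg v1) r0)
  let r : ℕ → Qbar := fun k =>
    rho b0 ((nxt b0)^[k] (b :: p0)) / rho b0 ((nxt b0)^[k] (-b :: p0))
  have step : ∀ k, v 2 ≤ v (r k - 1) → v (r (k + 1) - 1) ^ 2 = v (r k - 1) := by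
    intro k hk
    refine ratio_step na h2 (s1 k).2 (s2 k).2 (rho_ne h0 h1 (s2 k).1)
      (rho_ne h0 h1 (s2 (k + 1)).1) rfl rfl ?_ ?_ hk
    · rw [Function.iterate_succ_apply']
      exact (rho_cons h0 h1 (valid_nxt (s1 k).1)).2
    · rw [Function.iterate_succ_apply']
      exact (rho_cons h0 h1 (valid_nxt (s2 k).1)).2
  have incr : ∀ k, v 2 ≤ v (r k - 1) → v (r k - 1) < 1 →
      v (r k - 1) < v (r (k + 1) - 1) ∧ v (r (k + 1) - 1) < 1 := by
    intro k a1 a2
    have e := step k a1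
    have q := v.nonneg (r (k + 1) - 1)
    have a3 : v (r (k + 1) - 1) < 1 := by
      rw [← e] at a2
      exact (pow_lt_one_iff_of_nonneg q two_ne_zero).mp a2
    refine ⟨?_, a3⟩
    have : 0 < v (r (k + 1) - 1) := by
      rcases q.eq_or_lt with h | h
      · rw [← h] at e; nlinarith
      · exact h
    nlinarith
  have inv : ∀ k, v 2 ≤ v (r k - 1) ∧ v (r k - 1) < 1 := by
    intro k
    induction k with
    | zero =>
      have : r 0 - 1 = -2 := by
        simp only [r, Function.iterate_zero, id, rho_neg]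
        have := rho_ne h0 h1 v1
        field_simp
        norm_num
      rw [this, v.map_neg]
      exact ⟨le_rfl, h2⟩
    | succ k ih => exact ⟨ih.1.trans (incr k ih.1 ih.2).1.le, (incr k ih.1 ih.2).2⟩
  have mono : StrictMono fun k => v (r k - 1) :=
    strictMono_nat_of_lt_succ fun k => (incr k (inv k).1 (inv k).2).1
  have mem : ∀ k, r k - 1 ∈ L := fun k =>
    L.sub_mem (L.div_mem (hrho _ (s1 k).1) (hrho _ (s2 k).1)) L.one_mem
  obtain ⟨n, m, hnm, k1, -⟩ := hv.pig L hL _ _ 1 (v 2) mem mem (fun k => (inv k).2.le)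
    (fun k => (inv k).2.le) p2
  rw [← v.map_neg, neg_sub, na_sub_eq na (mono hnm)] at k1
  exact absurd k1 (not_lt.mpr (inv m).1)

end Pool.Agent.MP_9207e0_ag
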