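import Pool.Agent.MP_9207e0_ag.Formal
import Pool.Agent.MP_9207e0_ag.TwoAdic
import Pool.Agent.MP_9207e0_ag.Iso

/-! The points coming from the tree of 2-isogenies generate a group of infinite rank. -/

set_option linter.unusedSectionVars false
set_option linter.unusedVariables false

namespace Pool.Agent.MP_9207e0_ag

open WeierstrassCurve.Affine

variable {v : AbsoluteValue Qbar ℝ} {b0 : Qbar}

lemma pX_cons (b0 b : Qbar) (p : List Qbar) (x : Qbar) :
    pX b0 (b :: p) x = pX b0 p (xi (al b0 (b :: p) ^ 2) (b ^ 2) x) := by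
  simp only [pX, Algebra.algebraMap_self, RingHom.id_apply]

lemma pH_cons (b0 b : Qbar) (p : List Qbar) (x : Qbar) :
    pH b0 (b :: p) x =
      pH b0 p (xi (al b0 (b :: p) ^ 2) (b ^ 2) x) * th (al b0 (b :: p) ^ 2) (b ^ 2) x := by
  simp only [pH, Algebra.algebraMap_self, RingHom.id_apply]

lemma val_four (h2 : v 2 = 1) : v 4 = 1 := by
  rw [show (4 : Qbar) = 2 ^ 2 by norm_num, v.map_pow, h2, one_pow]

lemma val_eight (h2 : v 2 = 1) : v 8 = 1 := by
  rw [show (8 : Qbar) = 2 ^ 3 by norm_num, v.map_pow, h2, one_pow]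

lemma node_unit (na : IsNonarchimedean v) (h2 : v 2 = 1) (hb : v b0 = 1)
    (hb1 : v (1 - b0 ^ 2) = 1) {p : List Qbar} (hp : Valid b0 p) :
    v (al b0 p) = 1 ∧ v (be b0 p) = 1 ∧ v (al b0 p ^ 2 - be b0 p ^ 2) = 1 := by
  induction p with
  | nil => exact ⟨v.map_one, hb, by simpa [al_nil, be_nil] using hb1⟩
  | cons b p ih =>
    obtain ⟨i1, i2, i3⟩ := ih hp.2
    have e := hp.1
    have a1 : v (al b0 p + be b0 p) ≤ 1 := na_add_le na i1.le i2.le
    have a2 : v (al b0 p - be b0 p) ≤ 1 := na_sub_le na i1.le i2.le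
    rw [sq_sub_sq, v.map_mul] at i3
    have p1 := v.nonneg (al b0 p + be b0 p)
    have p2 := v.nonneg (al b0 p - be b0 p)
    have a3 : v (al b0 p + be b0 p) = 1 := by nlinarith
    have a4 : v (al b0 p - be b0 p) = 1 := by nlinarith
    refine ⟨a3, ?_, ?_⟩
    · have := congrArg v e
      rw [v.map_pow, v.map_mul, v.map_mul, val_four h2, i1, i2, mul_one, mul_one] at this
      exact (pow_eq_one_iff_of_nonneg (v.nonneg _) two_ne_zero).mp this
    · rw [al_cons, be_cons, e, show (al b0 p + be b0 p) ^ 2 - 4 * al b0 p * be b0 p =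
        (al b0 p - be b0 p) ^ 2 by ring, v.map_pow, a4, one_pow]

lemma push_big (na : IsNonarchimedean v) (h2 : v 2 = 1) (hb : v b0 = 1)
    (hb1 : v (1 - b0 ^ 2) = 1) {p : List Qbar} (hp : Valid b0 p) {x : Qbar} (hx : 1 < v x) :
    NoPole b0 p x ∧ v (pX b0 p x) = v x ∧ v (pH b0 p x) = 1 ∧
      v (pX b0 p x - (-2) ^ p.length * pH b0 p x * x) < v x := by
  induction p generalizing x with
  | nil =>
    refine ⟨trivial, rfl, v.map_one, ?_⟩
    simpa [pX, pH] using zero_lt_one.trans hx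
  | cons b p ih =>
    obtain ⟨u1, u2, u3⟩ := node_unit na h2 hb hb1 hp
    rw [be_cons] at u2 u3
    set a := al b0 (b :: p) ^ 2 with ha
    have ua : v a = 1 := by rw [ha, v.map_pow, u1, one_pow]
    have ub : v (b ^ 2) = 1 := by rw [v.map_pow, u2, one_pow]
    have px : 0 < v x := zero_lt_one.trans hx
    have c1 : v (x - a) = v x := na_sub_eq na (by rwa [ua])
    have c2 : v (x - b ^ 2) = v x := na_sub_eq na (by rwa [ub])
    have n1 : x - a ≠ 0 := v.pos_iff.mp (by rwa [c1])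
    have c3 : v (xi a (b ^ 2) x) = v x := by
      rw [xi, map_div₀, v.map_mul, v.map_mul, val_four h2, c1, c2]
      field_simp
    have c4 : v (8 * th a (b ^ 2) x + 1) < 1 := by
      have : 8 * th a (b ^ 2) x + 1 = a * (a - b ^ 2) / (x - a) ^ 2 := by
        rw [th]; field_simp; ring
      rw [this, map_div₀, v.map_mul, ua, v.map_pow, u3, c1, div_lt_one (by positivity)]
      nlinarith
    have c5 : v (th a (b ^ 2) x) = 1 := by
      have : v (-1 + (8 * th a (b ^ 2) x + 1)) = v (-1) := na_add_eq na (by simpa using c4)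
      rwa [show -1 + (8 * th a (b ^ 2) x + 1) = 8 * th a (b ^ 2) x by ring, v.map_mul,
        val_eight h2, one_mul, v.map_neg, v.map_one] at this
    have c6 : v (4 * xi a (b ^ 2) x - x) < v x := by
      have : 4 * xi a (b ^ 2) x - x = x * (a - b ^ 2) / (x - a) := by
        rw [xi]; field_simp; ring
      rw [this, map_div₀, v.map_mul, u3, c1, mul_one, div_self px.ne']
      exact hx
    have c7 : v (xi a (b ^ 2) x + 2 * th a (b ^ 2) x * x) < v x := by
      have : v (4 * (xi a (b ^ 2) x + 2 * th a (b ^ 2) x * x)) < v x := by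
        rw [show 4 * (xi a (b ^ 2) x + 2 * th a (b ^ 2) x * x) =
          (4 * xi a (b ^ 2) x - x) + (8 * th a (b ^ 2) x + 1) * x by ring]
        refine na_add_lt na c6 ?_
        rw [v.map_mul]
        exact mul_lt_of_lt_one_left px c4
      rwa [v.map_mul, val_four h2, one_mul] at this
    obtain ⟨i1, i2, i3, i4⟩ := ih hp.2 (x := xi a (b ^ 2) x) (by rwa [c3])
    rw [pX_cons, pH_cons, ← ha, List.length_cons]
    refine ⟨⟨sub_ne_zero.mp n1, i1⟩, i2.trans c3, ?_, ?_⟩
    · rw [v.map_mul, i3, c5, mul_one]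
    · rw [show pX b0 p (xi a (b ^ 2) x) - (-2) ^ (p.length + 1) *
        (pH b0 p (xi a (b ^ 2) x) * th a (b ^ 2) x) * x =
        (pX b0 p (xi a (b ^ 2) x) - (-2) ^ p.length * pH b0 p (xi a (b ^ 2) x) * xi a (b ^ 2) x) +
        (-2) ^ p.length * pH b0 p (xi a (b ^ 2) x) *
          (xi a (b ^ 2) x + 2 * th a (b ^ 2) x * x) by ring]
      refine na_add_lt na (by rwa [c3] at i4) ?_
      rwa [v.map_mul, v.map_mul, v.map_pow, v.map_neg, h2, i3, one_pow, one_mul, one_mul]

lemma good_of_big (na : IsNonarchimedean v) (h2 : v 2 = 1) (hb : v b0 = 1)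
    (hb1 : v (1 - b0 ^ 2) = 1) {p : List Qbar} (hp : Valid b0 p) {t : Qbar} (ht : 1 < v t) :
    Good b0 p (t * al b0 p ^ 2) := by
  have hx : 1 < v (t * al b0 p ^ 2) := by
    rwa [v.map_mul, v.map_pow, (node_unit na h2 hb hb1 hp).1, one_pow, mul_one]
  obtain ⟨a1, a2, -⟩ := push_big na h2 hb hb1 hp hx
  refine ⟨a1, fun h => ?_⟩
  rw [← a2] at hx
  rcases fl_eq_zero.mp h with h | h | h <;> rw [h] at hx
  · simp only [map_zero] at hx; linarith
  · simp at hx
  · simp [hb] at hx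

variable [DecidableEq Qbar]

lemma tree_z (na : IsNonarchimedean v) (h2 : v 2 = 1) (hb : v b0 = 1)
    (hb1 : v (1 - b0 ^ 2) = 1) {p : List Qbar} (hp : Valid b0 p) {t : Qbar} (ht : 1 < v t)
    {P : (legendre (b0 ^ 2)).Point} (hP : TreePt b0 p t P) :
    Big v P ∧ v (zc P ^ 2 * (t * al b0 p ^ 2) - 4 ^ p.length) < 1 := by
  obtain ⟨u1, u2, -⟩ := node_unit na h2 hb hb1 hp
  obtain ⟨y, h, ey, rfl⟩ := hP
  have hx : 1 < v (t * al b0 p ^ 2) := by
    rwa [v.map_mul, v.map_pow, u1, one_pow, mul_one]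
  obtain ⟨-, a2, a3, a4⟩ := push_big na h2 hb hb1 hp hx
  rw [big_some, zc_some]
  set x := t * al b0 p ^ 2
  set X := pX b0 p x
  set H := pH b0 p x
  set a := al b0 p ^ 2 with ha
  set b := be b0 p ^ 2 with hb'
  have ua : v a = 1 := by rw [ha, v.map_pow, u1, one_pow]
  have ub : v b = 1 := by rw [hb', v.map_pow, u2, one_pow]
  have px : 0 < v x := zero_lt_one.trans hx
  have c1 : v (x - a) = v x := na_sub_eq na (by rwa [ua])
  have c2 : v (x - b) = v x := na_sub_eq na (by rwa [ub])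
  have n0 : x ≠ 0 := v.pos_iff.mp px
  have n1 : x - a ≠ 0 := v.pos_iff.mp (by rwa [c1])
  have n2 : x - b ≠ 0 := v.pos_iff.mp (by rwa [c2])
  have n3 : H ≠ 0 := v.pos_iff.mp (by rw [a3]; exact one_pos)
  refine ⟨by rwa [a2], ?_⟩
  set s : Qbar := (-2) ^ p.length with hs
  have s2 : (4 : Qbar) ^ p.length = s ^ 2 := by
    rw [hs, ← pow_mul, mul_comm, pow_mul]; norm_num
  have vs : v s = 1 := by rw [hs, v.map_pow, v.map_neg, h2, one_pow]
  have e : (X / (H * y)) ^ 2 * x - 4 ^ p.length =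
      ((X - s * H * x) * (X + s * H * x) + s ^ 2 * H ^ 2 * ((a + b) * x - a * b)) /
        (H ^ 2 * (x - a) * (x - b)) := by
    rw [div_pow, mul_pow, ey, cub, s2]
    field_simp
    ring
  rw [e, map_div₀, v.map_mul, v.map_mul, v.map_pow, a3, c1, c2, one_pow, one_mul,
    div_lt_one (by positivity)]
  refine na_add_lt na ?_ ?_
  · rw [v.map_mul]
    have : v (X + s * H * x) ≤ v x :=
      na_add_le na a2.le (by rw [v.map_mul, v.map_mul, vs, a3, one_mul, one_mul])
    calc v (X - s * H * x) * v (X + s * H * x) ≤ v (X - s * H * x) * v x := by gcongr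
      _ < v x * v x := by gcongr
  · rw [v.map_mul, v.map_mul, v.map_pow s, v.map_pow H, vs, a3, one_pow, one_mul, one_mul]
    refine na_sub_lt na ?_ ?_
    · rw [v.map_mul]
      have : v (a + b) ≤ 1 := na_add_le na ua.le ub.le
      calc v (a + b) * v x ≤ 1 * v x := by gcongr
        _ < v x * v x := by gcongr
    · rw [v.map_mul, ua, ub]
      nlinarith

section Galois

variable {σ : Qbar →+* Qbar} (hσ : σ b0 = b0)
include hσ

lemma be_map (p : List Qbar) : be b0 (p.map σ) = σ (be b0 p) := by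
  cases p with
  | nil => exact hσ.symm
  | cons b p => rfl

lemma al_map (p : List Qbar) : al b0 (p.map σ) = σ (al b0 p) := by
  induction p with
  | nil => exact σ.map_one.symm
  | cons b p ih => rw [List.map_cons, al_cons, al_cons, ih, be_map hσ, map_add]

lemma valid_map {p : List Qbar} (hp : Valid b0 p) : Valid b0 (p.map σ) := by
  induction p with
  | nil => trivial
  | cons b p ih =>
    refine ⟨?_, ih hp.2⟩
    rw [al_map hσ, be_map hσ, ← map_pow, hp.1, map_mul, map_mul, map_ofNat]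

lemma push_map (p : List Qbar) (x : Qbar) :
    pX b0 (p.map σ) (σ x) = σ (pX b0 p x) ∧ pH b0 (p.map σ) (σ x) = σ (pH b0 p x) := by
  induction p generalizing x with
  | nil => exact ⟨rfl, σ.map_one.symm⟩
  | cons b p ih =>
    have e0 : al b0 (σ b :: p.map σ) = σ (al b0 (b :: p)) := al_map hσ (b :: p)
    have e1 : xi (al b0 (σ b :: p.map σ) ^ 2) (σ b ^ 2) (σ x) =
        σ (xi (al b0 (b :: p) ^ 2) (b ^ 2) x) := by
      simp [xi, e0, map_ofNat]
    have e2 : th (al b0 (σ b :: p.map σ) ^ 2) (σ b ^ 2) (σ x) =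
        σ (th (al b0 (b :: p) ^ 2) (b ^ 2) x) := by
      simp [th, e0, map_ofNat]
    rw [List.map_cons, pX_cons, pX_cons, pH_cons, pH_cons, e1, e2, (ih _).1, (ih _).2, map_mul]
    exact ⟨rfl, rfl⟩

lemma treePt_map (hσ' : σ (b0 ^ 2) = b0 ^ 2) {p : List Qbar} {t : Qbar} (ht : σ t = t)
    {P : (legendre (b0 ^ 2)).Point} (hP : TreePt b0 p t P) :
    TreePt b0 (p.map σ) t (act σ hσ' P) := by
  obtain ⟨y, h, ey, rfl⟩ := hP
  obtain ⟨h', e⟩ := act_some σ hσ' h
  have e1 : t * al b0 (p.map σ) ^ 2 = σ (t * al b0 p ^ 2) := by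
    rw [map_mul, map_pow, ht, al_map hσ]
  obtain ⟨h'', e'⟩ := some_congr h' (x' := pX b0 (p.map σ) (t * al b0 (p.map σ) ^ 2))
    (y' := pH b0 (p.map σ) (t * al b0 (p.map σ) ^ 2) * σ y) (by rw [e1, (push_map hσ _ _).1])
    (by rw [e1, (push_map hσ _ _).2, map_mul])
  refine ⟨σ y, h'', ?_, e.trans e'⟩
  rw [← map_pow, ey, e1, al_map hσ, be_map hσ]
  simp [cub]

end Galois

/-- The coordinates of a point. -/
def coords {l : Qbar} : (legendre l).Point → Set Qbar
  | .zero => ∅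
  | .some x y _ => {x, y}

theorem aleph0_le_rank {p : ℕ} (hp : p.Prime) (hv : PAbs p v) (h2 : v 2 = 1) (hb : v b0 = 1)
    (hb1 : v (1 - b0 ^ 2) = 1) {t : Qbar} (ht : 1 < v t * v p)
    (A : AddSubgroup (legendre (b0 ^ 2)).Point) (N : ℕ) (hN : N ≠ 0)
    (hA : ∀ q P, Valid b0 q → TreePt b0 q t P → N • P ∈ A) :
    Cardinal.aleph0 ≤ Module.rank ℤ A := by
  have na := hv.na
  have h0 : b0 ^ 2 ≠ 0 := pow_ne_zero 2 (v.pos_iff.mp (by rw [hb]; exact one_pos))
  have h1 : b0 ^ 2 ≠ 1 := fun h => by simp [h] at hb1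
  have ht1 : 1 < v t := ht.trans_le (mul_le_of_le_one_right (v.nonneg t) hv.lt.le)
  by_contra hc
  obtain ⟨s, hs1, hs2⟩ := exists_maximal_linearIndepOn ℤ (id : A → A)
  have hfin : s.Finite :=
    Cardinal.lt_aleph0_iff_set_finite.mp (hs1.cardinal_le_rank.trans_lt (not_le.mp hc))
  have hfin2 : (insert b0 (insert t (⋃ P ∈ s, coords (P : (legendre (b0 ^ 2)).Point)))).Finite := by
    refine ((hfin.biUnion fun P _ => ?_).insert t).insert b0
    rcases (P : (legendre (b0 ^ 2)).Point) with _ | ⟨x, y, h⟩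
    · exact Set.finite_empty
    · exact Set.toFinite {x, y}
  have := qbar_algebraic
  have := hfin2.to_subtype
  let L := IntermediateField.adjoin ℚ
    (insert b0 (insert t (⋃ P ∈ s, coords (P : (legendre (b0 ^ 2)).Point))))
  have hL : FiniteDimensional ℚ L := IntermediateField.finiteDimensional_adjoin fun z _ =>
    (Algebra.IsAlgebraic.isAlgebraic z).isIntegral
  have m1 : b0 ∈ L := IntermediateField.subset_adjoin _ _ (Or.inl rfl)
  have m2 : t ∈ L := IntermediateField.subset_adjoin _ _ (Or.inr (Or.inl rfl))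
  have m3 : b0 ^ 2 ∈ L := pow_mem m1 2
  obtain ⟨b, q, v1, k1, k2⟩ := tree_escape h0 h1 hL m1
  obtain ⟨σ, hσ, hσb⟩ := exists_aut k2
  have hq : q.map σ = q := by
    conv_rhs => rw [← List.map_id q]
    exact List.map_congr_left fun c hc => hσ c (k1 c hc)
  have s1 : σ (al b0 q) = al b0 q := by rw [← al_map (hσ _ m1), hq]
  have s2 : σ (be b0 q) = be b0 q := by rw [← be_map (hσ _ m1), hq]
  have s3 : σ b = -b := by
    have : (σ b - b) * (σ b + b) = 0 := by
      have e := congrArg σ v1.1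
      rw [map_pow, map_mul, map_mul, map_ofNat, s1, s2, ← v1.1] at e
      linear_combination e
    exact eq_neg_of_add_eq_zero_left ((mul_eq_zero.mp this).resolve_left (sub_ne_zero.mpr hσb))
  have v2 : Valid b0 (nxt b0 (b :: q)) := valid_nxt v1
  have v3 := valid_map (hσ _ m1) v2
  obtain ⟨y, ey⟩ := exists_sq (cub (al b0 (nxt b0 (b :: q)) ^ 2) (be b0 (nxt b0 (b :: q)) ^ 2)
    (t * al b0 (nxt b0 (b :: q)) ^ 2))
  have hn := exists_treePt h0 h1 v2 (good_of_big na h2 hb hb1 v2 ht1).1 ey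
  have t1 : TreePt b0 (nxt b0 (b :: q)) t (Point.some _ _ hn) := ⟨y, hn, ey, rfl⟩
  have t2 := treePt_map (hσ _ m1) (hσ _ m3) (hσ _ m2) t1
  set P := Point.some _ _ hn
  obtain ⟨z1, z2⟩ := tree_z na h2 hb hb1 v2 ht1 t1
  obtain ⟨z3, z4⟩ := tree_z na h2 hb hb1 v3 ht1 t2
  rw [List.length_map] at z4
  have a1 : al b0 (nxt b0 (b :: q)) = al b0 (b :: q) + b := rfl
  have a2 : al b0 ((nxt b0 (b :: q)).map σ) = al b0 (b :: q) - b := by
    rw [al_map (hσ _ m1), a1, map_add, s3, al_cons, map_add, s1, s2, sub_eq_add_neg]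
  obtain ⟨u1, u2, -⟩ := node_unit na h2 hb hb1 v1
  rw [be_cons] at u2
  have nt := sub_not_torsion hp hv (by rw [v.map_pow, hb, one_pow]) z1 z3 ht
    (by rw [v.map_pow, (node_unit na h2 hb hb1 v2).1, one_pow])
    (by rw [v.map_pow, (node_unit na h2 hb hb1 v3).1, one_pow])
    (by rw [a1, a2, show (al b0 (b :: q) + b) ^ 2 - (al b0 (b :: q) - b) ^ 2 =
      4 * al b0 (b :: q) * b by ring, v.map_mul, v.map_mul, val_four h2, u1, u2, mul_one, mul_one])
    (by rw [v.map_pow, val_four h2, one_pow]) z2 z4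
  have fix : ∀ R ∈ Submodule.span ℤ (id '' s),
      act σ (hσ _ m3) (R : (legendre (b0 ^ 2)).Point) = R := by
    intro R hR
    induction hR using Submodule.span_induction with
    | mem R hR =>
      rw [Set.image_id] at hR
      have hc : coords (R : (legendre (b0 ^ 2)).Point) ⊆ L := fun z hz =>
        IntermediateField.subset_adjoin _ _ (Or.inr (Or.inr (Set.mem_biUnion hR hz)))
      revert hc
      rcases (R : (legendre (b0 ^ 2)).Point) with _ | ⟨x, y, h⟩
      · exact fun _ => rfl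
      · exact fun hc => act_fixed m3 h (hc (Or.inl rfl)) (hc (Or.inr rfl)) σ hσ
    | zero => simp
    | add R R' _ _ i1 i2 => rw [AddSubgroup.coe_add, map_add, i1, i2]
    | smul c R _ i => rw [AddSubgroup.coe_zsmul, map_zsmul, i]
  have : ∃ c : ℤ, c ≠ 0 ∧ c • (⟨N • P, hA _ _ v2 t1⟩ : A) ∈ Submodule.span ℤ (id '' s) := by
    by_cases h : (⟨N • P, hA _ _ v2 t1⟩ : A) ∈ s
    · exact ⟨1, one_ne_zero, by rw [one_smul]; exact Submodule.subset_span ⟨_, h, rfl⟩⟩
    · exact hs2 _ h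
  obtain ⟨c, c0, hc⟩ := this
  have e := fix _ hc
  rw [AddSubgroup.coe_zsmul, map_zsmul, map_nsmul] at e
  apply nt (c.natAbs * N) (mul_ne_zero (by simpa using c0) hN)
  rw [mul_nsmul', natAbs_nsmul_eq_zero, nsmul_sub, zsmul_sub, e, sub_self]

end Pool.Agent.MP_9207e0_ag
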